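import Mathlib

open MeasureTheory Set Filter Topology
open scoped ENNReal NNReal Real

namespace Quad


lemma le_of_local {ν lam ρ : Measure ℝ} [IsFiniteMeasure ρ] {O : Set ℝ} (hO : MeasurableSet O)
    (hν : ν Oᶜ = 0)
    (h : ∀ ε : ℝ≥0, 0 < ε → ∀ t ∈ O, ∃ U : Set ℝ, IsOpen U ∧ t ∈ U ∧
      ∀ B, MeasurableSet B → B ⊆ U → ν B ≤ lam B + ε * ρ B) : ν ≤ lam := by
  have key : ∀ ε : ℝ≥0, 0 < ε → ∀ A, MeasurableSet A → ν A ≤ lam A + ε * ρ univ := by
    intro ε hε A hA
    choose! U hU1 hU2 hU3 using h ε hε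
    obtain ⟨t, htO, htc, ht⟩ := TopologicalSpace.countable_cover_nhdsWithin (s := O) (f := U)
      (fun x hx => mem_nhdsWithin_of_mem_nhds ((hU1 x hx).mem_nhds (hU2 x hx)))
    rcases t.eq_empty_or_nonempty with rfl | hne
    · have hOe : O = ∅ := by
        apply Set.subset_eq_empty ht
        simp
      rw [hOe, compl_empty] at hν
      exact (measure_mono (subset_univ A)).trans (by rw [hν]; exact zero_le)
    · obtain ⟨f, rfl⟩ := htc.exists_eq_range hne
      have hfO : ∀ n, f n ∈ O := fun n => htO ⟨n, rfl⟩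
      let D : ℕ → Set ℝ := disjointed fun n => U (f n)
      have hDm : ∀ n, MeasurableSet (D n) := fun n =>
        MeasurableSet.disjointed (fun n => (hU1 _ (hfO n)).measurableSet) n
      have hDd : Pairwise (Function.onFun Disjoint D) := disjoint_disjointed _
      have hDU : ⋃ n, D n = ⋃ n, U (f n) := iUnion_disjointed
      have hDs : ∀ n, D n ⊆ U (f n) := fun n => disjointed_subset _ n
      have hcov : O ⊆ ⋃ n, D n := by
        rw [hDU]
        refine ht.trans ?_
        simp
      let E : ℕ → Set ℝ := fun n => A ∩ O ∩ D n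
      have hEm : ∀ n, MeasurableSet (E n) := fun n => (hA.inter hO).inter (hDm n)
      have hEd : Pairwise (Function.onFun Disjoint E) := fun i j hij =>
        (hDd hij).mono inter_subset_right inter_subset_right
      have hEU : ⋃ n, E n = A ∩ O := by
        show ⋃ n, A ∩ O ∩ D n = A ∩ O
        rw [← inter_iUnion]
        exact inter_eq_left.2 (inter_subset_right.trans hcov)
      calc ν A ≤ ν (A ∩ O) + ν (A ∩ Oᶜ) := by
            refine (measure_mono ?_).trans (measure_union_le _ _)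
            intro x hx
            by_cases h : x ∈ O
            · exact Or.inl ⟨hx, h⟩
            · exact Or.inr ⟨hx, h⟩
        _ = ν (⋃ n, E n) := by
            rw [hEU, measure_mono_null inter_subset_right hν, add_zero]
        _ ≤ ∑' n, ν (E n) := measure_iUnion_le _
        _ ≤ ∑' n, (lam (E n) + ε * ρ (E n)) :=
            ENNReal.tsum_le_tsum fun n => hU3 _ (hfO n) _ (hEm n)
              (inter_subset_right.trans (hDs n))
        _ = lam (⋃ n, E n) + ε * ρ (⋃ n, E n) := by
            rw [ENNReal.tsum_add, ENNReal.tsum_mul_left, measure_iUnion hEd hEm,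
              measure_iUnion hEd hEm]
        _ ≤ lam A + ε * ρ univ := by
            refine add_le_add (measure_mono ?_) (mul_le_mul_right (measure_mono (subset_univ _)) _)
            rw [hEU]
            exact inter_subset_left
  refine Measure.le_iff.2 fun A hA => ?_
  refine ENNReal.le_of_forall_pos_le_add fun δ hδ _ => ?_
  obtain ⟨M, hM⟩ : ∃ M : ℝ≥0, ρ univ = M := ⟨(ρ univ).toNNReal, by
    rw [ENNReal.coe_toNNReal (measure_ne_top ρ univ)]⟩
  refine (key (δ / (M + 1)) (by positivity) A hA).trans ?_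
  refine add_le_add le_rfl ?_
  rw [hM]
  norm_cast
  rw [div_mul_eq_mul_div]
  apply div_le_of_le_mul₀ (by positivity) (by positivity)
  exact mul_le_mul_of_nonneg_left (by simp) (by positivity)

/-- local bounds -/
lemma local_bounds (γ : ℝ → ℂ) (w : ℝ → ℝ) (hw : Continuous w) (v : ℂ) (t : ℝ)
    (hv : ‖v‖ = w t) (hd : HasStrictDerivAt γ v t) (ε : ℝ) (hε : 0 < ε) :
    ∃ U : Set ℝ, IsOpen U ∧ t ∈ U ∧ (∀ s ∈ U, |w s - w t| ≤ ε) ∧
      ∀ s ∈ U, ∀ s' ∈ U, ‖γ s - γ s'‖ ≤ (w t + ε) * |s - s'| ∧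
        (w t - ε) * |s - s'| ≤ ‖γ s - γ s'‖ := by
  have h1 : ∀ᶠ p : ℝ × ℝ in 𝓝 (t, t), ‖γ p.1 - γ p.2 - (p.1 - p.2) • v‖ ≤ ε * ‖p.1 - p.2‖ := by
    have := (hasStrictDerivAt_iff_hasStrictFDerivAt.1 hd).isLittleO.def hε
    simpa using this
  have h2 : ∀ᶠ s in 𝓝 t, |w s - w t| ≤ ε := by
    have := Metric.tendsto_nhds.1 (hw.tendsto t) ε hε
    filter_upwards [this] with s hs
    exact le_of_lt (by rwa [Real.dist_eq] at hs)
  obtain ⟨U1, hU1, ht1, hU1'⟩ : ∃ U1 : Set ℝ, IsOpen U1 ∧ t ∈ U1 ∧ ∀ s ∈ U1, ∀ s' ∈ U1,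
      ‖γ s - γ s' - (s - s') • v‖ ≤ ε * ‖s - s'‖ := by
    rw [nhds_prod_eq, Filter.Eventually, Filter.mem_prod_self_iff] at h1
    obtain ⟨V, hV, hVs⟩ := h1
    obtain ⟨U1, hU1V, hU1, ht1⟩ := mem_nhds_iff.1 hV
    exact ⟨U1, hU1, ht1, fun s hs s' hs' => hVs (mk_mem_prod (hU1V hs) (hU1V hs'))⟩
  obtain ⟨U2, hU2s, hU2, ht2⟩ := mem_nhds_iff.1 h2
  refine ⟨U1 ∩ U2, hU1.inter hU2, ⟨ht1, ht2⟩, fun s hs => hU2s hs.2, ?_⟩
  intro s hs s' hs'
  have h3 := hU1' s hs.1 s' hs'.1
  have h4 : ‖(s - s') • v‖ = w t * |s - s'| := by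
    rw [norm_smul, hv, Real.norm_eq_abs, mul_comm]
  rw [Real.norm_eq_abs] at h3
  constructor
  · have h5 : ‖γ s - γ s'‖ ≤ ‖γ s - γ s' - (s - s') • v‖ + ‖(s - s') • v‖ := by
      have := norm_add_le (γ s - γ s' - (s - s') • v) ((s - s') • v)
      rwa [sub_add_cancel] at this
    rw [h4] at h5
    linarith
  · have h5 : ‖(s - s') • v‖ ≤ ‖γ s - γ s'‖ + ‖γ s - γ s' - (s - s') • v‖ := by
      have := norm_sub_le (γ s - γ s') (γ s - γ s' - (s - s') • v)
      rwa [sub_sub_cancel] at this
    rw [h4] at h5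
    linarith

lemma upper_meas (γ : ℝ → ℂ) (B : Set ℝ) (c : ℝ≥0)
    (h : ∀ s ∈ B, ∀ s' ∈ B, ‖γ s - γ s'‖ ≤ c * |s - s'|) :
    (μH[1] : Measure ℂ) (γ '' B) ≤ c * volume B := by
  have hl : LipschitzOnWith c γ B := LipschitzOnWith.of_dist_le_mul fun s hs s' hs' => by
    rw [dist_eq_norm, Real.dist_eq]
    exact h s hs s' hs'
  have h1 := hl.hausdorffMeasure_image_le (d := 1) zero_le_one
  rwa [hausdorffMeasure_real, ENNReal.rpow_one] at h1

lemma lower_meas (γ : ℝ → ℂ) (B : Set ℝ) (c : ℝ≥0)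
    (h : ∀ s ∈ B, ∀ s' ∈ B, c * |s - s'| ≤ ‖γ s - γ s'‖) :
    c * volume B ≤ (μH[1] : Measure ℂ) (γ '' B) := by
  rcases eq_or_ne c 0 with rfl | hc
  · simp
  have hinj : InjOn γ B := by
    intro s hs s' hs' hss
    have h1 := h s hs s' hs'
    rw [hss, sub_self, norm_zero] at h1
    have h2 : 0 < (c : ℝ) := by positivity
    have h3 : |s - s'| ≤ 0 := by
      by_contra hcon
      push Not at hcon
      have := mul_pos h2 hcon
      linarith
    exact sub_eq_zero.1 (abs_nonpos_iff.1 h3)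
  let g : ℂ → ℝ := Function.invFunOn γ B
  have hg : ∀ s ∈ B, g (γ s) = s := fun s hs => hinj.leftInvOn_invFunOn hs
  have hl : LipschitzOnWith c⁻¹ g (γ '' B) := by
    refine LipschitzOnWith.of_dist_le_mul ?_
    rintro _ ⟨s, hs, rfl⟩ _ ⟨s', hs', rfl⟩
    rw [hg s hs, hg s' hs', dist_eq_norm (γ s), Real.dist_eq, NNReal.coe_inv]
    have h2 : 0 < (c : ℝ) := by positivity
    rw [inv_mul_eq_div, le_div_iff₀ h2, mul_comm]
    exact h s hs s' hs'
  have h1 := hl.hausdorffMeasure_image_le (d := 1) zero_le_one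
  have h2 : g '' (γ '' B) = B := by
    rw [← image_comp]
    ext x
    constructor
    · rintro ⟨s, hs, rfl⟩
      show g (γ s) ∈ B
      rw [hg s hs]
      exact hs
    · intro hx
      exact ⟨x, hx, hg x hx⟩
  rw [h2, hausdorffMeasure_real, ENNReal.rpow_one] at h1
  calc (c : ℝ≥0∞) * volume B ≤ c * ((c⁻¹ : ℝ≥0) * (μH[1] : Measure ℂ) (γ '' B)) :=
        mul_le_mul_right h1 _
    _ = (μH[1] : Measure ℂ) (γ '' B) := by
        rw [← mul_assoc, ← ENNReal.coe_mul, mul_inv_cancel₀ hc, ENNReal.coe_one, one_mul]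

/-- One dimensional area formula: arc length (Hausdorff measure) of a Lipschitz Jordan curve. -/
theorem arc_measure (γ : ℝ → ℂ) (w : ℝ → ℝ) (K : ℝ≥0) (hγ : LipschitzWith K γ)
    (hinj : InjOn γ (Ico 0 (2 * π))) (hw : Continuous w) (hw0 : ∀ θ, 0 ≤ w θ)
    (O : Set ℝ) (hO : MeasurableSet O) (hOc : volume Oᶜ = 0)
    (hder : ∀ θ ∈ O, ∃ v : ℂ, ‖v‖ = w θ ∧ HasStrictDerivAt γ v θ) :
    (μH[1] : Measure ℂ).restrict (γ '' Ico 0 (2 * π))
      = Measure.map γ ((volume.restrict (Ico 0 (2 * π))).withDensity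
          (fun θ => ENNReal.ofReal (w θ))) := by
  set I : Set ℝ := Ico 0 (2 * π) with hI
  have hIm : MeasurableSet I := measurableSet_Ico
  have : StandardBorelSpace I := hIm.standardBorel
  let g : I → ℂ := fun x => γ x
  have hgm : Measurable g := (hγ.continuous.comp continuous_subtype_val).measurable
  have hgi : Function.Injective g := fun x y h => Subtype.ext (hinj x.2 y.2 h)
  have hge : MeasurableEmbedding g := hgm.measurableEmbedding hgi
  have hrange : range g = γ '' I := by
    ext z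
    constructor
    · rintro ⟨x, rfl⟩
      exact ⟨x.1, x.2, rfl⟩
    · rintro ⟨x, hx, rfl⟩
      exact ⟨⟨x, hx⟩, rfl⟩
  let ν : Measure ℝ := Measure.map Subtype.val (Measure.comap g (μH[1] : Measure ℂ))
  let ρ : Measure ℝ := volume.restrict I
  let lam : Measure ℝ := ρ.withDensity (fun θ => ENNReal.ofReal (w θ))
  have : IsFiniteMeasure ρ := by
    constructor
    rw [Measure.restrict_apply_univ, hI, Real.volume_Ico]
    exact ENNReal.ofReal_lt_top
  have hνB : ∀ B, MeasurableSet B → ν B = (μH[1] : Measure ℂ) (γ '' (B ∩ I)) := by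
    intro B hB
    rw [Measure.map_apply measurable_subtype_coe hB, hge.comap_apply]
    congr 1
    ext z
    constructor
    · rintro ⟨x, hx, rfl⟩
      exact ⟨x.1, ⟨hx, x.2⟩, rfl⟩
    · rintro ⟨x, ⟨hx, hx'⟩, rfl⟩
      exact ⟨⟨x, hx'⟩, hx, rfl⟩
  have hρB : ∀ B, MeasurableSet B → ρ B = volume (B ∩ I) := fun B hB =>
    Measure.restrict_apply hB
  have hlB : ∀ B, MeasurableSet B → lam B = ∫⁻ θ in B ∩ I, ENNReal.ofReal (w θ) := by
    intro B hB
    rw [withDensity_apply _ hB, Measure.restrict_restrict hB]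
  have hlup : ∀ B, MeasurableSet B → ∀ c : ℝ≥0∞, (∀ s ∈ B, ENNReal.ofReal (w s) ≤ c) →
      lam B ≤ c * ρ B := by
    intro B hB c hc
    rw [hlB B hB, hρB B hB]
    refine (setLIntegral_mono measurable_const fun s hs => hc s hs.1).trans ?_
    rw [setLIntegral_const]
  have hllo : ∀ B, MeasurableSet B → ∀ c : ℝ≥0∞, (∀ s ∈ B, c ≤ ENNReal.ofReal (w s)) →
      c * ρ B ≤ lam B := by
    intro B hB c hc
    rw [hlB B hB, hρB B hB, ← setLIntegral_const]
    exact setLIntegral_mono (hw.measurable.ennreal_ofReal) fun s hs => hc s hs.1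
  have hmain : ν = lam := by
    apply le_antisymm
    · refine le_of_local (ρ := ρ) hO ?_ ?_
      · rw [hνB _ hO.compl]
        refine le_antisymm ?_ zero_le
        refine (upper_meas γ (Oᶜ ∩ I) K fun s _ s' _ => ?_).trans ?_
        · have := hγ.dist_le_mul s s'
          rwa [dist_eq_norm, Real.dist_eq] at this
        · rw [measure_mono_null inter_subset_left hOc, mul_zero]
      · intro ε hε t ht
        obtain ⟨v, hv, hd⟩ := hder t ht
        obtain ⟨U, hU, htU, hU1, hU2⟩ := local_bounds γ w hw v t hv hd (ε / 2) (by positivity)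
        refine ⟨U, hU, htU, fun B hB hBU => ?_⟩
        have hwt := hw0 t
        have hup : ν B ≤ ENNReal.ofReal (w t + ε / 2) * ρ B := by
          rw [hνB B hB, hρB B hB]
          have h1 := upper_meas γ (B ∩ I) (w t + ε / 2).toNNReal (fun s hs s' hs' => by
            rw [Real.coe_toNNReal _ (by positivity)]
            exact (hU2 s (hBU hs.1) s' (hBU hs'.1)).1)
          exact h1
        have hlo : ENNReal.ofReal (w t - ε / 2) * ρ B ≤ lam B := by
          refine hllo B hB _ fun s hs => ENNReal.ofReal_le_ofReal ?_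
          have := abs_le.1 (hU1 s (hBU hs))
          linarith
        calc ν B ≤ ENNReal.ofReal (w t + ε / 2) * ρ B := hup
          _ ≤ (ENNReal.ofReal (w t - ε / 2) + ε) * ρ B := by
              refine mul_le_mul_left ?_ _
              rw [← ENNReal.ofReal_coe_nnreal]
              refine le_trans ?_ ENNReal.ofReal_add_le
              exact ENNReal.ofReal_le_ofReal (by linarith)
          _ ≤ lam B + ε * ρ B := by
              rw [add_mul]
              exact add_le_add hlo le_rfl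
    · refine le_of_local (ρ := ρ) hO ?_ ?_
      · rw [hlB _ hO.compl]
        exact setLIntegral_measure_zero _ _ (measure_mono_null inter_subset_left hOc)
      · intro ε hε t ht
        obtain ⟨v, hv, hd⟩ := hder t ht
        obtain ⟨U, hU, htU, hU1, hU2⟩ := local_bounds γ w hw v t hv hd (ε / 2) (by positivity)
        refine ⟨U, hU, htU, fun B hB hBU => ?_⟩
        have hwt := hw0 t
        have hlo : ENNReal.ofReal (w t - ε / 2) * ρ B ≤ ν B := by
          rw [hνB B hB, hρB B hB]
          have h1 := lower_meas γ (B ∩ I) (w t - ε / 2).toNNReal (fun s hs s' hs' => by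
            rcases le_total 0 (w t - ε / 2) with h0 | h0
            · rw [Real.coe_toNNReal _ h0]
              exact (hU2 s (hBU hs.1) s' (hBU hs'.1)).2
            · rw [Real.toNNReal_of_nonpos h0]
              simp)
          exact h1
        have hup : lam B ≤ ENNReal.ofReal (w t + ε / 2) * ρ B := by
          refine hlup B hB _ fun s hs => ENNReal.ofReal_le_ofReal ?_
          have := abs_le.1 (hU1 s (hBU hs))
          linarith
        calc lam B ≤ ENNReal.ofReal (w t + ε / 2) * ρ B := hup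
          _ ≤ (ENNReal.ofReal (w t - ε / 2) + ε) * ρ B := by
              refine mul_le_mul_left ?_ _
              rw [← ENNReal.ofReal_coe_nnreal]
              refine le_trans ?_ ENNReal.ofReal_add_le
              exact ENNReal.ofReal_le_ofReal (by linarith)
          _ ≤ ν B + ε * ρ B := by
              rw [add_mul]
              exact add_le_add hlo le_rfl
  have h1 : (μH[1] : Measure ℂ).restrict (γ '' I) = Measure.map γ ν := by
    rw [← hrange, ← hge.map_comap]
    show _ = Measure.map γ (Measure.map Subtype.val _)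
    rw [Measure.map_map hγ.continuous.measurable measurable_subtype_coe]
    rfl
  rw [h1, hmain]


end Quad
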