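import Mathlib

open MeasureTheory Set Filter Topology Metric
open scoped ComplexConjugate Real

namespace Quad


namespace Job301

theorem int_exp_aux (a b : ℝ) (hab : b - a = 2 * π) (m : ℤ) :
    ∫ θ in a..b, Complex.exp ((m : ℂ) * Complex.I * θ) = if m = 0 then (2 * π : ℂ) else 0 := by
  split_ifs with h
  · subst h
    simp only [Int.cast_zero, zero_mul, Complex.exp_zero, intervalIntegral.integral_const,
      Complex.real_smul, mul_one]
    rw [hab]; push_cast; ring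
  · have hc : (m : ℂ) * Complex.I ≠ 0 := mul_ne_zero (Int.cast_ne_zero.2 h) Complex.I_ne_zero
    rw [integral_exp_mul_complex hc]
    have hb : b = a + 2 * π := by linarith
    have : Complex.exp ((m : ℂ) * Complex.I * (b : ℂ)) = Complex.exp ((m : ℂ) * Complex.I * (a : ℂ)) := by
      rw [hb]
      push_cast
      rw [show (m : ℂ) * Complex.I * (a + 2 * π) = m * Complex.I * a + m * (2 * π * Complex.I) by ring,
        Complex.exp_add, Complex.exp_int_mul_two_pi_mul_I, mul_one]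
    rw [this, sub_self, zero_div]

theorem circle_mono (j k : ℕ) :
    ∫ θ in (0 : ℝ)..(2 * π), Complex.exp (θ * Complex.I) ^ j * conj (Complex.exp (θ * Complex.I)) ^ k
      = if j = k then (2 * π : ℂ) else 0 := by
  have h : ∀ θ : ℝ, Complex.exp (θ * Complex.I) ^ j * conj (Complex.exp (θ * Complex.I)) ^ k
      = Complex.exp ((((j : ℤ) - (k : ℤ) : ℤ) : ℂ) * Complex.I * θ) := by
    intro θ
    rw [← Complex.exp_conj, ← Complex.exp_nat_mul, ← Complex.exp_nat_mul, ← Complex.exp_add]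
    congr 1
    simp only [map_mul, Complex.conj_ofReal, Complex.conj_I]
    push_cast
    ring
  simp_rw [h]
  rw [int_exp_aux 0 (2 * π) (by ring)]
  simp only [sub_eq_zero, Nat.cast_inj]

theorem ball_mono (j k : ℕ) :
    ∫ z in ball (0 : ℂ) 1, z ^ j * conj z ^ k = if j = k then (π : ℂ) / (j + 1) else 0 := by
  rw [← integral_indicator measurableSet_ball, ← Complex.integral_comp_polarCoord_symm]
  have hcongr : ∀ p ∈ polarCoord.target,
      p.1 • (ball (0 : ℂ) 1).indicator (fun z => z ^ j * conj z ^ k) (Complex.polarCoord.symm p)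
      = (if p.1 < 1 then ((p.1 ^ (j + k + 1) : ℝ) : ℂ) else 0) *
        Complex.exp ((((j : ℤ) - (k : ℤ) : ℤ) : ℂ) * Complex.I * p.2) := by
    intro p hp
    have hp0 : 0 < p.1 := hp.1
    have hs : Complex.polarCoord.symm p = (p.1 : ℂ) * Complex.exp (p.2 * Complex.I) := by
      rw [Complex.polarCoord_symm_apply, Complex.exp_mul_I]
      push_cast
      rfl
    have hn : ‖Complex.polarCoord.symm p‖ = p.1 := by
      rw [hs, norm_mul, Complex.norm_exp_ofReal_mul_I, mul_one, Complex.norm_real,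
        Real.norm_of_nonneg hp0.le]
    by_cases h1 : p.1 < 1
    · rw [if_pos h1, indicator_of_mem (by rw [mem_ball_zero_iff, hn]; exact h1), hs]
      rw [map_mul, Complex.conj_ofReal, ← Complex.exp_conj, mul_pow, mul_pow,
        ← Complex.exp_nat_mul, ← Complex.exp_nat_mul, Complex.real_smul]
      rw [show (p.1 : ℂ) * ((p.1 : ℂ) ^ j * Complex.exp (j * (p.2 * Complex.I)) *
        ((p.1 : ℂ) ^ k * Complex.exp (k * conj (p.2 * Complex.I))))
        = (p.1 : ℂ) ^ (j + k + 1) * (Complex.exp (j * (p.2 * Complex.I)) *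
          Complex.exp (k * conj (p.2 * Complex.I))) by ring, ← Complex.exp_add]
      push_cast
      congr 2
      simp only [map_mul, Complex.conj_ofReal, Complex.conj_I]
      ring
    · rw [if_neg h1, indicator_of_notMem (by rw [mem_ball_zero_iff, hn]; exact h1), smul_zero,
        zero_mul]
  have hmt : MeasurableSet (polarCoord.target) := polarCoord.open_target.measurableSet
  rw [setIntegral_congr_fun hmt hcongr, polarCoord_target, Measure.volume_eq_prod,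
    ← Measure.prod_restrict,
    integral_prod_mul (fun r : ℝ => if r < 1 then ((r ^ (j + k + 1) : ℝ) : ℂ) else 0)
      (fun θ : ℝ => Complex.exp ((((j : ℤ) - (k : ℤ) : ℤ) : ℂ) * Complex.I * θ))]
  have h1 : ∫ r in Ioi (0 : ℝ), (if r < 1 then ((r ^ (j + k + 1) : ℝ) : ℂ) else 0)
      = 1 / ((j + k + 2 : ℕ) : ℂ) := by
    have h2 : (fun r : ℝ => if r < 1 then ((r ^ (j + k + 1) : ℝ) : ℂ) else 0)
        = (Iio (1 : ℝ)).indicator (fun r : ℝ => ((r ^ (j + k + 1) : ℝ) : ℂ)) := by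
      funext r
      simp only [indicator, mem_Iio]
    rw [h2, setIntegral_indicator measurableSet_Iio, Ioi_inter_Iio, ← integral_Ioc_eq_integral_Ioo,
      ← intervalIntegral.integral_of_le zero_le_one, intervalIntegral.integral_ofReal, integral_pow]
    push_cast
    norm_num
    ring
  have h3 : ∫ θ in Ioo (-π) π, Complex.exp ((((j : ℤ) - (k : ℤ) : ℤ) : ℂ) * Complex.I * θ)
      = if j = k then (2 * π : ℂ) else 0 := by
    rw [← integral_Ioc_eq_integral_Ioo, ← intervalIntegral.integral_of_le (by linarith [Real.pi_pos]),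
      int_exp_aux (-π) π (by ring)]
    simp only [sub_eq_zero, Nat.cast_inj]
  rw [h1, h3]
  split_ifs with h
  · subst h
    have : ((j : ℂ) + 1) ≠ 0 := by exact_mod_cast Nat.succ_ne_zero j
    have h2 : ((j + j + 2 : ℕ) : ℂ) = 2 * (j + 1) := by push_cast; ring
    rw [h2]
    field_simp
  · rw [mul_zero]

theorem sq_diff_le (a b : ℂ) {t : ℝ} (ht : 0 < t) :
    |‖a‖ ^ 2 - ‖b‖ ^ 2| ≤ (1 + 1 / t) * ‖b - a‖ ^ 2 + t * ‖b‖ ^ 2 := by
  have h1 : |‖a‖ - ‖b‖| ≤ ‖b - a‖ := by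
    rw [norm_sub_rev]; exact abs_norm_sub_norm_le a b
  have h2 : |‖a‖ ^ 2 - ‖b‖ ^ 2| ≤ ‖b - a‖ ^ 2 + 2 * (‖b‖ * ‖b - a‖) := by
    have h3 : ‖a‖ ^ 2 - ‖b‖ ^ 2 = (‖a‖ - ‖b‖) * (‖a‖ + ‖b‖) := by ring
    rw [h3, abs_mul, abs_of_nonneg (add_nonneg (norm_nonneg a) (norm_nonneg b))]
    have h4 : ‖a‖ ≤ ‖b‖ + ‖b - a‖ := by
      have := abs_le.1 h1; linarith [this.2]
    calc |‖a‖ - ‖b‖| * (‖a‖ + ‖b‖) ≤ ‖b - a‖ * (‖a‖ + ‖b‖) :=
          mul_le_mul_of_nonneg_right h1 (by positivity)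
      _ ≤ ‖b - a‖ * ((‖b‖ + ‖b - a‖) + ‖b‖) := by gcongr
      _ = ‖b - a‖ ^ 2 + 2 * (‖b‖ * ‖b - a‖) := by ring
  have h5 : 2 * (‖b‖ * ‖b - a‖) ≤ t * ‖b‖ ^ 2 + 1 / t * ‖b - a‖ ^ 2 := by
    have h6 : 0 ≤ (1 / t) * (t * ‖b‖ - ‖b - a‖) ^ 2 := by positivity
    have h7 : (1 / t) * (t * ‖b‖ - ‖b - a‖) ^ 2
        = t * ‖b‖ ^ 2 - 2 * (‖b‖ * ‖b - a‖) + 1 / t * ‖b - a‖ ^ 2 := by
      field_simp
      ring
    linarith
  linarith

theorem approx {α : Type*} [MeasurableSpace α] {μ : Measure α} (S : ℕ → α → ℂ) (f : α → ℂ)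
    (hS : ∀ K, AEStronglyMeasurable (S K) μ)
    (hI : ∀ K, Integrable (fun x => ‖S K x‖ ^ 2) μ)
    (hI2 : ∀ K J, Integrable (fun x => ‖S J x - S K x‖ ^ 2) μ)
    (hlim : ∀ᵐ x ∂μ, Tendsto (fun K => S K x) atTop (𝓝 (f x)))
    (ε : ℕ → ℝ) (hε : Tendsto ε atTop (𝓝 0))
    (hSε : ∀ K J, K ≤ J → ∫ x, ‖S J x - S K x‖ ^ 2 ∂μ ≤ ε K) :
    Integrable (fun x => ‖f x‖ ^ 2) μ ∧
    ∀ Ψ : α → ℂ, AEStronglyMeasurable Ψ μ → (∀ᵐ x ∂μ, ‖Ψ x‖ ≤ 1) →
      Tendsto (fun K => ∫ x, ((‖S K x‖ ^ 2 : ℝ) : ℂ) * Ψ x ∂μ) atTop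
        (𝓝 (∫ x, ((‖f x‖ ^ 2 : ℝ) : ℂ) * Ψ x ∂μ)) := by
  have hf : AEStronglyMeasurable f μ := aestronglyMeasurable_of_tendsto_ae atTop hS hlim
  have hmeas : ∀ K, AEStronglyMeasurable (fun x => ‖f x - S K x‖ ^ 2) μ := fun K =>
    ((hf.sub (hS K)).norm.pow 2)
  have hfat : ∀ K, ∫⁻ x, ENNReal.ofReal (‖f x - S K x‖ ^ 2) ∂μ ≤ ENNReal.ofReal (ε K) := by
    intro K
    have h1 : ∀ᵐ x ∂μ, ENNReal.ofReal (‖f x - S K x‖ ^ 2)
        = liminf (fun J => ENNReal.ofReal (‖S J x - S K x‖ ^ 2)) atTop := by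
      filter_upwards [hlim] with x hx
      have : Tendsto (fun J => ENNReal.ofReal (‖S J x - S K x‖ ^ 2)) atTop
          (𝓝 (ENNReal.ofReal (‖f x - S K x‖ ^ 2))) :=
        ENNReal.tendsto_ofReal (((hx.sub_const _).norm).pow 2)
      exact this.liminf_eq.symm
    rw [lintegral_congr_ae h1]
    refine (lintegral_liminf_le' fun J =>
      ((((hS J).sub (hS K)).norm.pow 2).aemeasurable.ennreal_ofReal)).trans ?_
    refine liminf_le_of_frequently_le' ?_
    refine Eventually.frequently ?_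
    filter_upwards [eventually_ge_atTop K] with J hJ
    change ∫⁻ a, ENNReal.ofReal (‖S J a - S K a‖ ^ 2) ∂μ ≤ _
    rw [← ofReal_integral_eq_lintegral_ofReal (hI2 K J) (ae_of_all _ fun x => by positivity)]
    exact ENNReal.ofReal_le_ofReal (hSε K J hJ)
  have hint : ∀ K, Integrable (fun x => ‖f x - S K x‖ ^ 2) μ := by
    intro K
    refine ⟨hmeas K, ?_⟩
    rw [hasFiniteIntegral_iff_ofReal (ae_of_all _ fun x => by positivity)]
    exact (hfat K).trans_lt ENNReal.ofReal_lt_top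
  have hεn : ∀ K, 0 ≤ ε K := fun K =>
    (integral_nonneg fun x => by positivity).trans (hSε K K le_rfl)
  have hD : ∀ K, ∫ x, ‖f x - S K x‖ ^ 2 ∂μ ≤ ε K := by
    intro K
    rw [integral_eq_lintegral_of_nonneg_ae (ae_of_all _ fun x => by positivity) (hmeas K)]
    exact ENNReal.toReal_le_of_le_ofReal (hεn K) (hfat K)
  have hfI : Integrable (fun x => ‖f x‖ ^ 2) μ := by
    refine Integrable.mono' (((hint 0).const_mul 2).add ((hI 0).const_mul 2)) (hf.norm.pow 2) ?_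
    refine ae_of_all _ fun x => ?_
    rw [Real.norm_of_nonneg (by positivity)]
    have h1 : ‖f x‖ ≤ ‖f x - S 0 x‖ + ‖S 0 x‖ := by
      simpa using norm_add_le (f x - S 0 x) (S 0 x)
    simp only [Pi.add_apply]
    nlinarith [sq_nonneg (‖f x - S 0 x‖ - ‖S 0 x‖), norm_nonneg (f x), norm_nonneg (f x - S 0 x),
      norm_nonneg (S 0 x)]
  refine ⟨hfI, fun Ψ hΨ hΨ1 => ?_⟩
  set M := ∫ x, ‖f x‖ ^ 2 ∂μ with hM
  have hM0 : 0 ≤ M := integral_nonneg fun x => by positivity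
  have hprodI : ∀ g : α → ℂ, AEStronglyMeasurable g μ → Integrable (fun x => ‖g x‖ ^ 2) μ →
      Integrable (fun x => ((‖g x‖ ^ 2 : ℝ) : ℂ) * Ψ x) μ := by
    intro g hg hgI
    refine Integrable.mono' hgI ?_ ?_
    · exact (Complex.continuous_ofReal.comp_aestronglyMeasurable (hg.norm.pow 2)).mul hΨ
    · filter_upwards [hΨ1] with x hx
      rw [norm_mul, Complex.norm_real, Real.norm_of_nonneg (by positivity)]
      exact mul_le_of_le_one_right (by positivity) hx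
  have key : ∀ K, ∀ t : ℝ, 0 < t →
      ‖(∫ x, ((‖S K x‖ ^ 2 : ℝ) : ℂ) * Ψ x ∂μ) - ∫ x, ((‖f x‖ ^ 2 : ℝ) : ℂ) * Ψ x ∂μ‖
        ≤ (1 + 1 / t) * ε K + t * M := by
    intro K t ht
    rw [← integral_sub (hprodI _ (hS K) (hI K)) (hprodI _ hf hfI)]
    calc ‖∫ x, (((‖S K x‖ ^ 2 : ℝ) : ℂ) * Ψ x - ((‖f x‖ ^ 2 : ℝ) : ℂ) * Ψ x) ∂μ‖
        ≤ ∫ x, ((1 + 1 / t) * ‖f x - S K x‖ ^ 2 + t * ‖f x‖ ^ 2) ∂μ := by
          refine norm_integral_le_of_norm_le
            (((hint K).const_mul _).add (hfI.const_mul _)) ?_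
          filter_upwards [hΨ1] with x hx
          rw [← sub_mul, norm_mul, ← Complex.ofReal_sub, Complex.norm_real, Real.norm_eq_abs]
          exact (mul_le_of_le_one_right (abs_nonneg _) hx).trans (sq_diff_le _ _ ht)
      _ = (1 + 1 / t) * ∫ x, ‖f x - S K x‖ ^ 2 ∂μ + t * M := by
          rw [integral_add ((hint K).const_mul _) (hfI.const_mul _), integral_const_mul,
            integral_const_mul]
      _ ≤ _ := by
          have : 0 ≤ 1 + 1 / t := by positivity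
          nlinarith [mul_le_mul_of_nonneg_left (hD K) this]
  rw [Metric.tendsto_atTop]
  intro δ hδ
  set t := δ / (2 * (M + 1)) with ht
  have htpos : 0 < t := by positivity
  have h1 : Tendsto (fun K => (1 + 1 / t) * ε K) atTop (𝓝 0) := by
    simpa using hε.const_mul (1 + 1 / t)
  obtain ⟨N, hN⟩ := (Metric.tendsto_atTop.1 h1) (δ / 2) (by positivity)
  refine ⟨N, fun K hK => ?_⟩
  rw [dist_eq_norm]
  refine (key K t htpos).trans_lt ?_
  have h2 := hN K hK
  rw [Real.dist_eq, sub_zero] at h2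
  have h3 := (abs_lt.1 h2).2
  have h4 : t * M < δ / 2 := by
    rw [ht, div_mul_eq_mul_div, div_lt_div_iff₀ (by positivity) (by positivity)]
    nlinarith
  linarith


theorem moment {α : Type*} [MeasurableSpace α] (μ : Measure α) [IsFiniteMeasure μ] (z : α → ℂ)
    (hzm : Measurable z) (hz : ∀ᵐ x ∂μ, ‖z x‖ ≤ 1) (w : ℕ → ℝ) (W : ℝ) (hw0 : ∀ n, 0 ≤ w n)
    (hwW : ∀ n, w n ≤ W)
    (hw : ∀ j k : ℕ, ∫ x, z x ^ j * conj (z x) ^ k ∂μ = if j = k then (w k : ℂ) else 0)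
    (a : ℕ → ℂ) (ha : Summable fun n => ‖a n‖ ^ 2)
    (hconv : ∀ᵐ x ∂μ, Summable fun n => a n * z x ^ n) :
    Integrable (fun x => ‖∑' n, a n * z x ^ n‖ ^ 2) μ ∧
    ∀ N : ℕ, ∫ x, ((‖∑' n, a n * z x ^ n‖ ^ 2 : ℝ) : ℂ) * z x ^ N ∂μ
      = ∑' k, a k * conj (a (k + N)) * (w (k + N) : ℂ) := by
  -- integrability of monomials
  have hmI : ∀ j k : ℕ, Integrable (fun x => z x ^ j * conj (z x) ^ k) μ := by
    intro j k
    refine Integrable.of_bound (C := 1) ?_ ?_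
    · exact ((hzm.pow_const j).mul ((Complex.continuous_conj.measurable.comp hzm).pow_const k)).aestronglyMeasurable
    · filter_upwards [hz] with x hx
      rw [norm_mul, norm_pow, norm_pow, RCLike.norm_conj]
      exact mul_le_one₀ (pow_le_one₀ (norm_nonneg _) hx) (by positivity)
        (pow_le_one₀ (norm_nonneg _) hx)
  have hexp : ∀ (s : Finset ℕ) (N : ℕ) (x : α),
      ((‖∑ n ∈ s, a n * z x ^ n‖ ^ 2 : ℝ) : ℂ) * z x ^ N
        = ∑ j ∈ s, ∑ k ∈ s, (a j * conj (a k)) * (z x ^ (j + N) * conj (z x) ^ k) := by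
    intro s N x
    have h1 : ((‖∑ n ∈ s, a n * z x ^ n‖ ^ 2 : ℝ) : ℂ)
        = (∑ n ∈ s, a n * z x ^ n) * conj (∑ n ∈ s, a n * z x ^ n) := by
      rw [Complex.mul_conj, Complex.normSq_eq_norm_sq]
    rw [h1, map_sum, Finset.sum_mul_sum, Finset.sum_mul]
    refine Finset.sum_congr rfl fun j _ => ?_
    rw [Finset.sum_mul]
    refine Finset.sum_congr rfl fun k _ => ?_
    rw [map_mul, map_pow, pow_add]
    ring
  have hsum : ∀ (s : Finset ℕ) (N : ℕ), ∫ x, ((‖∑ n ∈ s, a n * z x ^ n‖ ^ 2 : ℝ) : ℂ) * z x ^ N ∂μ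
      = ∑ j ∈ s, ∑ k ∈ s, (a j * conj (a k)) * (if j + N = k then (w k : ℂ) else 0) := by
    intro s N
    simp_rw [hexp s N]
    rw [integral_finsetSum _ fun j _ => integrable_finsetSum _ fun k _ =>
      (hmI (j + N) k).const_mul _]
    refine Finset.sum_congr rfl fun j _ => ?_
    rw [integral_finsetSum _ fun k _ => (hmI (j + N) k).const_mul _]
    refine Finset.sum_congr rfl fun k _ => ?_
    rw [integral_const_mul, hw]
  have hpI : ∀ s : Finset ℕ, Integrable (fun x => ‖∑ n ∈ s, a n * z x ^ n‖ ^ 2) μ := by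
    intro s
    have h1 : Integrable (fun x => ((‖∑ n ∈ s, a n * z x ^ n‖ ^ 2 : ℝ) : ℂ)) μ := by
      have h2 : (fun x => ((‖∑ n ∈ s, a n * z x ^ n‖ ^ 2 : ℝ) : ℂ))
          = fun x => ∑ j ∈ s, ∑ k ∈ s, (a j * conj (a k)) * (z x ^ (j + 0) * conj (z x) ^ k) := by
        funext x
        rw [← hexp s 0 x, pow_zero, mul_one]
      rw [h2]
      exact integrable_finsetSum _ fun j _ => integrable_finsetSum _ fun k _ =>
        (hmI (j + 0) k).const_mul _
    refine h1.re.congr (ae_of_all _ fun x => ?_)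
    exact Complex.ofReal_re _
  have hsq : ∀ s : Finset ℕ, ∫ x, ‖∑ n ∈ s, a n * z x ^ n‖ ^ 2 ∂μ = ∑ n ∈ s, ‖a n‖ ^ 2 * w n := by
    intro s
    have h1 := hsum s 0
    simp only [pow_zero, mul_one, add_zero] at h1
    rw [integral_complex_ofReal] at h1
    have h2 : ∑ j ∈ s, ∑ k ∈ s, (a j * conj (a k)) * (if j = k then (w k : ℂ) else 0)
        = ((∑ n ∈ s, ‖a n‖ ^ 2 * w n : ℝ) : ℂ) := by
      push_cast
      refine Finset.sum_congr rfl fun j hj => ?_
      rw [Finset.sum_eq_single_of_mem j hj]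
      · rw [if_pos rfl, Complex.mul_conj, Complex.normSq_eq_norm_sq]
        push_cast
        rfl
      · intro k _ hk
        rw [if_neg (Ne.symm hk), mul_zero]
    rw [h2] at h1
    exact_mod_cast h1
  have hW : 0 ≤ W := (hw0 0).trans (hwW 0)
  have hdiff : ∀ K J (x : α), K ≤ J → (∑ n ∈ Finset.range J, a n * z x ^ n)
      - (∑ n ∈ Finset.range K, a n * z x ^ n) = ∑ n ∈ Finset.Ico K J, a n * z x ^ n := by
    intro K J x h
    rw [Finset.sum_Ico_eq_sub _ h]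
  let tail : ℕ → ℝ := fun K => W * (∑' n, ‖a (n + K)‖ ^ 2)
  have htail : Tendsto tail atTop (𝓝 0) := by
    have := tendsto_sum_nat_add (fun n => ‖a n‖ ^ 2)
    simpa [tail] using this.const_mul W
  have htail_le : ∀ K J, K ≤ J → ∑ n ∈ Finset.Ico K J, ‖a n‖ ^ 2 * w n ≤ tail K := by
    intro K J h
    calc ∑ n ∈ Finset.Ico K J, ‖a n‖ ^ 2 * w n ≤ ∑ n ∈ Finset.Ico K J, ‖a n‖ ^ 2 * W :=
          Finset.sum_le_sum fun n _ => mul_le_mul_of_nonneg_left (hwW n) (by positivity)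
      _ = W * ∑ n ∈ Finset.Ico K J, ‖a n‖ ^ 2 := by rw [← Finset.sum_mul, mul_comm]
      _ ≤ tail K := by
          refine mul_le_mul_of_nonneg_left ?_ hW
          rw [Finset.sum_Ico_eq_sum_range]
          have hs : Summable fun n => ‖a (n + K)‖ ^ 2 := (summable_nat_add_iff K).2 ha
          refine le_trans (le_of_eq ?_) (hs.sum_le_tsum (Finset.range (J - K)) fun _ _ => by positivity)
          exact Finset.sum_congr rfl fun n _ => by rw [add_comm]
  have happ := approx (μ := μ) (fun K x => ∑ n ∈ Finset.range K, a n * z x ^ n)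
    (fun x => ∑' n, a n * z x ^ n)
    (fun K => (Finset.measurable_sum _ fun n _ => (hzm.pow_const n).const_mul _).aestronglyMeasurable)
    (fun K => hpI _)
    (fun K J => by
      rcases le_total K J with h | h
      · simp_rw [hdiff K J _ h]
        exact hpI _
      · simp_rw [norm_sub_rev]
        simp_rw [hdiff J K _ h]
        exact hpI _)
    (by filter_upwards [hconv] with x hx; exact hx.hasSum.tendsto_sum_nat)
    tail htail
    (fun K J h => by
      simp_rw [hdiff K J _ h]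
      rw [hsq]
      exact htail_le K J h)
  refine ⟨happ.1, fun N => ?_⟩
  have hlim1 := happ.2 (fun x => z x ^ N) (hzm.pow_const N).aestronglyMeasurable
    (by filter_upwards [hz] with x hx; rw [norm_pow]; exact pow_le_one₀ (norm_nonneg _) hx)
  have hval : ∀ K, ∫ x, ((‖∑ n ∈ Finset.range K, a n * z x ^ n‖ ^ 2 : ℝ) : ℂ) * z x ^ N ∂μ
      = ∑ j ∈ Finset.range (K - N), a j * conj (a (j + N)) * (w (j + N) : ℂ) := by
    intro K
    rw [hsum]
    have h1 : ∀ j ∈ Finset.range K, ∑ k ∈ Finset.range K, (a j * conj (a k)) *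
        (if j + N = k then (w k : ℂ) else 0)
        = if j ∈ Finset.range (K - N) then a j * conj (a (j + N)) * (w (j + N) : ℂ) else 0 := by
      intro j _
      by_cases h : j ∈ Finset.range (K - N)
      · rw [if_pos h]
        have h2 : j + N ∈ Finset.range K := by
          rw [Finset.mem_range] at h ⊢; omega
        rw [Finset.sum_eq_single_of_mem _ h2]
        · rw [if_pos rfl]
        · intro k _ hk
          rw [if_neg (Ne.symm hk), mul_zero]
      · rw [if_neg h]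
        refine Finset.sum_eq_zero fun k hk => ?_
        rw [if_neg, mul_zero]
        rw [Finset.mem_range] at h hk
        omega
    rw [Finset.sum_congr rfl h1, ← Finset.sum_filter]
    refine Finset.sum_congr ?_ fun _ _ => rfl
    ext j
    simp only [Finset.mem_filter, Finset.mem_range]
    omega
  have hsumm : Summable fun k => a k * conj (a (k + N)) * (w (k + N) : ℂ) := by
    have h1 : Summable fun k => (‖a k‖ ^ 2 + ‖a (k + N)‖ ^ 2) * W :=
      (ha.add ((summable_nat_add_iff N).2 ha)).mul_right W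
    refine Summable.of_norm_bounded h1 fun k => ?_
    rw [norm_mul, norm_mul, RCLike.norm_conj, Complex.norm_real, Real.norm_of_nonneg (hw0 _)]
    have h2 : ‖a k‖ * ‖a (k + N)‖ ≤ ‖a k‖ ^ 2 + ‖a (k + N)‖ ^ 2 := by
      nlinarith [sq_nonneg (‖a k‖ - ‖a (k + N)‖), sq_nonneg (‖a k‖ + ‖a (k + N)‖)]
    exact mul_le_mul h2 (hwW _) (hw0 _) (by positivity)
  have hlim2 : Tendsto (fun K => ∑ j ∈ Finset.range (K - N), a j * conj (a (j + N)) * (w (j + N) : ℂ))
      atTop (𝓝 (∑' k, a k * conj (a (k + N)) * (w (k + N) : ℂ))) :=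
    hsumm.hasSum.tendsto_sum_nat.comp (tendsto_sub_atTop_nat N)
  simp_rw [hval] at hlim1
  exact tendsto_nhds_unique hlim1 hlim2

theorem summ_sq_of_summ (G : ℕ → ℂ) (hG : Summable (fun n => ‖G n‖)) :
    Summable (fun n => ‖G n‖ ^ 2) := by
  have h0 : Tendsto (fun n => ‖G n‖) atTop (𝓝 0) := hG.tendsto_atTop_zero
  have h1 : ∀ᶠ n in atTop, ‖G n‖ < 1 := h0.eventually (gt_mem_nhds one_pos)
  refine Summable.of_norm_bounded_eventually_nat hG ?_
  filter_upwards [h1] with n hn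
  rw [Real.norm_of_nonneg (by positivity)]
  nlinarith [norm_nonneg (G n)]

theorem ball_id (φ : ℕ → ℂ) (hφ : Summable (fun n => ‖φ n‖ ^ 2)) :
    Integrable (fun z : ℂ => ‖∑' n, φ n * z ^ n‖ ^ 2) (volume.restrict (ball (0 : ℂ) 1)) ∧
    ∀ N : ℕ, ∫ z in ball (0 : ℂ) 1, ((‖∑' n, φ n * z ^ n‖ ^ 2 : ℝ) : ℂ) * z ^ N
      = ∑' k, φ k * conj (φ (k + N)) * ((π / (((k + N : ℕ) : ℝ) + 1) : ℝ) : ℂ) := by
  have : IsFiniteMeasure (volume.restrict (ball (0 : ℂ) 1)) :=
    ⟨by rw [Measure.restrict_apply_univ]; exact measure_ball_lt_top⟩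
  refine moment (volume.restrict (ball (0 : ℂ) 1)) (fun z => z) measurable_id
    (ae_restrict_of_forall_mem measurableSet_ball fun z hz => ?_)
    (fun n => π / ((n : ℝ) + 1)) π (fun n => by positivity) (fun n => ?_) (fun j k => ?_) φ hφ
    (ae_restrict_of_forall_mem measurableSet_ball fun z hz => ?_)
  · exact (mem_ball_zero_iff.1 hz).le
  · exact div_le_self Real.pi_pos.le (by linarith [(Nat.cast_nonneg n : (0 : ℝ) ≤ n)])
  · rw [ball_mono]
    split_ifs with h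
    · subst h; push_cast; rfl
    · rfl
  · have hz1 : ‖z‖ < 1 := mem_ball_zero_iff.1 hz
    have hgeo : Summable fun n : ℕ => (‖z‖ ^ 2) ^ n :=
      summable_geometric_of_lt_one (by positivity) (by nlinarith [norm_nonneg z])
    refine Summable.of_norm_bounded (hφ.add hgeo) fun n => ?_
    rw [norm_mul, norm_pow]
    have h2 : (‖z‖ ^ 2) ^ n = (‖z‖ ^ n) ^ 2 := by rw [← pow_mul, ← pow_mul, mul_comm]
    rw [h2]
    nlinarith [sq_nonneg (‖φ n‖ - ‖z‖ ^ n), sq_nonneg (‖φ n‖ + ‖z‖ ^ n)]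

theorem circle_id (G : ℕ → ℂ) (hG : Summable (fun n => ‖G n‖)) :
    Integrable (fun θ : ℝ => ‖∑' n, G n * Complex.exp (θ * Complex.I) ^ n‖ ^ 2)
      (volume.restrict (Ioc 0 (2 * π))) ∧
    ∀ N : ℕ, ∫ θ in (0 : ℝ)..(2 * π), ((‖∑' n, G n * Complex.exp (θ * Complex.I) ^ n‖ ^ 2 : ℝ) : ℂ)
        * Complex.exp (θ * Complex.I) ^ N
      = ∑' k, G k * conj (G (k + N)) * ((2 * π : ℝ) : ℂ) := by
  have h2π : (0 : ℝ) ≤ 2 * π := by positivity
  have hn : ∀ θ : ℝ, ‖Complex.exp (θ * Complex.I)‖ = 1 := fun θ => Complex.norm_exp_ofReal_mul_I θ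
  simp_rw [intervalIntegral.integral_of_le h2π]
  refine moment (volume.restrict (Ioc 0 (2 * π))) (fun θ : ℝ => Complex.exp (θ * Complex.I))
    (by fun_prop) (ae_of_all _ fun θ => (hn θ).le)
    (fun n => 2 * π) (2 * π) (fun n => by positivity) (fun n => le_rfl) (fun j k => ?_) G
    (summ_sq_of_summ G hG) (ae_of_all _ fun θ => ?_)
  · rw [← intervalIntegral.integral_of_le h2π, circle_mono]
    split_ifs <;> push_cast <;> rfl
  · refine Summable.of_norm_bounded hG fun n => ?_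
    rw [norm_mul, norm_pow, hn, one_pow, mul_one]

/-- polynomials approximate the disc algebra -/
theorem poly_approx (Φ : ℂ → ℂ) (hΦc : ContinuousOn Φ (closedBall 0 1))
    (hΦd : DifferentiableOn ℂ Φ (ball 0 1)) {ε : ℝ} (hε : 0 < ε) :
    ∃ (K : ℕ) (p : ℕ → ℂ), ∀ z ∈ closedBall (0 : ℂ) 1, ‖Φ z - ∑ n ∈ Finset.range K, p n * z ^ n‖ ≤ ε := by
  have huc : UniformContinuousOn Φ (closedBall 0 1) :=
    (isCompact_closedBall (0 : ℂ) 1).uniformContinuousOn_of_continuous hΦc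
  obtain ⟨δ, hδ, hδ2⟩ := Metric.uniformContinuousOn_iff.1 huc (ε / 2) (by positivity)
  set d : ℝ := min (δ / 2) (1 / 2) with hd
  have hd0 : 0 < d := lt_min (by positivity) (by norm_num)
  have hd1 : d ≤ 1 / 2 := min_le_right _ _
  have hdδ : d < δ := (min_le_left _ _).trans_lt (by linarith)
  let R : NNReal := ⟨1 - d / 4, by linarith⟩
  let r' : NNReal := ⟨1 - d / 2, by linarith⟩
  have hR0 : 0 < R := by
    rw [← NNReal.coe_pos]; change (0 : ℝ) < 1 - d / 4; linarith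
  have hdiff : DifferentiableOn ℂ Φ (closedBall 0 R) := by
    refine hΦd.mono (closedBall_subset_ball ?_)
    change 1 - d / 4 < 1; linarith
  have hps := hdiff.hasFPowerSeriesOnBall hR0
  have hr'R : (r' : ENNReal) < (R : ENNReal) := by
    rw [ENNReal.coe_lt_coe, ← NNReal.coe_lt_coe]
    change 1 - d / 2 < 1 - d / 4; linarith
  have htu := hps.tendstoUniformlyOn hr'R
  rw [Metric.tendstoUniformlyOn_iff] at htu
  obtain ⟨K, hK⟩ := (htu (ε / 2) (by positivity)).exists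
  refine ⟨K, fun n => ((1 - d : ℝ) : ℂ) ^ n * (cauchyPowerSeries Φ 0 R).coeff n, fun z hz => ?_⟩
  have hz1 : ‖z‖ ≤ 1 := mem_closedBall_zero_iff.1 hz
  set y : ℂ := ((1 - d : ℝ) : ℂ) * z with hy
  have hyn : ‖y‖ ≤ 1 - d := by
    rw [hy, norm_mul, Complex.norm_real, Real.norm_of_nonneg (by linarith)]
    exact mul_le_of_le_one_right (by linarith) hz1
  have hyb : y ∈ ball (0 : ℂ) r' := by
    rw [mem_ball_zero_iff]
    change ‖y‖ < 1 - d / 2
    linarith
  have h1 := hK y hyb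
  rw [dist_eq_norm, zero_add] at h1
  have h2 : (cauchyPowerSeries Φ 0 R).partialSum K y
      = ∑ n ∈ Finset.range K, ((1 - d : ℝ) : ℂ) ^ n * (cauchyPowerSeries Φ 0 R).coeff n * z ^ n := by
    rw [FormalMultilinearSeries.partialSum]
    refine Finset.sum_congr rfl fun n _ => ?_
    rw [FormalMultilinearSeries.apply_eq_pow_smul_coeff, smul_eq_mul, hy, mul_pow]
    ring
  rw [h2] at h1
  have h3 : dist (Φ z) (Φ y) < ε / 2 := by
    refine hδ2 z hz y ?_ ?_
    · rw [mem_closedBall_zero_iff]; linarith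
    · rw [dist_eq_norm, hy]
      have : z - ((1 - d : ℝ) : ℂ) * z = (d : ℂ) * z := by push_cast; ring
      rw [this, norm_mul, Complex.norm_real, Real.norm_of_nonneg hd0.le]
      nlinarith
  rw [dist_eq_norm] at h3
  calc _ = ‖(Φ z - Φ y) + (Φ y - ∑ n ∈ Finset.range K,
        ((1 - d : ℝ) : ℂ) ^ n * (cauchyPowerSeries Φ 0 R).coeff n * z ^ n)‖ := by
        congr 1; ring
    _ ≤ _ := (norm_add_le _ _).trans (by linarith)

end Job301

open Job301 in
/-- Area/circle identity for the disc algebra. -/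
theorem area_circle (G φ : ℕ → ℂ) (c : ℝ)
    (hG : Summable (fun n => ‖G n‖))
    (hφ : Summable (fun n => ‖φ n‖ ^ 2))
    (hid : ∀ n : ℕ, (2 * c : ℂ) * ∑' k, G k * conj (G (k + n))
        = ∑' k, φ k * conj (φ (k + n)) / ((k : ℂ) + n + 1))
    (Φ : ℂ → ℂ) (hΦc : ContinuousOn Φ (closedBall 0 1))
    (hΦd : DifferentiableOn ℂ Φ (ball 0 1)) :
    ∫ z in ball (0 : ℂ) 1, ((‖∑' n, φ n * z ^ n‖ ^ 2 : ℝ) : ℂ) * Φ z
      = (c : ℂ) * ∫ θ in (0 : ℝ)..(2 * π),
          ((‖∑' n, G n * Complex.exp (θ * Complex.I) ^ n‖ ^ 2 : ℝ) : ℂ)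
            * Φ (Complex.exp (θ * Complex.I)) := by
  have h2π : (0 : ℝ) ≤ 2 * π := by positivity
  obtain ⟨hbI, hbM⟩ := ball_id φ hφ
  obtain ⟨hcI, hcM⟩ := circle_id G hG
  simp_rw [intervalIntegral.integral_of_le h2π] at hcM ⊢
  have hmono : ∀ N : ℕ, ∫ z in ball (0 : ℂ) 1, ((‖∑' n, φ n * z ^ n‖ ^ 2 : ℝ) : ℂ) * z ^ N
      = (c : ℂ) * ∫ θ in Ioc (0 : ℝ) (2 * π),
        ((‖∑' n, G n * Complex.exp (θ * Complex.I) ^ n‖ ^ 2 : ℝ) : ℂ)
          * Complex.exp (θ * Complex.I) ^ N := by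
    intro N
    rw [hbM, hcM, tsum_mul_right]
    have h1 : ∀ k, φ k * conj (φ (k + N)) * ((π / (((k + N : ℕ) : ℝ) + 1) : ℝ) : ℂ)
        = φ k * conj (φ (k + N)) / ((k : ℂ) + N + 1) * (π : ℂ) := by
      intro k
      push_cast
      ring
    simp_rw [h1]
    rw [tsum_mul_right, ← hid]
    push_cast
    ring
  set F : ℂ → ℝ := fun z => ‖∑' n, φ n * z ^ n‖ ^ 2 with hF
  set H : ℝ → ℝ := fun θ => ‖∑' n, G n * Complex.exp (θ * Complex.I) ^ n‖ ^ 2 with hH
  have hFI : Integrable (fun z => (F z : ℂ)) (volume.restrict (ball (0 : ℂ) 1)) := hbI.ofReal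
  have hHI : Integrable (fun θ => (H θ : ℂ)) (volume.restrict (Ioc 0 (2 * π))) := hcI.ofReal
  have hn : ∀ θ : ℝ, ‖Complex.exp (θ * Complex.I)‖ = 1 := fun θ => Complex.norm_exp_ofReal_mul_I θ
  -- general bounds
  have hB : ∀ (Ψ : ℂ → ℂ) (C : ℝ), 0 ≤ C → ContinuousOn Ψ (closedBall 0 1) →
      (∀ z ∈ closedBall (0 : ℂ) 1, ‖Ψ z‖ ≤ C) →
      Integrable (fun z => (F z : ℂ) * Ψ z) (volume.restrict (ball (0 : ℂ) 1)) ∧
      ‖∫ z in ball (0 : ℂ) 1, (F z : ℂ) * Ψ z‖ ≤ C * ∫ z in ball (0 : ℂ) 1, F z := by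
    intro Ψ C hC hΨ hΨC
    have hb : ∀ᵐ z ∂(volume.restrict (ball (0 : ℂ) 1)), ‖(F z : ℂ) * Ψ z‖ ≤ C * F z := by
      refine ae_restrict_of_forall_mem measurableSet_ball fun z hz => ?_
      rw [norm_mul, Complex.norm_real, Real.norm_of_nonneg (by positivity), mul_comm]
      exact mul_le_mul_of_nonneg_right (hΨC z (ball_subset_closedBall hz)) (by positivity)
    refine ⟨Integrable.mono' (hbI.const_mul C) ?_ hb, ?_⟩
    · exact hFI.aestronglyMeasurable.mul
        ((hΨ.mono ball_subset_closedBall).aestronglyMeasurable measurableSet_ball)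
    · refine (norm_integral_le_of_norm_le (hbI.const_mul C) hb).trans ?_
      rw [integral_const_mul]
  have hC : ∀ (Ψ : ℂ → ℂ) (C : ℝ), 0 ≤ C → ContinuousOn Ψ (closedBall 0 1) →
      (∀ z ∈ closedBall (0 : ℂ) 1, ‖Ψ z‖ ≤ C) →
      Integrable (fun θ : ℝ => (H θ : ℂ) * Ψ (Complex.exp (θ * Complex.I))) (volume.restrict (Ioc 0 (2 * π))) ∧
      ‖∫ θ in Ioc (0 : ℝ) (2 * π), (H θ : ℂ) * Ψ (Complex.exp (θ * Complex.I))‖
        ≤ C * ∫ θ in Ioc (0 : ℝ) (2 * π), H θ := by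
    intro Ψ C hC hΨ hΨC
    have hb : ∀ᵐ θ ∂(volume.restrict (Ioc 0 (2 * π))),
        ‖(H θ : ℂ) * Ψ (Complex.exp (θ * Complex.I))‖ ≤ C * H θ := by
      refine ae_of_all _ fun θ => ?_
      rw [norm_mul, Complex.norm_real, Real.norm_of_nonneg (by positivity), mul_comm]
      exact mul_le_mul_of_nonneg_right (hΨC _ (by rw [mem_closedBall_zero_iff, hn])) (by positivity)
    refine ⟨Integrable.mono' (hcI.const_mul C) ?_ hb, ?_⟩
    · refine hHI.aestronglyMeasurable.mul ?_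
      refine Continuous.aestronglyMeasurable ?_
      exact hΨ.comp_continuous (by fun_prop) fun θ => by rw [mem_closedBall_zero_iff, hn]
    · refine (norm_integral_le_of_norm_le (hcI.const_mul C) hb).trans ?_
      rw [integral_const_mul]
  -- bound for Φ
  obtain ⟨CΦ, hCΦ⟩ := (isCompact_closedBall (0 : ℂ) 1).exists_bound_of_continuousOn hΦc
  have hCΦ0 : 0 ≤ CΦ := (norm_nonneg _).trans (hCΦ 0 (by simp))
  have hΦB := (hB Φ CΦ hCΦ0 hΦc hCΦ).1
  have hΦC := (hC Φ CΦ hCΦ0 hΦc hCΦ).1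
  -- polynomial identity
  have hpoly : ∀ (K : ℕ) (p : ℕ → ℂ),
      ∫ z in ball (0 : ℂ) 1, (F z : ℂ) * (∑ n ∈ Finset.range K, p n * z ^ n)
      = (c : ℂ) * ∫ θ in Ioc (0 : ℝ) (2 * π),
        (H θ : ℂ) * (∑ n ∈ Finset.range K, p n * Complex.exp (θ * Complex.I) ^ n) := by
    intro K p
    have hI1 : ∀ n, Integrable (fun z => (F z : ℂ) * z ^ n) (volume.restrict (ball (0 : ℂ) 1)) := by
      intro n
      exact (hB (fun z => z ^ n) 1 zero_le_one (by fun_prop) fun z hz => by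
        rw [norm_pow]; exact pow_le_one₀ (norm_nonneg _) (mem_closedBall_zero_iff.1 hz)).1
    have hI2 : ∀ n, Integrable (fun θ : ℝ => (H θ : ℂ) * Complex.exp (θ * Complex.I) ^ n)
        (volume.restrict (Ioc 0 (2 * π))) := by
      intro n
      exact (hC (fun z => z ^ n) 1 zero_le_one (by fun_prop) fun z hz => by
        rw [norm_pow]; exact pow_le_one₀ (norm_nonneg _) (mem_closedBall_zero_iff.1 hz)).1
    have e1 : ∀ z : ℂ, (F z : ℂ) * (∑ n ∈ Finset.range K, p n * z ^ n)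
        = ∑ n ∈ Finset.range K, p n * ((F z : ℂ) * z ^ n) := by
      intro z
      rw [Finset.mul_sum]
      exact Finset.sum_congr rfl fun n _ => by ring
    have e2 : ∀ θ : ℝ, (H θ : ℂ) * (∑ n ∈ Finset.range K, p n * Complex.exp (θ * Complex.I) ^ n)
        = ∑ n ∈ Finset.range K, p n * ((H θ : ℂ) * Complex.exp (θ * Complex.I) ^ n) := by
      intro θ
      rw [Finset.mul_sum]
      exact Finset.sum_congr rfl fun n _ => by ring
    simp_rw [e1, e2]
    rw [integral_finsetSum _ fun n _ => (hI1 n).const_mul _,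
      integral_finsetSum _ fun n _ => (hI2 n).const_mul _, Finset.mul_sum]
    refine Finset.sum_congr rfl fun n _ => ?_
    rw [integral_const_mul, integral_const_mul, hmono]
    ring
  -- conclusion
  set A := ∫ z in ball (0 : ℂ) 1, F z
  set B := ∫ θ in Ioc (0 : ℝ) (2 * π), H θ
  have hA0 : 0 ≤ A := integral_nonneg fun z => by positivity
  have hB0 : 0 ≤ B := integral_nonneg fun z => by positivity
  refine eq_of_forall_dist_le fun η hη => ?_
  set ε := η / (A + |c| * B + 1) with hε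
  have hden : 0 < A + |c| * B + 1 := by positivity
  have hε0 : 0 < ε := by positivity
  obtain ⟨K, p, hp⟩ := poly_approx Φ hΦc hΦd hε0
  set P : ℂ → ℂ := fun z => ∑ n ∈ Finset.range K, p n * z ^ n with hP
  have hPc : ContinuousOn P (closedBall 0 1) := by
    refine Continuous.continuousOn ?_
    exact continuous_finsetSum _ fun n _ => by fun_prop
  obtain ⟨CP, hCP⟩ := (isCompact_closedBall (0 : ℂ) 1).exists_bound_of_continuousOn hPc
  have hCP0 : 0 ≤ CP := (norm_nonneg _).trans (hCP 0 (by simp))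
  have hPB := (hB P CP hCP0 hPc hCP).1
  have hPC := (hC P CP hCP0 hPc hCP).1
  have hd1 := (hB (fun z => Φ z - P z) ε hε0.le (hΦc.sub hPc) hp).2
  have hd2 := (hC (fun z => Φ z - P z) ε hε0.le (hΦc.sub hPc) hp).2
  have hs1 : ∫ z in ball (0 : ℂ) 1, (F z : ℂ) * (Φ z - P z)
      = (∫ z in ball (0 : ℂ) 1, (F z : ℂ) * Φ z) - ∫ z in ball (0 : ℂ) 1, (F z : ℂ) * P z := by
    rw [← integral_sub hΦB hPB]
    simp_rw [mul_sub]
  have hs2 : ∫ θ in Ioc (0 : ℝ) (2 * π), (H θ : ℂ) * (Φ (Complex.exp (θ * Complex.I)) - P (Complex.exp (θ * Complex.I)))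
      = (∫ θ in Ioc (0 : ℝ) (2 * π), (H θ : ℂ) * Φ (Complex.exp (θ * Complex.I)))
        - ∫ θ in Ioc (0 : ℝ) (2 * π), (H θ : ℂ) * P (Complex.exp (θ * Complex.I)) := by
    rw [← integral_sub hΦC hPC]
    simp_rw [mul_sub]
  rw [hs1] at hd1
  rw [hs2] at hd2
  have hPP := hpoly K p
  rw [dist_eq_norm]
  have key : (∫ z in ball (0 : ℂ) 1, (F z : ℂ) * Φ z)
      - (c : ℂ) * ∫ θ in Ioc (0 : ℝ) (2 * π), (H θ : ℂ) * Φ (Complex.exp (θ * Complex.I))
      = ((∫ z in ball (0 : ℂ) 1, (F z : ℂ) * Φ z) - ∫ z in ball (0 : ℂ) 1, (F z : ℂ) * P z)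
        - (c : ℂ) * ((∫ θ in Ioc (0 : ℝ) (2 * π), (H θ : ℂ) * Φ (Complex.exp (θ * Complex.I)))
        - ∫ θ in Ioc (0 : ℝ) (2 * π), (H θ : ℂ) * P (Complex.exp (θ * Complex.I))) := by
    have : (∫ z in ball (0 : ℂ) 1, (F z : ℂ) * P z)
      = (c : ℂ) * ∫ θ in Ioc (0 : ℝ) (2 * π), (H θ : ℂ) * P (Complex.exp (θ * Complex.I)) := hPP
    rw [this]
    ring
  rw [key]
  refine (norm_sub_le _ _).trans ?_
  rw [norm_mul, Complex.norm_real, Real.norm_eq_abs]
  have h5 : |c| * ‖(∫ θ in Ioc (0 : ℝ) (2 * π), (H θ : ℂ) * Φ (Complex.exp (θ * Complex.I)))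
        - ∫ θ in Ioc (0 : ℝ) (2 * π), (H θ : ℂ) * P (Complex.exp (θ * Complex.I))‖ ≤ |c| * (ε * B) :=
    mul_le_mul_of_nonneg_left hd2 (abs_nonneg _)
  have h6 : ε * (A + |c| * B + 1) = η := div_mul_cancel₀ _ hden.ne'
  nlinarith


end Quad
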