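import Mathlib

open MeasureTheory Set Filter Topology Metric
open scoped ENNReal NNReal Real ComplexConjugate

namespace Quad

/-- Topological facts about the image of the disc. -/
theorem disc_image_topology (f E : ℂ → ℂ)
    (hfc : ContinuousOn f (closedBall 0 1))
    (hfd : ∀ z ∈ ball (0 : ℂ) 1, HasDerivAt f (E z) z)
    (hE0 : ∀ z ∈ ball (0 : ℂ) 1, E z ≠ 0)
    (hinj : InjOn f (closedBall 0 1)) :
    IsOpen (f '' ball 0 1) ∧ IsConnected (f '' ball 0 1) ∧
      Bornology.IsBounded (f '' ball 0 1) ∧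
      closure (f '' ball 0 1) = f '' closedBall 0 1 ∧
      frontier (f '' ball 0 1) = f '' sphere 0 1 := by
  have hsub : ball (0 : ℂ) 1 ⊆ closedBall 0 1 := ball_subset_closedBall
  have hopen : IsOpen (f '' ball 0 1) := by
    rw [isOpen_iff_mem_nhds]
    rintro _ ⟨z, hz, rfl⟩
    have hdiff : DifferentiableOn ℂ f (ball 0 1) := fun w hw =>
      (hfd w hw).differentiableAt.differentiableWithinAt
    have han : AnalyticAt ℂ f z := hdiff.analyticAt (isOpen_ball.mem_nhds hz)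
    have hst : HasStrictDerivAt f (E z) z := by
      have h1 := han.hasStrictDerivAt
      rwa [(hfd z hz).deriv] at h1
    rw [← hst.map_nhds_eq (hE0 z hz)]
    exact image_mem_map (isOpen_ball.mem_nhds hz)
  have hcomp : IsCompact (f '' closedBall 0 1) :=
    (isCompact_closedBall (0 : ℂ) 1).image_of_continuousOn hfc
  have hclos : closure (f '' ball 0 1) = f '' closedBall 0 1 := by
    apply Subset.antisymm
    · exact closure_minimal (image_mono hsub) hcomp.isClosed
    · have h1 : closure (ball (0 : ℂ) 1) = closedBall 0 1 := closure_ball _ one_ne_zero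
      have h2 := ContinuousOn.image_closure (f := f) (s := ball (0 : ℂ) 1) (by rw [h1]; exact hfc)
      rwa [h1] at h2
  refine ⟨hopen, ?_, ?_, hclos, ?_⟩
  · have h1 : IsConnected (ball (0 : ℂ) 1) :=
      (convex_ball (0 : ℂ) 1).isConnected ⟨0, by simp⟩
    exact h1.image f (hfc.mono hsub)
  · exact hcomp.isBounded.subset (image_mono hsub)
  · rw [frontier, hclos, hopen.interior_eq]
    ext x
    constructor
    · rintro ⟨⟨z, hz, rfl⟩, hx⟩
      refine ⟨z, ?_, rfl⟩
      rw [mem_sphere]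
      rw [mem_closedBall] at hz
      by_contra hne
      apply hx
      exact ⟨z, mem_ball.2 (lt_of_le_of_ne hz hne), rfl⟩
    · rintro ⟨z, hz, rfl⟩
      refine ⟨⟨z, sphere_subset_closedBall hz, rfl⟩, ?_⟩
      rintro ⟨w, hw, hwz⟩
      have := hinj (hsub hw) (sphere_subset_closedBall hz) hwz
      subst this
      rw [mem_sphere] at hz
      rw [mem_ball] at hw
      linarith

/-- Strict derivative at a boundary point. -/
theorem boundary_strict (f E : ℂ → ℂ)
    (hfc : ContinuousOn f (closedBall 0 1))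
    (hfd : ∀ z ∈ ball (0 : ℂ) 1, HasDerivAt f (E z) z)
    (θ : ℝ) (v : ℂ)
    (hlim : Tendsto E (𝓝[ball 0 1] (Complex.exp (θ * Complex.I))) (𝓝 v)) :
    HasStrictDerivAt (fun t : ℝ => f (Complex.exp (t * Complex.I)))
      (v * (Complex.exp (θ * Complex.I) * Complex.I)) θ := by
  set ζ : ℂ := Complex.exp (θ * Complex.I) with hζ
  -- local estimate
  have hloc : ∀ ε > 0, ∃ δ > 0, ∀ z ∈ closedBall (0 : ℂ) 1, ∀ w ∈ closedBall (0 : ℂ) 1,
      ‖z - ζ‖ < δ → ‖w - ζ‖ < δ → ‖f w - f z - v * (w - z)‖ ≤ ε * ‖w - z‖ := by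
    intro ε hε
    have h1 := (Metric.tendsto_nhdsWithin_nhds.1 hlim) ε hε
    obtain ⟨δ, hδ, h2⟩ := h1
    refine ⟨δ, hδ, ?_⟩
    intro z hz w hw hzδ hwδ
    -- first for points of the open ball
    have hopen : ∀ z ∈ ball (0 : ℂ) 1, ∀ w ∈ ball (0 : ℂ) 1, ‖z - ζ‖ < δ → ‖w - ζ‖ < δ →
        ‖f w - f z - v * (w - z)‖ ≤ ε * ‖w - z‖ := by
      intro z hz w hw hzδ hwδ
      set s : Set ℂ := ball 0 1 ∩ ball ζ δ with hs
      have hconv : Convex ℝ s := (convex_ball _ _).inter (convex_ball _ _)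
      have hder : ∀ x ∈ s, HasDerivWithinAt (fun x => f x - v * x) (E x - v) s x := by
        intro x hx
        have h3 := (hfd x hx.1).fun_sub ((hasDerivAt_id x).const_mul v)
        simpa using h3.hasDerivWithinAt
      have hbd : ∀ x ∈ s, ‖E x - v‖ ≤ ε := by
        intro x hx
        have := h2 hx.1 (by simpa [dist_eq_norm] using hx.2)
        rw [dist_eq_norm] at this
        exact this.le
      have h3 := Convex.norm_image_sub_le_of_norm_hasDerivWithin_le hder hbd hconv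
        (x := z) (y := w) ⟨hz, by simpa [dist_eq_norm] using hzδ⟩
        ⟨hw, by simpa [dist_eq_norm] using hwδ⟩
      have h4 : f w - v * w - (f z - v * z) = f w - f z - v * (w - z) := by ring
      rw [h4] at h3
      exact h3
    -- approximate by r z, r w
    have hrz : ∀ z ∈ closedBall (0 : ℂ) 1,
        Tendsto (fun r : ℝ => (r : ℂ) * z) (𝓝[<] 1) (𝓝 z) := by
      intro z _
      have : Tendsto (fun r : ℝ => (r : ℂ) * z) (𝓝 1) (𝓝 (((1 : ℝ) : ℂ) * z)) := by
        apply Continuous.tendsto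
        fun_prop
      simpa using this.mono_left nhdsWithin_le_nhds
    have hrzb : ∀ z ∈ closedBall (0 : ℂ) 1, ∀ᶠ r : ℝ in 𝓝[<] 1, (r : ℂ) * z ∈ ball (0 : ℂ) 1 := by
      intro z hz
      have h5 : ∀ᶠ r : ℝ in 𝓝[<] 1, r ∈ Ioo (0 : ℝ) 1 := Ioo_mem_nhdsLT one_pos
      filter_upwards [h5] with r hr
      rw [mem_ball, dist_zero_right, norm_mul, Complex.norm_real, Real.norm_of_nonneg hr.1.le]
      rw [mem_closedBall, dist_zero_right] at hz
      have : r * ‖z‖ ≤ r * 1 := mul_le_mul_of_nonneg_left hz hr.1.le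
      linarith [hr.2]
    have hfz : ∀ z ∈ closedBall (0 : ℂ) 1,
        Tendsto (fun r : ℝ => f ((r : ℂ) * z)) (𝓝[<] 1) (𝓝 (f z)) := by
      intro z hz
      have h6 : Tendsto (fun r : ℝ => (r : ℂ) * z) (𝓝[<] 1) (𝓝[closedBall 0 1] z) := by
        rw [tendsto_nhdsWithin_iff]
        refine ⟨hrz z hz, ?_⟩
        filter_upwards [hrzb z hz] with r hr
        exact ball_subset_closedBall hr
      exact (hfc z hz).tendsto.comp h6
    have hL : Tendsto (fun r : ℝ => ‖f ((r : ℂ) * w) - f ((r : ℂ) * z) - v * ((r : ℂ) * w - (r : ℂ) * z)‖)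
        (𝓝[<] 1) (𝓝 ‖f w - f z - v * (w - z)‖) := by
      exact (((hfz w hw).sub (hfz z hz)).sub (((hrz w hw).sub (hrz z hz)).const_mul v)).norm
    have hR : Tendsto (fun r : ℝ => ε * ‖(r : ℂ) * w - (r : ℂ) * z‖)
        (𝓝[<] 1) (𝓝 (ε * ‖w - z‖)) :=
      (((hrz w hw).sub (hrz z hz)).norm).const_mul ε
    refine le_of_tendsto_of_tendsto hL hR ?_
    have hcl : ∀ z ∈ closedBall (0 : ℂ) 1, ‖z - ζ‖ < δ → ∀ᶠ r : ℝ in 𝓝[<] 1,
        ‖(r : ℂ) * z - ζ‖ < δ := by
      intro z hz hzd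
      have : Tendsto (fun r : ℝ => ‖(r : ℂ) * z - ζ‖) (𝓝[<] 1) (𝓝 ‖z - ζ‖) :=
        ((hrz z hz).sub_const ζ).norm
      exact this.eventually_lt_const hzd
    filter_upwards [hrzb z hz, hrzb w hw, hcl z hz hzδ, hcl w hw hwδ] with r h7 h8 h9 h10
    exact hopen _ h7 _ h8 h9 h10
  -- now the curve
  have hexp : HasStrictDerivAt (fun t : ℝ => Complex.exp (t * Complex.I)) (ζ * Complex.I) θ := by
    have h1 : HasStrictDerivAt (fun t : ℝ => (t : ℂ) * Complex.I) (Complex.I) θ := by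
      have h2 : HasStrictDerivAt (fun t : ℝ => (t : ℂ)) 1 θ := by
        exact Complex.ofRealCLM.hasStrictDerivAt
      simpa using h2.mul_const Complex.I
    have h3 := (Complex.hasStrictDerivAt_exp ((θ : ℂ) * Complex.I)).comp θ h1
    exact h3
  have hexp : (fun p : ℝ × ℝ => Complex.exp (p.1 * Complex.I) - Complex.exp (p.2 * Complex.I)
      - (p.1 - p.2) • (ζ * Complex.I)) =o[𝓝 (θ, θ)] fun p : ℝ × ℝ => p.1 - p.2 :=
    (hasStrictFDerivAt_iff_isLittleO.1 hexp.hasStrictFDerivAt)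
  rw [hasStrictDerivAt_iff_hasStrictFDerivAt, hasStrictFDerivAt_iff_isLittleO]
  have hO : (fun p : ℝ × ℝ => Complex.exp (p.1 * Complex.I) - Complex.exp (p.2 * Complex.I))
      =O[𝓝 (θ, θ)] fun p : ℝ × ℝ => p.1 - p.2 := by
    have h4 := hexp.isBigO
    have h5 : (fun p : ℝ × ℝ => (p.1 - p.2) • (ζ * Complex.I)) =O[𝓝 (θ, θ)]
        fun p : ℝ × ℝ => p.1 - p.2 := by
      apply Asymptotics.IsBigO.of_bound ‖ζ * Complex.I‖
      filter_upwards with p
      rw [norm_smul, mul_comm]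
    have h6 := h4.add h5
    refine h6.congr_left ?_
    intro p
    ring
  have hlo : (fun p : ℝ × ℝ => f (Complex.exp (p.1 * Complex.I)) - f (Complex.exp (p.2 * Complex.I))
      - v * (Complex.exp (p.1 * Complex.I) - Complex.exp (p.2 * Complex.I)))
      =o[𝓝 (θ, θ)] fun p : ℝ × ℝ => Complex.exp (p.1 * Complex.I) - Complex.exp (p.2 * Complex.I) := by
    rw [Asymptotics.isLittleO_iff]
    intro ε hε
    obtain ⟨δ, hδ, h7⟩ := hloc ε hε
    have hc1 : Tendsto (fun p : ℝ × ℝ => ‖Complex.exp (p.1 * Complex.I) - ζ‖) (𝓝 (θ, θ)) (𝓝 0) := by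
      have : Continuous (fun p : ℝ × ℝ => ‖Complex.exp (p.1 * Complex.I) - ζ‖) := by fun_prop
      have h8 := this.tendsto (θ, θ)
      simpa [hζ] using h8
    have hc2 : Tendsto (fun p : ℝ × ℝ => ‖Complex.exp (p.2 * Complex.I) - ζ‖) (𝓝 (θ, θ)) (𝓝 0) := by
      have : Continuous (fun p : ℝ × ℝ => ‖Complex.exp (p.2 * Complex.I) - ζ‖) := by fun_prop
      have h8 := this.tendsto (θ, θ)
      simpa [hζ] using h8
    filter_upwards [hc1.eventually_lt_const hδ, hc2.eventually_lt_const hδ] with p h9 h10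
    apply h7 _ _ _ _ h10 h9
    · simp [mem_closedBall, Complex.norm_exp_ofReal_mul_I]
    · simp [mem_closedBall, Complex.norm_exp_ofReal_mul_I]
  have hfin := (hlo.trans_isBigO hO).add ((hexp.const_mul_left v))
  refine hfin.congr_left ?_
  intro p
  simp only [Complex.real_smul, ContinuousLinearMap.toSpanSingleton_apply]
  ring

end Quad
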