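import Mathlib

open Set Filter Topology Metric

namespace Quad


namespace KeyEst

lemma radial (g g' : ℝ → ℂ) (D C K : ℝ) (hD : 0 < D) (hC : 0 ≤ C) (hK : 0 ≤ K)
    (hg : ContinuousOn g (Icc 0 D)) (hg' : ∀ u ∈ Ioc 0 D, HasDerivAt g (g' u) u)
    (hb : ∀ u ∈ Ioc 0 D, ‖g' u‖ ≤
      C * (K * Real.exp ((1/20) * (Real.log D - Real.log u)) - 1)) :
    ‖g D - g 0‖ ≤ C * (D * (K * (20/19) - 1)) := by
  set B : ℝ → ℝ := fun u =>
    C * (K * (20/19) * (u * Real.exp ((1/20) * (Real.log D - Real.log u))) - u) with hBdef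
  have hBD : B D = C * (D * (K * (20/19) - 1)) := by
    simp only [hBdef, sub_self, mul_zero, Real.exp_zero]; ring
  have key : ∀ s ∈ Ioc 0 D, ‖g D - g s‖ ≤ B D + C * s := by
    intro s hs
    have hderB : ∀ x, 0 < x →
        HasDerivAt B (C * (K * Real.exp ((1/20) * (Real.log D - Real.log x)) - 1)) x := by
      intro x hx
      have h1 : HasDerivAt (fun u => Real.log D - Real.log u) (- x⁻¹) x := by
        simpa using (Real.hasDerivAt_log hx.ne').const_sub (Real.log D)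
      have h2 := (h1.const_mul (1/20 : ℝ)).exp
      have h3 := (hasDerivAt_id x).mul h2
      have h4 := ((h3.const_mul (K * (20/19))).sub (hasDerivAt_id x)).const_mul C
      refine h4.congr_deriv ?_
      simp only [id]
      field_simp
      ring
    have h5 := image_norm_le_of_norm_deriv_right_le_deriv_boundary' (f := fun u => g u - g s)
      (f' := g') (a := s) (b := D) (B := fun u => B u - B s)
      (B' := fun x => C * (K * Real.exp ((1/20) * (Real.log D - Real.log x)) - 1))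
      ((hg.mono (Icc_subset_Icc hs.1.le le_rfl)).sub continuousOn_const)
      (fun x hx => ((hg' x ⟨lt_of_lt_of_le hs.1 hx.1, hx.2.le⟩).sub_const _).hasDerivWithinAt)
      (by simp)
      (fun x hx => ((hderB x (lt_of_lt_of_le hs.1 hx.1)).sub_const
        _).continuousAt.continuousWithinAt)
      (fun x hx => ((hderB x (lt_of_lt_of_le hs.1 hx.1)).sub_const _).hasDerivWithinAt)
      (fun x hx => hb x ⟨lt_of_lt_of_le hs.1 hx.1, hx.2.le⟩)
      (⟨hs.2, le_rfl⟩ : D ∈ Icc s D)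
    refine h5.trans ?_
    have h6 : - (C * s) ≤ B s := by
      have : 0 ≤ C * (K * (20/19) * (s * Real.exp ((1/20) * (Real.log D - Real.log s)))) := by
        have := hs.1.le
        positivity
      simp only [hBdef]
      linarith [this]
    linarith
  rw [← hBD]
  have hlim1 : Tendsto (fun s => ‖g D - g s‖) (𝓝[Ioc 0 D] 0) (𝓝 ‖g D - g 0‖) := by
    have h1 : ContinuousWithinAt g (Ioc 0 D) 0 :=
      (hg 0 ⟨le_rfl, hD.le⟩).mono Ioc_subset_Icc_self
    exact (tendsto_const_nhds.sub h1).norm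
  have hlim2 : Tendsto (fun s => B D + C * s) (𝓝[Ioc 0 D] 0) (𝓝 (B D + C * 0)) := by
    apply Tendsto.mono_left _ nhdsWithin_le_nhds
    exact tendsto_const_nhds.add (tendsto_const_nhds.mul tendsto_id)
  have hne : (𝓝[Ioc 0 D] (0:ℝ)).NeBot := by
    rw [nhdsWithin_Ioc_eq_nhdsGT hD]
    infer_instance
  have h7 := le_of_tendsto_of_tendsto hlim1 hlim2
    (eventually_nhdsWithin_of_forall fun s hs => key s hs)
  simpa using h7

/-- the ratio estimate -/
lemma ratio (E h q : ℂ → ℂ)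
    (hE : ∀ z ∈ ball (0 : ℂ) 1, E z = Complex.exp (-(h z)) * q z)
    (hq : ∀ z ∈ ball (0 : ℂ) 1, ‖q z - 1‖ ≤ 1 / 20)
    (w z : ℂ) (hw : w ∈ ball (0 : ℂ) 1) (hz : z ∈ ball (0 : ℂ) 1) :
    ‖E z - E w‖ ≤ ‖E w‖ * ((21/19) * Real.exp ‖h z - h w‖ - 1) := by
  have hqw : 19/20 ≤ ‖q w‖ := by
    have h1 := hq w hw
    have h2 : ‖(1:ℂ)‖ ≤ ‖q w - 1‖ + ‖q w‖ := by
      have := norm_sub_le (q w) (q w - 1)
      simp only [sub_sub_cancel] at this
      linarith
    simp only [norm_one] at h2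
    linarith
  have hqw0 : q w ≠ 0 := by
    intro h0
    rw [h0] at hqw
    norm_num at hqw
  have hb : ‖q z / q w - 1‖ ≤ 2/19 := by
    have h1 : q z / q w - 1 = (q z - q w) / q w := by field_simp
    rw [h1, norm_div, div_le_iff₀ (by linarith)]
    have h2 : ‖q z - q w‖ ≤ 1/10 := by
      have : q z - q w = (q z - 1) - (q w - 1) := by ring
      rw [this]
      refine (norm_sub_le _ _).trans ?_
      linarith [hq z hz, hq w hw]
    linarith
  have hb' : ‖q z / q w‖ ≤ 21/19 := by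
    have : q z / q w = (q z / q w - 1) + 1 := by ring
    rw [this]
    refine (norm_add_le _ _).trans ?_
    rw [norm_one]
    linarith
  have hexp : ‖Complex.exp (-(h z - h w)) - 1‖ ≤ Real.exp ‖h z - h w‖ - 1 := by
    have := Complex.norm_exp_sub_sum_le_exp_norm_sub_sum (-(h z - h w)) 1
    simpa [norm_sub_rev] using this
  have hEq : E z - E w = E w * ((Complex.exp (-(h z - h w)) - 1) * (q z / q w)
      + (q z / q w - 1)) := by
    rw [hE z hz, hE w hw]
    have : Complex.exp (-(h z)) = Complex.exp (-(h w)) * Complex.exp (-(h z - h w)) := by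
      rw [← Complex.exp_add]; congr 1; ring
    rw [this]
    field_simp
    ring
  rw [hEq, norm_mul]
  refine mul_le_mul_of_nonneg_left ?_ (norm_nonneg _)
  refine (norm_add_le _ _).trans ?_
  rw [norm_mul]
  have h3 : ‖Complex.exp (-(h z - h w)) - 1‖ * ‖q z / q w‖ ≤
      (Real.exp ‖h z - h w‖ - 1) * (21/19) := by
    apply mul_le_mul hexp hb' (norm_nonneg _)
    linarith [norm_nonneg (Complex.exp (-(h z - h w)) - 1)]
  linarith

/-- difference of `h` along a radius -/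
lemma h_radial (h : ℂ → ℂ)
    (hh : ∀ z ∈ ball (0 : ℂ) 1, ∃ h' : ℂ, HasDerivAt h h' z ∧ ‖h'‖ ≤ (1 / 20) / (1 - ‖z‖))
    (z : ℂ) (hz : z ∈ closedBall (0 : ℂ) 1) (u D : ℝ) (hu : 0 < u) (huD : u ≤ D) (hD : D ≤ 1) :
    ‖h (((1 - u : ℝ) : ℂ) * z) - h (((1 - D : ℝ) : ℂ) * z)‖
      ≤ (1/20) * (Real.log D - Real.log u) := by
  have hz' : ‖z‖ ≤ 1 := by simpa using hz
  have hmem : ∀ t : ℝ, 0 < t → t ≤ 1 → ((1 - t : ℝ) : ℂ) * z ∈ ball (0:ℂ) 1 ∧
      t ≤ 1 - ‖((1 - t : ℝ) : ℂ) * z‖ := by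
    intro t ht ht1
    have h1 : ‖((1 - t : ℝ) : ℂ) * z‖ ≤ 1 - t := by
      rw [norm_mul, Complex.norm_real, Real.norm_of_nonneg (by linarith)]
      nlinarith [norm_nonneg z]
    refine ⟨?_, by linarith⟩
    rw [mem_ball_zero_iff]
    linarith
  choose! h' hh' using hh
  have hder : ∀ t : ℝ, 0 < t → t ≤ 1 → HasDerivAt (fun t : ℝ => h (((1 - t : ℝ) : ℂ) * z))
      (h' (((1 - t : ℝ) : ℂ) * z) * (-z)) t := by
    intro t ht ht1
    have h1 := (hh' _ (hmem t ht ht1).1).1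
    have h2 : HasDerivAt (fun t : ℝ => ((1 - t : ℝ) : ℂ) * z) (-z) t := by
      have h3 : HasDerivAt (fun t : ℝ => ((1 - t : ℝ) : ℂ)) (((-1 : ℝ) : ℂ)) t := by
        have := ((hasDerivAt_id t).const_sub 1).ofReal_comp
        simpa using this
      have := h3.mul_const z
      simpa using this
    exact HasDerivAt.comp t h1 h2
  have h5 := image_norm_le_of_norm_deriv_right_le_deriv_boundary'
    (f := fun t : ℝ => h (((1 - t : ℝ) : ℂ) * z) - h (((1 - u : ℝ) : ℂ) * z))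
    (f' := fun t : ℝ => h' (((1 - t : ℝ) : ℂ) * z) * (-z)) (a := u) (b := D)
    (B := fun t => (1/20) * (Real.log t - Real.log u)) (B' := fun t => (1/20) * t⁻¹)
    (fun t ht => ((hder t (lt_of_lt_of_le hu ht.1) (ht.2.trans hD)).sub_const
      _).continuousAt.continuousWithinAt)
    (fun t ht => ((hder t (lt_of_lt_of_le hu ht.1) (ht.2.le.trans hD)).sub_const
      _).hasDerivWithinAt)
    (by simp)
    (fun t ht => (((Real.hasDerivAt_log (lt_of_lt_of_le hu ht.1).ne').sub_const _).const_mul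
      _).continuousAt.continuousWithinAt)
    (fun t ht => (((Real.hasDerivAt_log (lt_of_lt_of_le hu ht.1).ne').sub_const _).const_mul
      _).hasDerivWithinAt)
    (by
      intro t ht
      have ht0 : 0 < t := lt_of_lt_of_le hu ht.1
      have ht1 : t ≤ 1 := ht.2.le.trans hD
      have h1 := (hh' _ (hmem t ht0 ht1).1).2
      have h2 := (hmem t ht0 ht1).2
      rw [norm_mul, norm_neg]
      have h3 : (1 / 20) / (1 - ‖((1 - t : ℝ) : ℂ) * z‖) ≤ (1/20) * t⁻¹ := by
        rw [div_eq_mul_inv]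
        apply mul_le_mul_of_nonneg_left _ (by norm_num)
        exact inv_anti₀ ht0 h2
      calc ‖h' (((1 - t : ℝ) : ℂ) * z)‖ * ‖z‖ ≤ ‖h' (((1 - t : ℝ) : ℂ) * z)‖ * 1 :=
            mul_le_mul_of_nonneg_left hz' (norm_nonneg _)
        _ ≤ (1/20) * t⁻¹ := by rw [mul_one]; exact h1.trans h3)
    (⟨huD, le_rfl⟩ : D ∈ Icc u D)
  rw [norm_sub_rev]
  exact h5

end KeyEst

open KeyEst in
/-- Key geometric estimate. -/
theorem key_estimate (f E h q : ℂ → ℂ)
    (hfc : ContinuousOn f (closedBall 0 1))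
    (hfd : ∀ z ∈ ball (0 : ℂ) 1, HasDerivAt f (E z) z)
    (hE : ∀ z ∈ ball (0 : ℂ) 1, E z = Complex.exp (-(h z)) * q z)
    (hh : ∀ z ∈ ball (0 : ℂ) 1, ∃ h' : ℂ, HasDerivAt h h' z ∧ ‖h'‖ ≤ (1 / 20) / (1 - ‖z‖))
    (hq : ∀ z ∈ ball (0 : ℂ) 1, ‖q z - 1‖ ≤ 1 / 20)
    (z₁ z₂ : ℂ) (h1 : z₁ ∈ closedBall (0 : ℂ) 1) (h2 : z₂ ∈ closedBall (0 : ℂ) 1)
    (hne : z₁ ≠ z₂) :
    ‖f z₂ - f z₁ - E (((1 - ‖z₁ - z₂‖ / 2 : ℝ) : ℂ) * z₁) * (z₂ - z₁)‖
      ≤ (1 / 2) * ‖E (((1 - ‖z₁ - z₂‖ / 2 : ℝ) : ℂ) * z₁)‖ * ‖z₂ - z₁‖ := by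
  set d : ℝ := ‖z₁ - z₂‖ with hd
  have hz1 : ‖z₁‖ ≤ 1 := by simpa using h1
  have hz2 : ‖z₂‖ ≤ 1 := by simpa using h2
  have hd0 : 0 < d := norm_pos_iff.mpr (sub_ne_zero.mpr hne)
  have hd2 : d ≤ 2 := (norm_sub_le _ _).trans (by linarith)
  set D : ℝ := d / 2 with hD
  have hD0 : 0 < D := by positivity
  have hD1 : D ≤ 1 := by simp only [hD]; linarith
  set w₁ : ℂ := ((1 - D : ℝ) : ℂ) * z₁ with hw1
  set w₂ : ℂ := ((1 - D : ℝ) : ℂ) * z₂ with hw2
  set c : ℂ := E w₁ with hc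
  have hmem : ∀ z : ℂ, ‖z‖ ≤ 1 → ∀ t : ℝ, 0 < t → t ≤ 1 →
      ((1 - t : ℝ) : ℂ) * z ∈ ball (0:ℂ) 1 ∧ ‖((1 - t : ℝ) : ℂ) * z‖ ≤ 1 - t := by
    intro z hz t ht ht1
    have h1 : ‖((1 - t : ℝ) : ℂ) * z‖ ≤ 1 - t := by
      rw [norm_mul, Complex.norm_real, Real.norm_of_nonneg (by linarith)]
      nlinarith [norm_nonneg z]
    refine ⟨?_, h1⟩
    rw [mem_ball_zero_iff]
    linarith
  have hw1m := hmem z₁ hz1 D hD0 hD1
  have hw2m := hmem z₂ hz2 D hD0 hD1
  have hw12 : ‖w₂ - w₁‖ ≤ d := by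
    have : w₂ - w₁ = ((1 - D : ℝ) : ℂ) * (z₂ - z₁) := by rw [hw1, hw2]; ring
    rw [this, norm_mul, Complex.norm_real, Real.norm_of_nonneg (by linarith), norm_sub_rev]
    have : (1 - D) * ‖z₁ - z₂‖ ≤ 1 * ‖z₁ - z₂‖ :=
      mul_le_mul_of_nonneg_right (by linarith) (norm_nonneg _)
    simpa using this
  -- exponential bound
  have hexp : Real.exp (1/10) ≤ 10/9 := by
    have h1 := Real.add_one_le_exp (-(1/10 : ℝ))
    have h2 : Real.exp (1/10) * Real.exp (-(1/10)) = 1 := by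
      rw [← Real.exp_add]; norm_num
    nlinarith [Real.exp_pos (1/10 : ℝ)]
  -- the convex set
  set S : Set ℂ := closedBall 0 (1 - D) ∩ closedBall w₁ d with hS
  have hSconv : Convex ℝ S := (convex_closedBall _ _).inter (convex_closedBall _ _)
  have hSball : S ⊆ ball 0 1 := by
    intro z hz
    have := hz.1
    rw [mem_closedBall_zero_iff] at this
    rw [mem_ball_zero_iff]
    linarith
  have hw1S : w₁ ∈ S := ⟨by rw [mem_closedBall_zero_iff]; exact hw1m.2,
    mem_closedBall_self hd0.le⟩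
  have hw2S : w₂ ∈ S := ⟨by rw [mem_closedBall_zero_iff]; exact hw2m.2,
    by rw [mem_closedBall, dist_eq_norm]; exact hw12⟩
  have hhS : ∀ z ∈ S, ‖h z - h w₁‖ ≤ 1/10 := by
    intro z hz
    choose! h' hh' using hh
    have h3 := hSconv.norm_image_sub_le_of_norm_hasDerivWithin_le (f := h) (f' := h')
      (C := (1/20) / D) (s := S) (x := w₁) (y := z)
      (fun x hx => (hh' x (hSball hx)).1.hasDerivWithinAt)
      (fun x hx => by
        refine (hh' x (hSball hx)).2.trans ?_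
        have := hx.1
        rw [mem_closedBall_zero_iff] at this
        gcongr
        linarith) hw1S hz
    refine h3.trans ?_
    have h4 : ‖z - w₁‖ ≤ d := by
      have := hz.2
      rwa [mem_closedBall, dist_eq_norm] at this
    calc (1/20) / D * ‖z - w₁‖ ≤ (1/20) / D * d := by gcongr
      _ = 1/10 := by simp only [hD]; field_simp; norm_num
  -- the function e
  set e : ℂ → ℂ := fun z => f z - c * z with he
  have hec : ContinuousOn e (closedBall 0 1) :=
    hfc.sub (continuousOn_const.mul continuousOn_id)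
  have hed : ∀ z ∈ ball (0 : ℂ) 1, HasDerivAt e (E z - c) z := by
    intro z hz
    have := (hfd z hz).sub ((hasDerivAt_id z).const_mul c)
    rw [mul_one] at this
    exact this
  -- segment
  have hseg : ‖e w₂ - e w₁‖ ≤ ‖c‖ * ((21/19) * (10/9) - 1) * d := by
    have h3 := hSconv.norm_image_sub_le_of_norm_hasDerivWithin_le (f := e)
      (f' := fun z => E z - c) (C := ‖c‖ * ((21/19) * (10/9) - 1)) (s := S) (x := w₁) (y := w₂)
      (fun x hx => (hed x (hSball hx)).hasDerivWithinAt)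
      (fun x hx => by
        refine (ratio E h q hE hq w₁ x hw1m.1 (hSball hx)).trans ?_
        apply mul_le_mul_of_nonneg_left _ (norm_nonneg _)
        have := Real.exp_le_exp.mpr (hhS x hx)
        linarith) hw1S hw2S
    refine h3.trans ?_
    apply mul_le_mul_of_nonneg_left hw12
    apply mul_nonneg (norm_nonneg _)
    norm_num
  -- radial pieces
  have hrad : ∀ z : ℂ, ‖z‖ ≤ 1 → ∀ K : ℝ, 0 ≤ K →
      (∀ u ∈ Ioc 0 D, ‖E (((1 - u : ℝ) : ℂ) * z) - c‖ ≤
        ‖c‖ * (K * Real.exp ((1/20) * (Real.log D - Real.log u)) - 1)) →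
      ‖e (((1 - D : ℝ) : ℂ) * z) - e z‖ ≤ ‖c‖ * (D * (K * (20/19) - 1)) := by
    intro z hz K hK hb
    have h3 := radial (fun u : ℝ => e (((1 - u : ℝ) : ℂ) * z))
      (fun u : ℝ => (E (((1 - u : ℝ) : ℂ) * z) - c) * (-z)) D ‖c‖ K hD0 (norm_nonneg _) hK
      (by
        apply hec.comp
        · apply Continuous.continuousOn; fun_prop
        · intro u hu
          rw [mem_closedBall_zero_iff, norm_mul, Complex.norm_real,
            Real.norm_of_nonneg (by linarith [hu.2])]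
          have := hu.1
          nlinarith [norm_nonneg z, hu.2])
      (by
        intro u hu
        have h1 := hed _ (hmem z hz u hu.1 (hu.2.trans hD1)).1
        have h2 : HasDerivAt (fun t : ℝ => ((1 - t : ℝ) : ℂ) * z) (-z) u := by
          have h3 : HasDerivAt (fun t : ℝ => ((1 - t : ℝ) : ℂ)) (((-1 : ℝ) : ℂ)) u := by
            have := ((hasDerivAt_id u).const_sub 1).ofReal_comp
            simpa using this
          have := h3.mul_const z
          simpa using this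
        exact HasDerivAt.comp u h1 h2)
      (by
        intro u hu
        rw [norm_mul, norm_neg]
        calc ‖E (((1 - u : ℝ) : ℂ) * z) - c‖ * ‖z‖ ≤ ‖E (((1 - u : ℝ) : ℂ) * z) - c‖ * 1 :=
              mul_le_mul_of_nonneg_left hz (norm_nonneg _)
          _ ≤ _ := by rw [mul_one]; exact hb u hu)
    simpa using h3
  have hr1 : ‖e w₁ - e z₁‖ ≤ ‖c‖ * (D * ((21/19) * (20/19) - 1)) := by
    apply hrad z₁ hz1 (21/19) (by norm_num)
    intro u hu
    refine (ratio E h q hE hq w₁ _ hw1m.1 (hmem z₁ hz1 u hu.1 (hu.2.trans hD1)).1).trans ?_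
    apply mul_le_mul_of_nonneg_left _ (norm_nonneg _)
    have := h_radial h hh z₁ h1 u D hu.1 hu.2 hD1
    have := Real.exp_le_exp.mpr this
    linarith
  have hr2 : ‖e w₂ - e z₂‖ ≤ ‖c‖ * (D * ((21/19) * (10/9) * (20/19) - 1)) := by
    apply hrad z₂ hz2 ((21/19) * (10/9)) (by norm_num)
    intro u hu
    refine (ratio E h q hE hq w₁ _ hw1m.1 (hmem z₂ hz2 u hu.1 (hu.2.trans hD1)).1).trans ?_
    apply mul_le_mul_of_nonneg_left _ (norm_nonneg _)
    have h3 := h_radial h hh z₂ h2 u D hu.1 hu.2 hD1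
    have h4 := hhS w₂ hw2S
    have h5 : ‖h (((1 - u : ℝ) : ℂ) * z₂) - h w₁‖ ≤
        (1/20) * (Real.log D - Real.log u) + 1/10 := by
      have : h (((1 - u : ℝ) : ℂ) * z₂) - h w₁ =
          (h (((1 - u : ℝ) : ℂ) * z₂) - h w₂) + (h w₂ - h w₁) := by ring
      rw [this]
      exact (norm_add_le _ _).trans (add_le_add h3 h4)
    have h6 := Real.exp_le_exp.mpr h5
    rw [Real.exp_add] at h6
    have h7 : Real.exp ((1/20) * (Real.log D - Real.log u)) * Real.exp (1/10) ≤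
        Real.exp ((1/20) * (Real.log D - Real.log u)) * (10/9) :=
      mul_le_mul_of_nonneg_left hexp (Real.exp_pos _).le
    linarith
  have hfinal : f z₂ - f z₁ - c * (z₂ - z₁) =
      -(e w₂ - e z₂) + (e w₂ - e w₁) + (e w₁ - e z₁) := by
    simp only [he]; ring
  have hdd : ‖z₂ - z₁‖ = d := by rw [norm_sub_rev]
  rw [hfinal, hdd]
  refine (norm_add_le _ _).trans ?_
  refine (add_le_add_left (norm_add_le _ _) _).trans ?_
  rw [norm_neg]
  have hcd : 0 ≤ ‖c‖ * d := by positivity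
  have hDd : D = d / 2 := hD
  rw [hDd] at hr1 hr2
  nlinarith [hr1, hr2, hseg, hcd]


end Quad
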