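import Mathlib

open MeasureTheory Set Filter Topology Metric
open scoped ENNReal NNReal Real

namespace Quad


/-- A Jordan curve which is flat at `f ζ₀` compared with its arc length is not locally a
real-analytic arc there (not even if the analytic parametrisation may have vanishing
derivative). -/
theorem not_arc_gen (f : ℂ → ℂ) (hfc : ContinuousOn f (sphere 0 1)) (hfi : InjOn f (sphere 0 1))
    (ζ₀ : ℂ) (hζ₀ : ζ₀ ∈ sphere (0 : ℂ) 1)
    (hflat : ∀ ε > 0, ∃ δ > 0, ∀ ζ ∈ sphere (0 : ℂ) 1, ‖ζ - ζ₀‖ < δ →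
      ‖f ζ - f ζ₀‖ ≤ ε * ‖ζ - ζ₀‖)
    (hlen : ∃ c > 0, ∃ δ₀ > 0, ∀ δ ∈ Ioo (0 : ℝ) δ₀,
      ENNReal.ofReal (c * δ) ≤ μH[1] (f '' {ζ ∈ sphere (0 : ℂ) 1 | ‖ζ - ζ₀‖ < δ}))
    (U : Set ℂ) (hp : f ζ₀ ∈ U) :
    ¬ ∃ α : ℝ → ℂ, (∀ t ∈ Ioo (0 : ℝ) 1, AnalyticAt ℝ α t) ∧
      InjOn α (Ioo 0 1) ∧ f '' sphere 0 1 ∩ U = α '' Ioo 0 1 := by
  rintro ⟨α, hα, hinj, himg⟩
  obtain ⟨t₀, ht₀, hαt₀⟩ : f ζ₀ ∈ α '' Ioo 0 1 := himg ▸ ⟨⟨ζ₀, hζ₀, rfl⟩, hp⟩
  -- local form of `α` at `t₀`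
  have hfa : AnalyticAt ℝ (fun t => α t - α t₀) t₀ := (hα t₀ ht₀).sub analyticAt_const
  have hnz : ¬ ∀ᶠ t in 𝓝 t₀, α t - α t₀ = 0 := by
    intro hev
    have h1 : ∀ᶠ t in 𝓝[≠] t₀, t ∈ Ioo (0 : ℝ) 1 ∧ α t - α t₀ = 0 ∧ t ≠ t₀ := by
      filter_upwards [nhdsWithin_le_nhds (Ioo_mem_nhds ht₀.1 ht₀.2),
        nhdsWithin_le_nhds hev, self_mem_nhdsWithin] with t h1 h2 h3
      exact ⟨h1, h2, h3⟩
    obtain ⟨t, ht1, ht2, ht3⟩ := h1.exists
    exact ht3 (hinj ht1 ht₀ (sub_eq_zero.1 ht2))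
  obtain ⟨k, g, hg, hg0, hαg⟩ := (hfa.exists_eventuallyEq_pow_smul_nonzero_iff).2 hnz
  have hk : k ≠ 0 := by
    intro hk
    have h1 := hαg.self_of_nhds
    rw [hk] at h1
    simp at h1
    exact hg0 h1.symm
  set m0 : ℝ := ‖g t₀‖ / 2 with hm0
  have hm0pos : 0 < m0 := by have := norm_pos_iff.2 hg0; positivity
  set M1 : ℝ := k * (2 * ‖g t₀‖) + (‖deriv g t₀‖ + 1) with hM1
  have hM1pos : 0 < M1 := by positivity
  obtain ⟨δ1, hδ1, hδ11, hK01, hbd⟩ : ∃ δ1 > 0, δ1 ≤ 1 ∧ Icc (t₀ - δ1) (t₀ + δ1) ⊆ Ioo (0:ℝ) 1 ∧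
      ∀ t ∈ Icc (t₀ - δ1) (t₀ + δ1), m0 * |t - t₀| ^ k ≤ ‖α t - α t₀‖ ∧
        ∃ v : ℂ, HasDerivAt α v t ∧ ‖v‖ ≤ M1 * |t - t₀| ^ (k - 1) := by
    have e1 : ∀ᶠ t in 𝓝 t₀, m0 < ‖g t‖ :=
      (hg.continuousAt.norm).eventually_const_lt (by rw [hm0]; linarith [norm_pos_iff.2 hg0])
    have e2 : ∀ᶠ t in 𝓝 t₀, ‖g t‖ < 2 * ‖g t₀‖ :=
      (hg.continuousAt.norm).eventually_lt_const (by linarith [norm_pos_iff.2 hg0])
    have e3 : ∀ᶠ t in 𝓝 t₀, ‖deriv g t‖ < ‖deriv g t₀‖ + 1 :=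
      (hg.deriv.continuousAt.norm).eventually_lt_const (by linarith)
    have e4 : ∀ᶠ t in 𝓝 t₀, AnalyticAt ℝ g t := hg.eventually_analyticAt
    have e5 : ∀ᶠ t in 𝓝 t₀, ∀ᶠ u in 𝓝 t, α u - α t₀ = (u - t₀) ^ k • g u :=
      eventually_eventually_nhds.2 hαg
    have h4 := (e1.and (e2.and (e3.and (e4.and (e5.and (Ioo_mem_nhds ht₀.1 ht₀.2))))))
    obtain ⟨e, he, hb⟩ := Metric.nhds_basis_closedBall.mem_iff.mp h4
    rw [Real.closedBall_eq_Icc] at hb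
    have hsub : Icc (t₀ - min e 1) (t₀ + min e 1) ⊆ Icc (t₀ - e) (t₀ + e) :=
      Icc_subset_Icc (by linarith [min_le_left e 1]) (by linarith [min_le_left e 1])
    refine ⟨min e 1, lt_min he one_pos, min_le_right _ _, fun x hx => (hb (hsub hx)).2.2.2.2.2, ?_⟩
    intro t ht
    obtain ⟨f1, f2, f3, f4, f5, f6⟩ := hb (hsub ht)
    have hle1 : |t - t₀| ≤ 1 := by
      rw [abs_le]
      have := min_le_right e (1 : ℝ)
      exact ⟨by linarith [ht.1], by linarith [ht.2]⟩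
    constructor
    · rw [f5.self_of_nhds, norm_smul, norm_pow, Real.norm_eq_abs, mul_comm]
      apply mul_le_mul_of_nonneg_left f1.le (by positivity)
    · have hdg : HasDerivAt g (deriv g t) t := f4.differentiableAt.hasDerivAt
      have hdp : HasDerivAt (fun u : ℝ => (u - t₀) ^ k) (k * (t - t₀) ^ (k - 1)) t := by
        have := ((hasDerivAt_id t).sub_const t₀).fun_pow k
        simpa using this
      have hdd := hdp.smul hdg
      have hda : HasDerivAt (fun u => α u - α t₀)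
          ((t - t₀) ^ k • deriv g t + (k * (t - t₀) ^ (k - 1)) • g t) t := by
        exact hdd.congr_of_eventuallyEq f5
      have hda' : HasDerivAt α
          ((t - t₀) ^ k • deriv g t + (k * (t - t₀) ^ (k - 1)) • g t) t := by
        have := hda.add_const (α t₀)
        simpa using this
      refine ⟨_, hda', ?_⟩
      have hpow : |t - t₀| ^ k ≤ |t - t₀| ^ (k - 1) :=
        pow_le_pow_of_le_one (abs_nonneg _) hle1 (Nat.sub_le k 1)
      calc ‖(t - t₀) ^ k • deriv g t + (k * (t - t₀) ^ (k - 1)) • g t‖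
          ≤ ‖(t - t₀) ^ k • deriv g t‖ + ‖(k * (t - t₀) ^ (k - 1)) • g t‖ := norm_add_le _ _
        _ = |t - t₀| ^ k * ‖deriv g t‖ + k * |t - t₀| ^ (k - 1) * ‖g t‖ := by
            rw [norm_smul, norm_smul, norm_pow, norm_mul, norm_pow, Real.norm_eq_abs,
              Real.norm_natCast]
        _ ≤ |t - t₀| ^ (k - 1) * (‖deriv g t₀‖ + 1) + k * |t - t₀| ^ (k - 1) * (2 * ‖g t₀‖) := by
            gcongr
        _ = M1 * |t - t₀| ^ (k - 1) := by rw [hM1]; ring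
  -- the inverse of `f`
  let F : sphere (0:ℂ) 1 → ℂ := fun z => f z
  have hFc : Continuous F := continuousOn_iff_continuous_domRestrict.mp hfc
  have hFi : Function.Injective F := fun x y h => Subtype.ext (hfi x.2 y.2 h)
  have hFe : IsClosedEmbedding F := hFc.isClosedEmbedding hFi
  let e := hFe.isEmbedding.toHomeomorph
  have hrange : range F = f '' sphere 0 1 := by
    ext z; constructor
    · rintro ⟨x, rfl⟩; exact ⟨x, x.2, rfl⟩
    · rintro ⟨x, hx, rfl⟩; exact ⟨⟨x, hx⟩, rfl⟩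
  have hαr : ∀ t ∈ Icc (t₀ - δ1) (t₀ + δ1), α t ∈ range F := by
    intro t ht
    rw [hrange]
    have : α t ∈ f '' sphere 0 1 ∩ U := himg ▸ ⟨t, hK01 ht, rfl⟩
    exact this.1
  have hαc : ContinuousOn α (Icc (t₀ - δ1) (t₀ + δ1)) := fun t ht =>
    ((hα t (hK01 ht)).continuousAt).continuousWithinAt
  obtain ⟨β, hβc, hβs, hβf⟩ : ∃ β : ℝ → ℂ, ContinuousOn β (Icc (t₀ - δ1) (t₀ + δ1)) ∧
      (∀ t ∈ Icc (t₀ - δ1) (t₀ + δ1), β t ∈ sphere (0:ℂ) 1) ∧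
      (∀ t ∈ Icc (t₀ - δ1) (t₀ + δ1), f (β t) = α t) := by
    classical
    let β : ℝ → ℂ := fun t => if h : t ∈ Icc (t₀ - δ1) (t₀ + δ1) then (e.symm ⟨α t, hαr t h⟩ : ℂ) else 0
    refine ⟨β, ?_, ?_, ?_⟩
    · rw [continuousOn_iff_continuous_domRestrict]
      have : (Icc (t₀ - δ1) (t₀ + δ1)).domRestrict β =
          fun t : Icc (t₀ - δ1) (t₀ + δ1) => (e.symm ⟨α t, hαr t t.2⟩ : ℂ) := by
        funext t
        simp only [domRestrict_apply, β]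
        rw [dif_pos t.2]
      rw [this]
      refine continuous_subtype_val.comp (e.symm.continuous.comp ?_)
      exact Continuous.subtype_mk (continuousOn_iff_continuous_domRestrict.mp hαc) _
    · intro t ht
      simp only [β]; rw [dif_pos ht]; exact (e.symm ⟨α t, hαr t ht⟩).2
    · intro t ht
      simp only [β]; rw [dif_pos ht]
      have h := e.apply_symm_apply ⟨α t, hαr t ht⟩
      have h2 := congrArg Subtype.val h
      exact h2
  have htc : t₀ ∈ Icc (t₀ - δ1) (t₀ + δ1) := ⟨by linarith, by linarith⟩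
  have hβ0 : β t₀ = ζ₀ := hfi (hβs t₀ htc) hζ₀ (by rw [hβf t₀ htc, hαt₀])
  have hn0 : ‖ζ₀‖ = 1 := by simpa using hζ₀
  have hζne : ζ₀ ≠ 0 := by intro h; rw [h] at hn0; simp at hn0
  -- local angle
  obtain ⟨δ2, hδ2, hδ21, hre⟩ : ∃ δ2 > 0, δ2 ≤ δ1 ∧ ∀ t ∈ Icc (t₀ - δ2) (t₀ + δ2), β t / ζ₀ ∈ Complex.slitPlane := by
    have hc : ContinuousWithinAt (fun t => β t / ζ₀) (Icc (t₀ - δ1) (t₀ + δ1)) t₀ :=
      (hβc t₀ htc).div_const _
    have hc2 : ContinuousAt (fun t => β t / ζ₀) t₀ :=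
      hc.continuousAt (Icc_mem_nhds (by linarith) (by linarith))
    have hv : β t₀ / ζ₀ ∈ Complex.slitPlane := by
      rw [hβ0, div_self hζne]; exact Complex.one_mem_slitPlane
    have hev := hc2.preimage_mem_nhds (Complex.isOpen_slitPlane.mem_nhds hv)
    obtain ⟨r, hr, hrb⟩ := Metric.nhds_basis_closedBall.mem_iff.mp hev
    rw [Real.closedBall_eq_Icc] at hrb
    refine ⟨min r δ1, lt_min hr hδ1, min_le_right _ _, fun t ht => hrb ⟨?_, ?_⟩⟩
    · have := ht.1; have h2 := min_le_left r δ1; linarith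
    · have := ht.2; have h2 := min_le_left r δ1; linarith
  have hsub : Icc (t₀ - δ2) (t₀ + δ2) ⊆ Icc (t₀ - δ1) (t₀ + δ1) :=
    Icc_subset_Icc (by linarith) (by linarith)
  let b : ℝ → ℝ := fun t => Complex.arg (β t / ζ₀)
  have hbc : ContinuousOn b (Icc (t₀ - δ2) (t₀ + δ2)) := by
    intro t ht
    have h1 : ContinuousWithinAt (fun x => β x / ζ₀) (Icc (t₀ - δ2) (t₀ + δ2)) t :=
      ((hβc t (hsub ht)).div_const _).mono hsub
    exact ContinuousAt.comp_continuousWithinAt (g := Complex.arg) (f := fun x => β x / ζ₀)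
      (Complex.continuousAt_arg (hre t ht)) h1
  have hbn : ∀ t ∈ Icc (t₀ - δ2) (t₀ + δ2), ‖β t / ζ₀‖ = 1 := by
    intro t ht
    have := hβs t (hsub ht)
    rw [norm_div, hn0, div_one]; simpa using this
  have hbi : InjOn b (Icc (t₀ - δ2) (t₀ + δ2)) := by
    intro s hs t ht hst
    have h1 : β s / ζ₀ = β t / ζ₀ := Complex.ext_norm_arg (by rw [hbn s hs, hbn t ht]) hst
    have h2 : β s = β t := by field_simp at h1; exact h1
    exact hinj (hK01 (hsub hs)) (hK01 (hsub ht)) (by rw [← hβf s (hsub hs), ← hβf t (hsub ht), h2])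
  have hb0 : b t₀ = 0 := by simp only [b]; rw [hβ0, div_self hζne]; simp
  have htc2 : t₀ ∈ Icc (t₀ - δ2) (t₀ + δ2) := ⟨by linarith, by linarith⟩
  obtain ⟨m, hm, hmb⟩ : ∃ m > 0, ∀ θ : ℝ, |θ| < m → ∃ t ∈ Icc (t₀ - δ2) (t₀ + δ2), b t = θ := by
    have hle : t₀ - δ2 ≤ t₀ + δ2 := by linarith
    have hl : t₀ - δ2 ∈ Icc (t₀ - δ2) (t₀ + δ2) := ⟨le_refl _, hle⟩
    have hr : t₀ + δ2 ∈ Icc (t₀ - δ2) (t₀ + δ2) := ⟨hle, le_refl _⟩
    rcases hbc.strictMonoOn_of_injOn_Icc' hle hbi with h | h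
    · have h1 := h hl htc2 (by linarith); have h2 := h htc2 hr (by linarith)
      rw [hb0] at h1 h2
      refine ⟨min (-b (t₀ - δ2)) (b (t₀ + δ2)), lt_min (by linarith) h2, fun θ hθ => ?_⟩
      have h3 := abs_lt.mp hθ
      have h4 := min_le_left (-b (t₀ - δ2)) (b (t₀ + δ2))
      have h5 := min_le_right (-b (t₀ - δ2)) (b (t₀ + δ2))
      exact intermediate_value_Icc hle hbc ⟨by linarith, by linarith⟩
    · have h1 := h hl htc2 (by linarith); have h2 := h htc2 hr (by linarith)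
      rw [hb0] at h1 h2
      refine ⟨min (b (t₀ - δ2)) (-b (t₀ + δ2)), lt_min h1 (by linarith), fun θ hθ => ?_⟩
      have h3 := abs_lt.mp hθ
      have h4 := min_le_left (b (t₀ - δ2)) (-b (t₀ + δ2))
      have h5 := min_le_right (b (t₀ - δ2)) (-b (t₀ + δ2))
      exact intermediate_value_Icc' hle hbc ⟨by linarith, by linarith⟩
  obtain ⟨η, hη, hηb⟩ : ∃ η > 0, ∀ ζ : ℂ, ‖ζ - ζ₀‖ < η → |Complex.arg (ζ / ζ₀)| < m := by
    have hc : ContinuousAt (fun ζ : ℂ => Complex.arg (ζ / ζ₀)) ζ₀ := by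
      have hs : ζ₀ / ζ₀ ∈ Complex.slitPlane := by
        rw [div_self hζne]; exact Complex.one_mem_slitPlane
      exact ContinuousAt.comp (g := Complex.arg) (f := fun ζ : ℂ => ζ / ζ₀) (Complex.continuousAt_arg hs) (continuousAt_id.div_const _)
    have h0 : Complex.arg (ζ₀ / ζ₀) = 0 := by rw [div_self hζne]; simp
    obtain ⟨η, hη, h⟩ := Metric.continuousAt_iff.mp hc m hm
    refine ⟨η, hη, fun ζ hζ => ?_⟩
    have := h (x := ζ) (by rw [dist_eq_norm]; exact hζ)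
    rw [h0, Real.dist_eq, sub_zero] at this
    exact this
  have hpar : ∀ ζ ∈ sphere (0:ℂ) 1, ‖ζ - ζ₀‖ < η → ∃ t ∈ Icc (t₀ - δ1) (t₀ + δ1), f ζ = α t := by
    intro ζ hζ hζη
    obtain ⟨t, ht, hbt⟩ := hmb _ (hηb ζ hζη)
    refine ⟨t, hsub ht, ?_⟩
    have h1 : β t / ζ₀ = ζ / ζ₀ := Complex.ext_norm_arg (by
      rw [hbn t ht, norm_div, hn0, div_one]; simpa using hζ.symm) hbt
    have h2 : β t = ζ := by field_simp at h1; exact h1
    rw [← hβf t (hsub ht), h2]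
  -- measure estimate
  obtain ⟨c, hc, δ₀, hδ₀, hlen⟩ := hlen
  set ε : ℝ := c * m0 / (4 * M1) with hε
  have hεpos : 0 < ε := by positivity
  obtain ⟨δf, hδf, hfl⟩ := hflat ε hεpos
  set δ := min (min δf η) δ₀ / 2 with hδdef
  have hmin : 0 < min (min δf η) δ₀ := lt_min (lt_min hδf hη) hδ₀
  have hδpos : 0 < δ := by positivity
  have hδlt : δ < min (min δf η) δ₀ := by rw [hδdef]; linarith
  have hδ1' : δ < δf := lt_of_lt_of_le hδlt ((min_le_left _ _).trans (min_le_left _ _))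
  have hδ2' : δ < η := lt_of_lt_of_le hδlt ((min_le_left _ _).trans (min_le_right _ _))
  have hδ3' : δ < δ₀ := lt_of_lt_of_le hδlt (min_le_right _ _)
  set h : ℝ := (ε * δ / m0) ^ ((1 : ℝ) / k) with hh
  have hqpos : 0 < ε * δ / m0 := by positivity
  have hhpos : 0 < h := Real.rpow_pos_of_pos hqpos _
  have hhk : h ^ k = ε * δ / m0 := by
    rw [hh, ← Real.rpow_natCast, ← Real.rpow_mul hqpos.le]
    have : (k : ℝ) ≠ 0 := by exact_mod_cast hk
    rw [one_div, inv_mul_cancel₀ this, Real.rpow_one]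
  have hsubset : f '' {ζ ∈ sphere (0 : ℂ) 1 | ‖ζ - ζ₀‖ < δ} ⊆
      α '' (Icc (t₀ - δ1) (t₀ + δ1) ∩ Icc (t₀ - h) (t₀ + h)) := by
    rintro _ ⟨ζ, ⟨hζ, hζδ⟩, rfl⟩
    obtain ⟨t, ht, hft⟩ := hpar ζ hζ (hζδ.trans hδ2')
    refine ⟨t, ⟨ht, ?_⟩, hft.symm⟩
    have h1 := hfl ζ hζ (hζδ.trans hδ1')
    have h2 := (hbd t ht).1
    rw [hft, ← hαt₀] at h1
    have h3 : m0 * |t - t₀| ^ k ≤ ε * δ := h2.trans (h1.trans (by
      apply mul_le_mul_of_nonneg_left hζδ.le; positivity))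
    have h4 : |t - t₀| ^ k ≤ h ^ k := by
      rw [hhk, le_div_iff₀ hm0pos]; linarith
    have h5 : |t - t₀| ≤ h := le_of_pow_le_pow_left₀ hk hhpos.le h4
    rw [abs_le] at h5
    exact ⟨by linarith, by linarith⟩
  have hmeas : μH[1] (f '' {ζ ∈ sphere (0 : ℂ) 1 | ‖ζ - ζ₀‖ < δ}) ≤ ENNReal.ofReal (c / 2 * δ) := by
    have hL : LipschitzOnWith (Real.toNNReal (M1 * h ^ (k - 1))) α
        (Icc (t₀ - δ1) (t₀ + δ1) ∩ Icc (t₀ - h) (t₀ + h)) := by
      have hconv : Convex ℝ (Icc (t₀ - δ1) (t₀ + δ1) ∩ Icc (t₀ - h) (t₀ + h)) :=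
        (convex_Icc _ _).inter (convex_Icc _ _)
      choose! v hv1 hv2 using fun t ht => (hbd t ht).2
      have hpos : 0 ≤ M1 * h ^ (k - 1) := by positivity
      apply LipschitzOnWith.of_dist_le_mul
      intro s hs t ht
      rw [Real.coe_toNNReal _ hpos, dist_eq_norm, dist_eq_norm]
      refine Convex.norm_image_sub_le_of_norm_hasDerivWithin_le (f' := v)
        (fun x hx => (hv1 x hx.1).hasDerivWithinAt) ?_ hconv ht hs
      intro x hx
      refine (hv2 x hx.1).trans ?_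
      apply mul_le_mul_of_nonneg_left _ hM1pos.le
      apply pow_le_pow_left₀ (abs_nonneg _)
      rw [abs_le]
      exact ⟨by linarith [hx.2.1], by linarith [hx.2.2]⟩
    calc μH[1] (f '' {ζ ∈ sphere (0 : ℂ) 1 | ‖ζ - ζ₀‖ < δ})
        ≤ μH[1] (α '' (Icc (t₀ - δ1) (t₀ + δ1) ∩ Icc (t₀ - h) (t₀ + h))) := measure_mono hsubset
      _ ≤ (Real.toNNReal (M1 * h ^ (k - 1)) : ℝ≥0∞) ^ (1:ℝ) *
            μH[1] (Icc (t₀ - δ1) (t₀ + δ1) ∩ Icc (t₀ - h) (t₀ + h)) :=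
          hL.hausdorffMeasure_image_le zero_le_one
      _ ≤ (Real.toNNReal (M1 * h ^ (k - 1)) : ℝ≥0∞) ^ (1:ℝ) * μH[1] (Icc (t₀ - h) (t₀ + h)) := by
          gcongr; exact inter_subset_right
      _ = ENNReal.ofReal (c / 2 * δ) := by
          rw [ENNReal.rpow_one, hausdorffMeasure_real, Real.volume_Icc]
          have : (↑(Real.toNNReal (M1 * h ^ (k - 1))) : ℝ≥0∞)
            = ENNReal.ofReal (M1 * h ^ (k - 1)) := rfl
          rw [this, ← ENNReal.ofReal_mul (by positivity)]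
          congr 1
          have h6 : h ^ (k - 1) * h = h ^ k := by
            rw [← pow_succ]; congr 1; omega
          have h7 : M1 * h ^ (k - 1) * (t₀ + h - (t₀ - h)) = 2 * M1 * (h ^ (k - 1) * h) := by ring
          rw [h7, h6, hhk, hε]
          field_simp
          ring
  have hge := hlen δ ⟨hδpos, hδ3'⟩
  have hfin := hge.trans hmeas
  rw [ENNReal.ofReal_le_ofReal_iff (by positivity)] at hfin
  nlinarith [mul_pos hc hδpos]

end Quad
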