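import Mathlib

open MeasureTheory Set Filter Topology Metric
open scoped ENNReal NNReal Real ComplexConjugate

namespace Quad

theorem G_facts (G : ℕ → ℂ) (hG0 : G 0 = 1) (hG : Summable (fun n => ‖G n‖))
    (hG1 : ∑' n, ‖G (n + 1)‖ ≤ 1 / 50) :
    ContinuousOn (fun z : ℂ => ∑' n, G n * z ^ n) (closedBall 0 1) ∧
      ∀ z ∈ closedBall (0 : ℂ) 1, ‖(∑' n, G n * z ^ n) - 1‖ ≤ 1 / 50 := by
  have hle : ∀ n, ∀ z ∈ closedBall (0 : ℂ) 1, ‖G n * z ^ n‖ ≤ ‖G n‖ := by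
    intro n z hz
    rw [mem_closedBall, dist_zero_right] at hz
    rw [norm_mul, norm_pow]
    exact mul_le_of_le_one_right (norm_nonneg _) (pow_le_one₀ (norm_nonneg _) hz)
  constructor
  · exact continuousOn_tsum (fun n => by fun_prop) hG hle
  · intro z hz
    have hs : Summable (fun n => G n * z ^ n) := Summable.of_norm_bounded hG (fun n => hle n z hz)
    have h1 : (∑' n, G n * z ^ n) = 1 + ∑' n, G (n + 1) * z ^ (n + 1) := by
      rw [hs.tsum_eq_zero_add]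
      simp [hG0]
    rw [h1, add_sub_cancel_left]
    have hs1 : Summable (fun n => ‖G (n + 1)‖) := (summable_nat_add_iff 1).2 hG
    calc ‖∑' n, G (n + 1) * z ^ (n + 1)‖ ≤ ∑' n, ‖G (n + 1)‖ :=
          tsum_of_norm_bounded hs1.hasSum (fun n => hle (n + 1) z hz)
      _ ≤ 1 / 50 := hG1

theorem phi_prod (s G φ : ℕ → ℂ) (S : ℂ → ℂ)
    (hs : ∀ z ∈ ball (0 : ℂ) 1, HasSum (fun n => s n * z ^ n) (S z))
    (hs1 : ∀ n, ‖s n‖ ≤ 1)
    (hG : Summable (fun n => ‖G n‖))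
    (hφ : ∀ n, φ n = ∑ p ∈ Finset.HasAntidiagonal.antidiagonal n, s p.1 *
      ∑ q ∈ Finset.HasAntidiagonal.antidiagonal p.2, G q.1 * G q.2)
    (z : ℂ) (hz : z ∈ ball (0 : ℂ) 1) :
    ∑' n, φ n * z ^ n = S z * (∑' n, G n * z ^ n) ^ 2 := by
  have hz1 : ‖z‖ < 1 := by simpa using hz
  have hsn : Summable (fun n => ‖s n * z ^ n‖) := by
    refine Summable.of_nonneg_of_le (fun n => norm_nonneg _) (fun n => ?_)
      (summable_geometric_of_lt_one (norm_nonneg z) hz1)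
    rw [norm_mul, norm_pow]
    exact mul_le_of_le_one_left (by positivity) (hs1 n)
  have hGn : Summable (fun n => ‖G n * z ^ n‖) := by
    refine Summable.of_nonneg_of_le (fun n => norm_nonneg _) (fun n => ?_) hG
    rw [norm_mul, norm_pow]
    exact mul_le_of_le_one_right (norm_nonneg _) (pow_le_one₀ (norm_nonneg _) hz1.le)
  have hGG : (∑' n, G n * z ^ n) * (∑' n, G n * z ^ n)
      = ∑' n, (∑ q ∈ Finset.HasAntidiagonal.antidiagonal n, G q.1 * G q.2) * z ^ n := by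
    rw [tsum_mul_tsum_eq_tsum_sum_antidiagonal_of_summable_norm hGn hGn]
    congr 1
    ext n
    rw [Finset.sum_mul]
    apply Finset.sum_congr rfl
    intro q hq
    rw [Finset.HasAntidiagonal.mem_antidiagonal] at hq
    rw [← hq, pow_add]
    ring
  have hGGn : Summable (fun n => ‖(∑ q ∈ Finset.HasAntidiagonal.antidiagonal n, G q.1 * G q.2) * z ^ n‖) := by
    have h1 := summable_norm_sum_mul_antidiagonal_of_summable_norm hGn hGn
    refine h1.congr (fun n => ?_)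
    congr 1
    rw [Finset.sum_mul]
    apply Finset.sum_congr rfl
    intro q hq
    rw [Finset.HasAntidiagonal.mem_antidiagonal] at hq
    rw [← hq, pow_add]
    ring
  rw [sq, hGG, ← (hs z hz).tsum_eq,
    tsum_mul_tsum_eq_tsum_sum_antidiagonal_of_summable_norm hsn hGGn]
  congr 1
  ext n
  rw [hφ n, Finset.sum_mul]
  apply Finset.sum_congr rfl
  intro q hq
  rw [Finset.HasAntidiagonal.mem_antidiagonal] at hq
  rw [← hq, pow_add]
  ring

theorem f_facts (φ : ℕ → ℂ) (hφ : Summable (fun n => ‖φ n‖ ^ 2)) :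
    ContinuousOn (fun z : ℂ => ∑' n : ℕ, φ n / ((n : ℂ) + 1) * z ^ (n + 1)) (closedBall 0 1) ∧
    ∀ z ∈ ball (0 : ℂ) 1,
      HasDerivAt (fun z : ℂ => ∑' n : ℕ, φ n / ((n : ℂ) + 1) * z ^ (n + 1))
        (∑' n, φ n * z ^ n) z := by
  have hnorm : ∀ n : ℕ, ‖(n : ℂ) + 1‖ = (n : ℝ) + 1 := by
    intro n
    have : ((n : ℂ) + 1) = (((n : ℝ) + 1 : ℝ) : ℂ) := by push_cast; rfl
    rw [this, Complex.norm_real, Real.norm_of_nonneg (by positivity)]
  have hsum : Summable (fun n : ℕ => ‖φ n‖ / ((n : ℝ) + 1)) := by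
    have h2 : Summable (fun n : ℕ => 1 / ((n : ℝ) + 1) ^ 2) := by
      have := (summable_nat_add_iff 1).2 (Real.summable_one_div_nat_pow.2 (one_lt_two))
      simpa using this
    refine Summable.of_nonneg_of_le (fun n => by positivity) (fun n => ?_) (hφ.add h2)
    have h3 : 0 ≤ (‖φ n‖ - 1 / ((n : ℝ) + 1)) ^ 2 := sq_nonneg _
    have h4 : ‖φ n‖ / ((n : ℝ) + 1) = ‖φ n‖ * (1 / ((n : ℝ) + 1)) := by ring
    have h5 : 1 / ((n : ℝ) + 1) ^ 2 = (1 / ((n : ℝ) + 1)) ^ 2 := by rw [one_div_pow]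
    rw [h4, h5]
    nlinarith [sq_nonneg (‖φ n‖), sq_nonneg (1 / ((n : ℝ) + 1))]
  have hle : ∀ n : ℕ, ∀ z ∈ closedBall (0 : ℂ) 1,
      ‖φ n / ((n : ℂ) + 1) * z ^ (n + 1)‖ ≤ ‖φ n‖ / ((n : ℝ) + 1) := by
    intro n z hz
    rw [mem_closedBall, dist_zero_right] at hz
    rw [norm_mul, norm_pow, norm_div, hnorm]
    exact mul_le_of_le_one_right (by positivity) (pow_le_one₀ (norm_nonneg _) hz)
  refine ⟨continuousOn_tsum (fun n => by fun_prop) hsum hle, ?_⟩
  intro z hz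
  have hz1 : ‖z‖ < 1 := by simpa using hz
  obtain ⟨r, hr1, hr2⟩ := exists_between hz1
  have hr0 : 0 ≤ r := (norm_nonneg z).trans hr1.le
  -- bound on φ
  have hφb : ∀ n, ‖φ n‖ ≤ 1 + ‖φ n‖ ^ 2 := by
    intro n
    nlinarith [sq_nonneg (‖φ n‖ - 1), norm_nonneg (φ n)]
  have hu : Summable (fun n : ℕ => ‖φ n‖ * r ^ n) := by
    have h1 : Summable (fun n : ℕ => r ^ n + ‖φ n‖ ^ 2) :=
      (summable_geometric_of_lt_one hr0 hr2).add hφ
    refine Summable.of_nonneg_of_le (fun n => by positivity) (fun n => ?_) h1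
    have h2 : r ^ n ≤ 1 := pow_le_one₀ hr0 hr2.le
    have h3 : 0 ≤ r ^ n := by positivity
    calc ‖φ n‖ * r ^ n ≤ (1 + ‖φ n‖ ^ 2) * r ^ n := by
          apply mul_le_mul_of_nonneg_right (hφb n) h3
      _ = r ^ n + ‖φ n‖ ^ 2 * r ^ n := by ring
      _ ≤ r ^ n + ‖φ n‖ ^ 2 * 1 := by gcongr
      _ = r ^ n + ‖φ n‖ ^ 2 := by ring
  have key := hasDerivAt_tsum_of_isPreconnected (𝕜 := ℂ) (F := ℂ) (u := fun n : ℕ => ‖φ n‖ * r ^ n)
    (g := fun (n : ℕ) (z : ℂ) => φ n / ((n : ℂ) + 1) * z ^ (n + 1))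
    (g' := fun (n : ℕ) (z : ℂ) => φ n * z ^ n) (t := ball (0 : ℂ) r) (y₀ := z) (y := z)
    hu isOpen_ball (convex_ball _ _).isPreconnected ?_ ?_ (by simpa using hr1) ?_ (by simpa using hr1)
  · exact key
  · intro n y _
    have h1 := (hasDerivAt_pow (n + 1) y).const_mul (φ n / ((n : ℂ) + 1))
    have : ((n : ℂ) + 1) ≠ 0 := by
      intro h
      have h2 := hnorm n
      rw [h, norm_zero] at h2
      have : (0 : ℝ) ≤ n := by positivity
      linarith
    have h3 : φ n / ((n : ℂ) + 1) * (((n + 1 : ℕ) : ℂ) * y ^ (n + 1 - 1)) = φ n * y ^ n := by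
      push_cast
      field_simp
    rw [h3] at h1
    exact h1
  · intro n y hy
    rw [mem_ball, dist_zero_right] at hy
    rw [norm_mul, norm_pow]
    gcongr
  · exact Summable.of_norm_bounded hsum (fun n => hle n z (ball_subset_closedBall hz))

end Quad
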