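import Mathlib
import Pool.Agent.Helper123.Quad.Geom
import Pool.Agent.Helper123.Quad.Series
import Pool.Agent.Helper123.Quad.KeyEstimate
import Pool.Agent.Helper123.Quad.ArcMeasure
import Pool.Agent.Helper123.Quad.NotArcGen
import Pool.Agent.Helper123.Quad.AreaCircle

open MeasureTheory Set Filter Topology Metric
open scoped ENNReal NNReal Real ComplexConjugate

namespace Quad

theorem norm_exp_sub_le (a b : ℝ) :
    ‖Complex.exp (a * Complex.I) - Complex.exp (b * Complex.I)‖ ≤ |a - b| := by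
  have h1 : Complex.exp (a * Complex.I) - Complex.exp (b * Complex.I)
      = Complex.exp (b * Complex.I) * (Complex.exp (Complex.I * ((a - b : ℝ) : ℂ)) - 1) := by
    rw [mul_sub, ← Complex.exp_add, mul_one]
    congr 2
    push_cast
    ring
  rw [h1, norm_mul, Complex.norm_exp_ofReal_mul_I, one_mul]
  simpa using Real.norm_exp_I_mul_ofReal_sub_one_le (x := a - b)

theorem exp_injOn : InjOn (fun t : ℝ => Complex.exp (t * Complex.I)) (Ico 0 (2 * π)) := by
  intro a ha b hb hab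
  simp only at hab
  rw [Complex.exp_eq_exp_iff_exists_int] at hab
  obtain ⟨n, hn⟩ := hab
  have h1 : (a : ℂ) = b + n * (2 * π) := by
    have h2 : (a : ℂ) * Complex.I = (b + n * (2 * π)) * Complex.I := by
      rw [hn]; ring
    exact mul_right_cancel₀ Complex.I_ne_zero h2
  have h3 : a = b + n * (2 * π) := by exact_mod_cast h1
  have hpi := Real.pi_pos
  have h4 : (n : ℝ) < 1 := by
    by_contra h
    push Not at h
    have : (1 : ℝ) * (2 * π) ≤ n * (2 * π) := by gcongr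
    linarith [ha.1, ha.2, hb.1, hb.2]
  have h5 : (-1 : ℝ) < n := by
    by_contra h
    push Not at h
    have : (n : ℝ) * (2 * π) ≤ (-1) * (2 * π) := by gcongr
    linarith [ha.1, ha.2, hb.1, hb.2]
  have h6 : n = 0 := by
    have h7 : n < 1 := by exact_mod_cast h4
    have h8 : -1 < n := by exact_mod_cast h5
    omega
  rw [h6] at h3
  simpa using h3

theorem exp_image : (fun t : ℝ => Complex.exp (t * Complex.I)) '' (Ico 0 (2 * π))
    = sphere (0 : ℂ) 1 := by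
  ext z
  constructor
  · rintro ⟨t, _, rfl⟩
    simp [Complex.norm_exp_ofReal_mul_I]
  · intro hz
    rw [mem_sphere, dist_zero_right] at hz
    have h1 : z = Complex.exp (Complex.arg z * Complex.I) := by
      have := Complex.norm_mul_exp_arg_mul_I z
      rw [hz] at this
      simpa using this.symm
    have hpi := Real.pi_pos
    by_cases h : 0 ≤ Complex.arg z
    · refine ⟨Complex.arg z, ⟨h, ?_⟩, h1.symm⟩
      linarith [Complex.arg_le_pi z]
    · push Not at h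
      refine ⟨Complex.arg z + 2 * π, ⟨?_, ?_⟩, ?_⟩
      · linarith [Complex.neg_pi_lt_arg z]
      · linarith
      · simp only
        rw [h1]
        have : ((Complex.arg (Complex.exp (Complex.arg z * Complex.I)) + 2 * π : ℝ) : ℂ) * Complex.I
            = (Complex.arg z : ℂ) * Complex.I + 2 * π * Complex.I := by
          rw [← h1]; push_cast; ring
        rw [this, Complex.exp_periodic]

theorem det_mul_complex (c : ℂ) :
    (((ContinuousLinearMap.toSpanSingleton ℂ c).restrictScalars ℝ : ℂ →L[ℝ] ℂ)).det = ‖c‖ ^ 2 := by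
  rw [← Complex.normSq_eq_norm_sq, ← Algebra.norm_complex_apply, Algebra.norm_apply,
    ContinuousLinearMap.det]
  congr 1
  ext <;> simp [mul_comm]

/-- The final assembly: from the inner function `S = exp (-h)` and the fixed point `G`, `φ`, `c`
to the domain. -/
theorem assemble (S h : ℂ → ℂ) (s : ℕ → ℂ) (Θ : Set ℝ) (ζ₁ : ℂ) (G φ : ℕ → ℂ) (c : ℝ)
    (hs : ∀ z ∈ ball (0 : ℂ) 1, HasSum (fun n => s n * z ^ n) (S z))
    (hs1 : ∀ n, ‖s n‖ ≤ 1)
    (hS1 : ∀ z ∈ ball (0 : ℂ) 1, ‖S z‖ ≤ 1)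
    (hSh : ∀ z ∈ ball (0 : ℂ) 1, S z = Complex.exp (-(h z)))
    (hh : ∀ z ∈ ball (0 : ℂ) 1, ∃ h' : ℂ, HasDerivAt h h' z ∧ ‖h'‖ ≤ (1 / 20) / (1 - ‖z‖))
    (hΘ : MeasurableSet Θ) (hΘc : volume Θᶜ = 0)
    (hSlim : ∀ θ ∈ Θ, ∃ v : ℂ, ‖v‖ = 1 ∧
        Tendsto S (𝓝[ball 0 1] (Complex.exp (θ * Complex.I))) (𝓝 v))
    (hζ₁ : ‖ζ₁‖ = 1) (hS0 : Tendsto (fun r : ℝ => S (r * ζ₁)) (𝓝[<] 1) (𝓝 0))
    (hc : 0 < c) (hG0 : G 0 = 1) (hG : Summable (fun n => ‖G n‖))
    (hG1 : ∑' n, ‖G (n + 1)‖ ≤ 1 / 50)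
    (hφ : Summable (fun n => ‖φ n‖ ^ 2))
    (hφ' : ∀ n, φ n = ∑ p ∈ Finset.HasAntidiagonal.antidiagonal n, s p.1 *
      ∑ q ∈ Finset.HasAntidiagonal.antidiagonal p.2, G q.1 * G q.2)
    (hid : ∀ n : ℕ, (2 * c : ℂ) * ∑' k, G k * conj (G (k + n))
        = ∑' k, φ k * conj (φ (k + n)) / ((k : ℂ) + n + 1)) :
    ∃ f : ℂ → ℂ, ContinuousOn f (closedBall 0 1) ∧ InjOn f (closedBall 0 1) ∧
      DifferentiableOn ℂ f (ball 0 1) ∧
      IsOpen (f '' ball 0 1) ∧ IsConnected (f '' ball 0 1) ∧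
      Bornology.IsBounded (f '' ball 0 1) ∧
      frontier (f '' ball 0 1) = f '' sphere 0 1 ∧
      0 < μH[1] (frontier (f '' ball 0 1)) ∧
      μH[1] (frontier (f '' ball 0 1)) < ⊤ ∧
      (∀ F : ℂ → ℂ, ContinuousOn F (closure (f '' ball 0 1)) →
        DifferentiableOn ℂ F (f '' ball 0 1) →
        (volume (f '' ball 0 1)).toReal⁻¹ * ∫ z in f '' ball 0 1, (F z).re
          = (μH[1] (frontier (f '' ball 0 1))).toReal⁻¹ *
            ∫ z in frontier (f '' ball 0 1), (F z).re ∂μH[1]) ∧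
      ∃ p ∈ frontier (f '' ball 0 1), ∀ U : Set ℂ, IsOpen U → p ∈ U →
        ¬ ∃ α : ℝ → ℂ, (∀ t ∈ Ioo (0 : ℝ) 1, AnalyticAt ℝ α t) ∧
          InjOn α (Ioo 0 1) ∧ frontier (f '' ball 0 1) ∩ U = α '' Ioo 0 1 := by
  obtain ⟨hGc, hGle⟩ := G_facts G hG0 hG hG1
  obtain ⟨hfc, hfd⟩ := f_facts φ hφ
  have hprod := phi_prod s G φ S hs hs1 hG hφ'
  set Gf : ℂ → ℂ := fun z => ∑' n, G n * z ^ n with hGf
  set f : ℂ → ℂ := fun z => ∑' n : ℕ, φ n / ((n : ℂ) + 1) * z ^ (n + 1) with hf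
  set E : ℂ → ℂ := fun z => ∑' n, φ n * z ^ n with hE
  have hpi := Real.pi_pos
  -- q = Gf^2
  have hq : ∀ z ∈ ball (0 : ℂ) 1, ‖Gf z ^ 2 - 1‖ ≤ 1 / 20 := by
    intro z hz
    have h1 := hGle z (ball_subset_closedBall hz)
    have h2 : Gf z ^ 2 - 1 = (Gf z - 1) * ((Gf z - 1) + 2) := by ring
    rw [h2, norm_mul]
    have h3 : ‖(Gf z - 1) + 2‖ ≤ 1 / 50 + 2 := by
      refine (norm_add_le _ _).trans ?_
      have : ‖(2 : ℂ)‖ = 2 := by simp
      rw [this]
      gcongr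
    calc ‖Gf z - 1‖ * ‖(Gf z - 1) + 2‖ ≤ (1 / 50) * (1 / 50 + 2) := by
          apply mul_le_mul h1 h3 (norm_nonneg _) (by norm_num)
      _ ≤ 1 / 20 := by norm_num
  have hEprod : ∀ z ∈ ball (0 : ℂ) 1, E z = S z * Gf z ^ 2 := fun z hz => hprod z hz
  have hEexp : ∀ z ∈ ball (0 : ℂ) 1, E z = Complex.exp (-(h z)) * Gf z ^ 2 := by
    intro z hz
    rw [hEprod z hz, hSh z hz]
  have key := key_estimate f E h (fun z => Gf z ^ 2) hfc hfd hEexp hh hq
  have hqne : ∀ z ∈ ball (0 : ℂ) 1, Gf z ^ 2 ≠ 0 := by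
    intro z hz h0
    have := hq z hz
    rw [h0] at this
    norm_num at this
  have hE0 : ∀ z ∈ ball (0 : ℂ) 1, E z ≠ 0 := by
    intro z hz
    rw [hEexp z hz]
    exact mul_ne_zero (Complex.exp_ne_zero _) (hqne z hz)
  have hqle : ∀ z ∈ ball (0 : ℂ) 1, ‖Gf z ^ 2‖ ≤ 21 / 20 := by
    intro z hz
    have h1 := hq z hz
    have h2 : ‖Gf z ^ 2‖ ≤ ‖Gf z ^ 2 - 1‖ + ‖(1 : ℂ)‖ := by
      have := norm_add_le (Gf z ^ 2 - 1) 1
      rwa [sub_add_cancel] at this
    rw [norm_one] at h2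
    linarith
  have hEle : ∀ z ∈ ball (0 : ℂ) 1, ‖E z‖ ≤ 21 / 20 := by
    intro z hz
    rw [hEprod z hz, norm_mul]
    calc ‖S z‖ * ‖Gf z ^ 2‖ ≤ 1 * (21 / 20) := by
          apply mul_le_mul (hS1 z hz) (hqle z hz) (norm_nonneg _) zero_le_one
      _ = 21 / 20 := one_mul _
  have hwb : ∀ z₁ ∈ closedBall (0 : ℂ) 1, ∀ z₂ ∈ closedBall (0 : ℂ) 1, z₁ ≠ z₂ →
      (((1 - ‖z₁ - z₂‖ / 2 : ℝ) : ℂ) * z₁) ∈ ball (0 : ℂ) 1 := by
    intro z₁ h1 z₂ h2 hne
    rw [mem_closedBall, dist_zero_right] at h1 h2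
    have h3 : 0 < ‖z₁ - z₂‖ := norm_pos_iff.2 (sub_ne_zero.2 hne)
    have h4 : ‖z₁ - z₂‖ ≤ 2 := (norm_sub_le _ _).trans (by linarith)
    rw [mem_ball, dist_zero_right, norm_mul, Complex.norm_real, Real.norm_of_nonneg (by linarith)]
    calc (1 - ‖z₁ - z₂‖ / 2) * ‖z₁‖ ≤ (1 - ‖z₁ - z₂‖ / 2) * 1 := by
          apply mul_le_mul_of_nonneg_left h1 (by linarith)
      _ < 1 := by linarith
  have hup : ∀ z₁ ∈ closedBall (0 : ℂ) 1, ∀ z₂ ∈ closedBall (0 : ℂ) 1, z₁ ≠ z₂ →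
      ‖f z₂ - f z₁‖ ≤ 3 / 2 * ‖E (((1 - ‖z₁ - z₂‖ / 2 : ℝ) : ℂ) * z₁)‖ * ‖z₂ - z₁‖ := by
    intro z₁ h1 z₂ h2 hne
    have h3 := key z₁ z₂ h1 h2 hne
    set w := (((1 - ‖z₁ - z₂‖ / 2 : ℝ) : ℂ) * z₁) with hw
    have h4 : ‖f z₂ - f z₁‖ ≤ ‖f z₂ - f z₁ - E w * (z₂ - z₁)‖ + ‖E w * (z₂ - z₁)‖ := by
      simpa using norm_add_le (f z₂ - f z₁ - E w * (z₂ - z₁)) (E w * (z₂ - z₁))
    rw [norm_mul] at h4
    linarith
  have hlow : ∀ z₁ ∈ closedBall (0 : ℂ) 1, ∀ z₂ ∈ closedBall (0 : ℂ) 1, z₁ ≠ z₂ →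
      1 / 2 * ‖E (((1 - ‖z₁ - z₂‖ / 2 : ℝ) : ℂ) * z₁)‖ * ‖z₂ - z₁‖ ≤ ‖f z₂ - f z₁‖ := by
    intro z₁ h1 z₂ h2 hne
    have h3 := key z₁ z₂ h1 h2 hne
    set w := (((1 - ‖z₁ - z₂‖ / 2 : ℝ) : ℂ) * z₁) with hw
    have h4 : ‖E w * (z₂ - z₁)‖ ≤ ‖f z₂ - f z₁ - E w * (z₂ - z₁)‖ + ‖f z₂ - f z₁‖ := by
      have := norm_sub_le (f z₂ - f z₁) (f z₂ - f z₁ - E w * (z₂ - z₁))
      rw [sub_sub_cancel] at this
      linarith
    rw [norm_mul] at h4
    linarith
  have hinj : InjOn f (closedBall 0 1) := by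
    intro z₁ h1 z₂ h2 heq
    by_contra hne
    have h3 := hlow z₁ h1 z₂ h2 hne
    rw [heq, sub_self, norm_zero] at h3
    have h4 : 0 < ‖E (((1 - ‖z₁ - z₂‖ / 2 : ℝ) : ℂ) * z₁)‖ :=
      norm_pos_iff.2 (hE0 _ (hwb z₁ h1 z₂ h2 hne))
    have h5 : 0 < ‖z₂ - z₁‖ := norm_pos_iff.2 (sub_ne_zero.2 (Ne.symm hne))
    have h6 : 0 < 1 / 2 * ‖E (((1 - ‖z₁ - z₂‖ / 2 : ℝ) : ℂ) * z₁)‖ * ‖z₂ - z₁‖ := by positivity
    linarith
  have hlip : ∀ z₁ ∈ closedBall (0 : ℂ) 1, ∀ z₂ ∈ closedBall (0 : ℂ) 1,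
      ‖f z₂ - f z₁‖ ≤ 2 * ‖z₂ - z₁‖ := by
    intro z₁ h1 z₂ h2
    by_cases hne : z₁ = z₂
    · simp [hne]
    · refine (hup z₁ h1 z₂ h2 hne).trans ?_
      apply mul_le_mul_of_nonneg_right _ (norm_nonneg _)
      have := hEle _ (hwb z₁ h1 z₂ h2 hne)
      linarith
  obtain ⟨hopen, hconn, hbdd, hclos, hfront⟩ := disc_image_topology f E hfc hfd hE0 hinj
  -- the boundary curve
  have hecb : ∀ θ : ℝ, Complex.exp (θ * Complex.I) ∈ closedBall (0 : ℂ) 1 := by
    intro θ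
    simp [mem_closedBall, Complex.norm_exp_ofReal_mul_I]
  set γ : ℝ → ℂ := fun t => f (Complex.exp (t * Complex.I)) with hγ
  set wt : ℝ → ℝ := fun t => ‖Gf (Complex.exp (t * Complex.I))‖ ^ 2 with hwt
  have hγlip : LipschitzWith 2 γ := by
    apply LipschitzWith.of_dist_le_mul
    intro a b
    rw [dist_eq_norm, dist_eq_norm]
    simp only [hγ]
    calc ‖f (Complex.exp (a * Complex.I)) - f (Complex.exp (b * Complex.I))‖
        ≤ 2 * ‖Complex.exp (a * Complex.I) - Complex.exp (b * Complex.I)‖ :=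
          hlip _ (hecb b) _ (hecb a)
      _ ≤ 2 * |a - b| := by gcongr; exact norm_exp_sub_le a b
      _ = ((2 : ℝ≥0) : ℝ) * ‖a - b‖ := by simp [Real.norm_eq_abs]
  have hγinj : InjOn γ (Ico 0 (2 * π)) := by
    intro a ha b hb hab
    exact exp_injOn ha hb (hinj (hecb a) (hecb b) hab)
  have hwc : Continuous wt := by
    have h1 : Continuous (fun t : ℝ => Gf (Complex.exp (t * Complex.I))) := by
      apply hGc.comp_continuous (by fun_prop) hecb
    exact (h1.norm).pow 2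
  have hder : ∀ θ ∈ Θ, ∃ v : ℂ, ‖v‖ = wt θ ∧ HasStrictDerivAt γ v θ := by
    intro θ hθ
    obtain ⟨v, hv, hvl⟩ := hSlim θ hθ
    set ζ := Complex.exp (θ * Complex.I) with hζ
    have hGl : Tendsto Gf (𝓝[ball 0 1] ζ) (𝓝 (Gf ζ)) := by
      have := (hGc ζ (hecb θ)).tendsto
      exact this.mono_left (nhdsWithin_mono _ ball_subset_closedBall)
    have hEl : Tendsto E (𝓝[ball 0 1] ζ) (𝓝 (v * Gf ζ ^ 2)) := by
      refine (hvl.mul (hGl.pow 2)).congr' ?_
      filter_upwards [self_mem_nhdsWithin] with z hz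
      exact (hEprod z hz).symm
    refine ⟨_, ?_, boundary_strict f E hfc hfd θ _ hEl⟩
    rw [norm_mul, norm_mul, norm_mul, hv, ← hζ]
    simp only [hwt, norm_pow, Complex.norm_I, one_mul, mul_one, ← hζ]
    rw [hζ, Complex.norm_exp_ofReal_mul_I, mul_one]
  have harc := arc_measure γ wt 2 hγlip hγinj hwc (fun θ => by positivity) Θ hΘ hΘc hder
  have hγim : γ '' Ico 0 (2 * π) = f '' sphere 0 1 := by
    rw [← exp_image, image_image]
  rw [hγim] at harc
  have hγm : Measurable γ := hγlip.continuous.measurable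
  have hWm : Measurable (fun θ => ENNReal.ofReal (wt θ)) := hwc.measurable.ennreal_ofReal
  have hwint : Integrable wt (volume.restrict (Ico 0 (2 * π))) :=
    (hwc.continuousOn.integrableOn_Icc (a := 0) (b := 2 * π)).mono_set Ico_subset_Icc_self
  have hwpos : ∀ θ, (1 / 2 : ℝ) ≤ wt θ := by
    intro θ
    have h1 := hGle _ (hecb θ)
    have h2 : ‖(1 : ℂ)‖ ≤ ‖Gf (Complex.exp (θ * Complex.I)) - 1‖
        + ‖Gf (Complex.exp (θ * Complex.I))‖ := by
      have := norm_sub_le (Gf (Complex.exp (θ * Complex.I)))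
        (Gf (Complex.exp (θ * Complex.I)) - 1)
      rw [sub_sub_cancel] at this
      linarith
    rw [norm_one] at h2
    have h3 : 49 / 50 ≤ ‖Gf (Complex.exp (θ * Complex.I))‖ := by
      have : ‖Gf (Complex.exp (θ * Complex.I)) - 1‖ ≤ 1 / 50 := h1
      linarith
    simp only [hwt]
    nlinarith
  have hlen0 : ∀ A : Set ℝ, MeasurableSet A → A ⊆ Ico 0 (2 * π) →
      ENNReal.ofReal (1 / 2) * volume A ≤ μH[1] (γ '' A) := by
    intro A hA hAs
    have hAim : MeasurableSet (γ '' A) :=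
      hA.image_of_continuousOn_injOn hγlip.continuous.continuousOn (hγinj.mono hAs)
    have h1 : μH[1] (γ '' A) = ((μH[1] : Measure ℂ).restrict (f '' sphere 0 1)) (γ '' A) := by
      rw [Measure.restrict_apply hAim]
      congr 1
      rw [eq_comm, inter_eq_left, ← hγim]
      exact image_mono hAs
    rw [h1, harc, Measure.map_apply hγm hAim, withDensity_apply _ (hγm hAim)]
    have h2 : γ ⁻¹' (γ '' A) ∩ Ico 0 (2 * π) = A := by
      ext t
      constructor
      · rintro ⟨⟨u, hu, hut⟩, ht⟩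
        rw [← hγinj (hAs hu) ht hut]
        exact hu
      · intro ht
        exact ⟨⟨t, ht, rfl⟩, hAs ht⟩
    rw [Measure.restrict_restrict (hγm hAim), h2]
    calc ENNReal.ofReal (1 / 2) * volume A = ∫⁻ _ in A, ENNReal.ofReal (1 / 2) := by
          rw [lintegral_const, Measure.restrict_apply MeasurableSet.univ, univ_inter]
      _ ≤ ∫⁻ θ in A, ENNReal.ofReal (wt θ) := by
          apply lintegral_mono
          intro θ
          exact ENNReal.ofReal_le_ofReal (hwpos θ)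
  have hmass : μH[1] (f '' sphere 0 1) = ENNReal.ofReal (∫ θ in Ico 0 (2 * π), wt θ) := by
    have h1 := congr_arg (fun m => m univ) harc
    simp only [Measure.restrict_apply MeasurableSet.univ, univ_inter,
      Measure.map_apply hγm MeasurableSet.univ, preimage_univ,
      withDensity_apply _ MeasurableSet.univ, Measure.restrict_univ] at h1
    rw [h1, ofReal_integral_eq_lintegral_ofReal hwint]
    exact Filter.Eventually.of_forall (fun θ => by simp only [hwt]; positivity)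
  have hmass_pos : 0 < μH[1] (f '' sphere 0 1) := by
    have h1 := hlen0 (Ico 0 (2 * π)) measurableSet_Ico subset_rfl
    rw [hγim, Real.volume_Ico] at h1
    refine lt_of_lt_of_le ?_ h1
    rw [← ENNReal.ofReal_mul (by norm_num)]
    rw [ENNReal.ofReal_pos]
    linarith
  have hmass_fin : μH[1] (f '' sphere 0 1) < ⊤ := by
    rw [hmass]; exact ENNReal.ofReal_lt_top
  -- integrals over the boundary
  have hsph_meas : MeasurableSet (f '' sphere 0 1) := by
    rw [← hγim]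
    exact measurableSet_Ico.image_of_continuousOn_injOn hγlip.continuous.continuousOn hγinj
  have hbint : ∀ F : ℂ → ℂ, ContinuousOn F (f '' closedBall 0 1) →
      ∫ z in f '' sphere 0 1, F z ∂μH[1]
        = ∫ θ in (0 : ℝ)..(2 * π), ((wt θ : ℝ) : ℂ) * F (γ θ) := by
    intro F hF
    have hsub : f '' sphere 0 1 ⊆ f '' closedBall 0 1 := image_mono sphere_subset_closedBall
    have hFm : AEStronglyMeasurable F ((μH[1] : Measure ℂ).restrict (f '' sphere 0 1)) :=
      (hF.mono hsub).aestronglyMeasurable hsph_meas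
    rw [harc] at hFm ⊢
    rw [integral_map hγm.aemeasurable hFm,
      integral_withDensity_eq_integral_toReal_smul hWm
        (Filter.Eventually.of_forall (fun θ => ENNReal.ofReal_lt_top))]
    rw [intervalIntegral.integral_of_le (by positivity), ← integral_Icc_eq_integral_Ioc,
      integral_Icc_eq_integral_Ico]
    congr 1
    ext θ
    rw [ENNReal.toReal_ofReal (by simp only [hwt]; positivity), Complex.real_smul]
  -- area integrals
  have haint : ∀ F : ℂ → ℂ, ∫ z in f '' ball 0 1, F z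
      = ∫ z in ball (0 : ℂ) 1, ((‖E z‖ ^ 2 : ℝ) : ℂ) * F (f z) := by
    intro F
    have h1 := integral_image_eq_integral_abs_det_fderiv_smul (volume : Measure ℂ)
      (s := ball (0 : ℂ) 1) (f := f)
      (f' := fun z => ((ContinuousLinearMap.toSpanSingleton ℂ (E z)).restrictScalars ℝ))
      measurableSet_ball
      (fun z hz => ((hfd z hz).hasFDerivAt.restrictScalars ℝ).hasFDerivWithinAt)
      (hinj.mono ball_subset_closedBall) F
    rw [h1]
    congr 1
    ext z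
    rw [det_mul_complex, abs_of_nonneg (by positivity), Complex.real_smul]
  have hquad : ∀ F : ℂ → ℂ, ContinuousOn F (f '' closedBall 0 1) →
      DifferentiableOn ℂ F (f '' ball 0 1) →
      ∫ z in f '' ball 0 1, F z = c * ∫ z in f '' sphere 0 1, F z ∂μH[1] := by
    intro F hFc hFd
    rw [haint F, hbint F hFc]
    have h1 := area_circle G φ c hG hφ hid (F ∘ f)
      (hFc.comp hfc (mapsTo_image f _))
      (hFd.comp (fun z hz => (hfd z hz).differentiableAt.differentiableWithinAt)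
        (mapsTo_image f _))
    exact h1
  have hmass_real : 0 < (μH[1] (f '' sphere 0 1)).toReal :=
    ENNReal.toReal_pos hmass_pos.ne' hmass_fin.ne
  have hvol : (volume (f '' ball 0 1)).toReal = c * (μH[1] (f '' sphere 0 1)).toReal := by
    have h1 := hquad (fun _ => 1) continuousOn_const (differentiableOn_const _)
    rw [setIntegral_const, setIntegral_const] at h1
    simp only [Measure.real, Complex.real_smul, mul_one] at h1
    exact_mod_cast h1
  have hvolfin : volume (f '' ball 0 1) ≠ ⊤ := hbdd.measure_lt_top.ne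
  have hclos' : IsCompact (f '' closedBall 0 1) :=
    (isCompact_closedBall (0 : ℂ) 1).image_of_continuousOn hfc
  have hre : ∀ F : ℂ → ℂ, ContinuousOn F (f '' closedBall 0 1) →
      DifferentiableOn ℂ F (f '' ball 0 1) →
      ∫ z in f '' ball 0 1, (F z).re = c * ∫ z in f '' sphere 0 1, (F z).re ∂μH[1] := by
    intro F hFc hFd
    obtain ⟨M, hM⟩ := hclos'.exists_bound_of_continuousOn hFc
    have hi1 : IntegrableOn F (f '' ball 0 1) volume := by
      haveI : IsFiniteMeasure ((volume : Measure ℂ).restrict (f '' ball 0 1)) :=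
        ⟨by rw [Measure.restrict_apply_univ]; exact hbdd.measure_lt_top⟩
      refine Integrable.of_bound ((hFc.mono
        (image_mono ball_subset_closedBall)).aestronglyMeasurable hopen.measurableSet) M ?_
      · filter_upwards [ae_restrict_mem hopen.measurableSet] with z hz
        exact hM z (image_mono ball_subset_closedBall hz)
    have hi2 : IntegrableOn F (f '' sphere 0 1) (μH[1] : Measure ℂ) := by
      haveI : IsFiniteMeasure ((μH[1] : Measure ℂ).restrict (f '' sphere 0 1)) :=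
        ⟨by rw [Measure.restrict_apply_univ]; exact hmass_fin⟩
      refine Integrable.of_bound ((hFc.mono
        (image_mono sphere_subset_closedBall)).aestronglyMeasurable hsph_meas) M ?_
      · filter_upwards [ae_restrict_mem hsph_meas] with z hz
        exact hM z (image_mono sphere_subset_closedBall hz)
    have h1 := hquad F hFc hFd
    have h2 := congr_arg Complex.re h1
    rw [Complex.re_ofReal_mul] at h2
    have h3 : ∫ z in f '' ball 0 1, (F z).re = (∫ z in f '' ball 0 1, F z).re :=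
      integral_re hi1
    have h4 : ∫ z in f '' sphere 0 1, (F z).re ∂μH[1]
        = (∫ z in f '' sphere 0 1, F z ∂μH[1]).re := integral_re hi2
    rw [h3, h4, h2]
  -- flatness at ζ₁
  have hζ₁s : ζ₁ ∈ sphere (0 : ℂ) 1 := by simpa using hζ₁
  have hflat : ∀ ε > 0, ∃ δ > 0, ∀ ζ ∈ sphere (0 : ℂ) 1, ‖ζ - ζ₁‖ < δ →
      ‖f ζ - f ζ₁‖ ≤ ε * ‖ζ - ζ₁‖ := by
    intro ε hε
    have h1 := (tendsto_zero_iff_norm_tendsto_zero.1 hS0).eventually_lt_const
      (show (0 : ℝ) < ε / 2 by positivity)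
    obtain ⟨l, hl1, hl2⟩ := (mem_nhdsLT_iff_exists_Ioo_subset' (show (0 : ℝ) < 1 by norm_num)).1 h1
    refine ⟨2 * (1 - l), by have := hl1; rw [mem_Iio] at this; linarith, ?_⟩
    intro ζ hζ hζd
    by_cases hne : ζ₁ = ζ
    · simp [hne]
    · have hζc := sphere_subset_closedBall hζ
      have hζ1c := sphere_subset_closedBall hζ₁s
      have h2 := hup ζ₁ hζ1c ζ hζc hne
      refine h2.trans ?_
      apply mul_le_mul_of_nonneg_right _ (norm_nonneg _)
      have hwb' := hwb ζ₁ hζ1c ζ hζc hne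
      rw [norm_sub_rev ζ₁ ζ] at *
      have hr : (1 - ‖ζ - ζ₁‖ / 2) ∈ Ioo l 1 := by
        constructor
        · linarith
        · have : 0 < ‖ζ - ζ₁‖ := norm_pos_iff.2 (sub_ne_zero.2 (Ne.symm hne))
          linarith
      have h3 : ‖S (((1 - ‖ζ - ζ₁‖ / 2 : ℝ) : ℂ) * ζ₁)‖ < ε / 2 := hl2 hr
      rw [hEprod _ hwb', norm_mul]
      have h4 := hqle _ hwb'
      have h5 : ‖S (((1 - ‖ζ - ζ₁‖ / 2 : ℝ) : ℂ) * ζ₁)‖ *
          ‖Gf (((1 - ‖ζ - ζ₁‖ / 2 : ℝ) : ℂ) * ζ₁) ^ 2‖ ≤ ε / 2 * (21 / 20) := by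
        apply mul_le_mul h3.le h4 (norm_nonneg _) (by positivity)
      linarith
  have hlen : ∃ c > 0, ∃ δ₀ > 0, ∀ δ ∈ Ioo (0 : ℝ) δ₀,
      ENNReal.ofReal (c * δ) ≤ μH[1] (f '' {ζ ∈ sphere (0 : ℂ) 1 | ‖ζ - ζ₁‖ < δ}) := by
    have h0 := hζ₁s
    rw [← exp_image] at h0
    obtain ⟨θ₁, hθ₁, hθζ⟩ := h0
    simp only at hθζ
    refine ⟨1 / 2, by norm_num, π, hpi, ?_⟩
    intro δ hδ
    obtain ⟨A, hA, hAs, hAv, hAd⟩ : ∃ A : Set ℝ, MeasurableSet A ∧ A ⊆ Ico 0 (2 * π) ∧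
        volume A = ENNReal.ofReal δ ∧ ∀ t ∈ A, |t - θ₁| < δ := by
      by_cases h : θ₁ ≤ π
      · refine ⟨Ico θ₁ (θ₁ + δ), measurableSet_Ico, ?_, ?_, ?_⟩
        · intro t ht
          exact ⟨hθ₁.1.trans ht.1, by linarith [ht.2, hδ.2]⟩
        · rw [Real.volume_Ico]; congr 1; ring
        · intro t ht
          rw [abs_of_nonneg (by linarith [ht.1])]
          linarith [ht.2]
      · push Not at h
        refine ⟨Ioo (θ₁ - δ) θ₁, measurableSet_Ioo, ?_, ?_, ?_⟩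
        · intro t ht
          exact ⟨by linarith [ht.1, hδ.2], by linarith [ht.2, hθ₁.2]⟩
        · rw [Real.volume_Ioo]; congr 1; ring
        · intro t ht
          rw [abs_of_nonpos (by linarith [ht.2])]
          linarith [ht.1]
    calc ENNReal.ofReal (1 / 2 * δ) = ENNReal.ofReal (1 / 2) * volume A := by
          rw [hAv, ENNReal.ofReal_mul (by norm_num)]
      _ ≤ μH[1] (γ '' A) := hlen0 A hA hAs
      _ ≤ μH[1] (f '' {ζ ∈ sphere (0 : ℂ) 1 | ‖ζ - ζ₁‖ < δ}) := by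
          apply measure_mono
          rintro _ ⟨t, ht, rfl⟩
          refine ⟨Complex.exp (t * Complex.I), ⟨?_, ?_⟩, rfl⟩
          · simp [Complex.norm_exp_ofReal_mul_I]
          · rw [← hθζ]
            exact (norm_exp_sub_le t θ₁).trans_lt (hAd t ht)
  refine ⟨f, hfc, hinj, fun z hz => (hfd z hz).differentiableAt.differentiableWithinAt,
    hopen, hconn, hbdd, hfront, ?_, ?_, ?_, ?_⟩
  · rw [hfront]; exact hmass_pos
  · rw [hfront]; exact hmass_fin
  · intro F hFc hFd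
    rw [hclos] at hFc
    rw [hfront, hre F hFc hFd, hvol]
    have hc' := hc.ne'
    have hm' := hmass_real.ne'
    field_simp
  · rw [hfront]
    refine ⟨f ζ₁, ⟨ζ₁, hζ₁s, rfl⟩, ?_⟩
    intro U _ hpU
    exact not_arc_gen f (hfc.mono sphere_subset_closedBall) (hinj.mono sphere_subset_closedBall)
      ζ₁ hζ₁s hflat hlen U hpU

end Quad
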