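import Mathlib

open MeasureTheory Set Filter Topology Metric
open scoped ENNReal NNReal Real ComplexConjugate

namespace Quad

/-- A singular Zygmund martingale on the circle `ℝ/ℤ` w.r.t. the 4-adic intervals. -/
structure SlopeSys (P : ℕ → ℝ → ℝ) : Prop where
  meas : ∀ n, Measurable (P n)
  per : ∀ n x, P n (x + 1) = P n x
  zero : ∀ x, P 0 x = 1
  nonneg : ∀ n x, 0 ≤ P n x
  step : ∀ n x, |P (n + 1) x - P n x| ≤ 1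
  absorb : ∀ n x, P n x = 0 → P (n + 1) x = 0
  const : ∀ n x y, ⌊(4 : ℝ) ^ n * x⌋ = ⌊(4 : ℝ) ^ n * y⌋ → P n x = P n y
  mean : ∀ (n : ℕ) (j : ℤ),
    ∫ x in ((j : ℝ) / 4 ^ n)..(((j : ℝ) + 1) / 4 ^ n), (P (n + 1) x - P n x) = 0
  grow : ∀ n x y, |P n x - P n y| ≤ 2 + 4 * Real.sqrt (4 ^ n * |x - y|)
  null : Tendsto (fun n => volume {x ∈ Ico (0 : ℝ) 1 | P n x ≠ 0}) atTop (𝓝 0)
  big : ∀ (n : ℕ) (x : ℝ), ⌊(4 : ℝ) ^ n * x⌋ = ⌊(4 : ℝ) ^ n * (1 / 3)⌋ → P n x = n + 1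

/-- `e(x) = exp(2πix)` -/
noncomputable def ee (x : ℝ) : ℂ := Complex.exp (2 * π * x * Complex.I)

/-- Herglotz transform of the `n`-th density. -/
noncomputable def Hn (P : ℕ → ℝ → ℝ) (n : ℕ) (z : ℂ) : ℂ :=
  ∫ x in (0 : ℝ)..1, (ee x + z) / (ee x - z) * (P n x : ℂ)

end Quad
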