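import Mathlib
import Pool.Agent.Helper123.Quad.SlopeDef

open MeasureTheory Set Filter Topology Metric
open scoped ENNReal NNReal Real ComplexConjugate

namespace Quad



lemma ee_norm (x : ℝ) : ‖ee x‖ = 1 := by
  unfold ee
  rw [show (2 * π * x * Complex.I : ℂ) = ((2 * π * x : ℝ) : ℂ) * Complex.I by push_cast; ring]
  exact Complex.norm_exp_ofReal_mul_I _

lemma ee_per (x : ℝ) : ee (x + 1) = ee x := by
  unfold ee
  rw [show (2 * π * ((x + 1 : ℝ) : ℂ) * Complex.I : ℂ)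
    = 2 * π * x * Complex.I + 2 * π * Complex.I by push_cast; ring]
  exact Complex.exp_periodic _

lemma ee_cont : Continuous ee := by unfold ee; fun_prop

lemma ee_sub_norm (x y : ℝ) : ‖ee x - ee y‖ = 2 * |Real.sin (π * (x - y))| := by
  have : ee x - ee y = ee y * (Complex.exp (Complex.I * ((2 * π * (x - y) : ℝ) : ℂ)) - 1) := by
    unfold ee
    rw [mul_sub, ← Complex.exp_add, mul_one]; congr 2; push_cast; ring
  rw [this, norm_mul, ee_norm, one_mul, Complex.norm_exp_I_mul_ofReal_sub_one, Real.norm_eq_abs,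
    abs_mul, abs_two]
  congr 3; ring

lemma ee_sub_le (x y : ℝ) : ‖ee x - ee y‖ ≤ 2 * π * |x - y| := by
  rw [ee_sub_norm]
  have := Real.abs_sin_le_abs (x := π * (x - y))
  rw [abs_mul, abs_of_pos Real.pi_pos] at this
  linarith

lemma ee_sub_ge (x y : ℝ) (h : |x - y| ≤ 1 / 2) : 4 * |x - y| ≤ ‖ee x - ee y‖ := by
  rw [ee_sub_norm]
  have h1 : |π * (x - y)| ≤ π / 2 := by
    rw [abs_mul, abs_of_pos Real.pi_pos]
    nlinarith [Real.pi_pos]
  have := Real.mul_abs_le_abs_sin h1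
  rw [abs_mul, abs_of_pos Real.pi_pos] at this
  have h2 : 2 / π * (π * |x - y|) = 2 * |x - y| := by
    field_simp
  rw [h2] at this
  linarith

lemma exists_arg (z : ℂ) : ∃ x0 : ℝ, z = (‖z‖ : ℂ) * ee x0 := by
  refine ⟨Complex.arg z / (2 * π), ?_⟩
  unfold ee
  rw [show (2 * π * ((Complex.arg z / (2 * π) : ℝ) : ℂ) * Complex.I : ℂ) = Complex.arg z * Complex.I by
    push_cast
    have : (π : ℂ) ≠ 0 := by exact_mod_cast Real.pi_ne_zero
    field_simp]
  exact (Complex.norm_mul_exp_arg_mul_I z).symm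

/-- lower bound for `|e(x) - z|` -/
lemma ez_ge (z : ℂ) (hz : ‖z‖ < 1) (x0 x : ℝ) (h0 : z = (‖z‖ : ℂ) * ee x0) (h : |x - x0| ≤ 1 / 2) :
    ((1 - ‖z‖) + |x - x0|) / 2 ≤ ‖ee x - z‖ := by
  have h1 : 1 - ‖z‖ ≤ ‖ee x - z‖ := by
    have := norm_sub_norm_le (ee x) z
    rw [ee_norm] at this; exact this
  have h2 : ‖ee x - ee x0‖ ≤ ‖ee x - z‖ + (1 - ‖z‖) := by
    have e : ee x - ee x0 = (ee x - z) + (z - ee x0) := by ring
    have e2 : ‖z - ee x0‖ = 1 - ‖z‖ := by
      have : z - ee x0 = ((‖z‖ - 1 : ℝ) : ℂ) * ee x0 := by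
        conv_lhs => rw [h0]
        push_cast; ring
      rw [this, norm_mul, ee_norm, mul_one, Complex.norm_real, Real.norm_eq_abs, abs_sub_comm,
        abs_of_pos (by linarith)]
    rw [e]
    exact (norm_add_le _ _).trans (by rw [e2])
  have h3 := ee_sub_ge x x0 h
  have := abs_nonneg (x - x0)
  linarith

lemma ez_ge' (z : ℂ) (x : ℝ) : 1 - ‖z‖ ≤ ‖ee x - z‖ := by
    have := norm_sub_norm_le (ee x) z
    rw [ee_norm] at this; exact this

lemma ez_ne (z : ℂ) (hz : ‖z‖ < 1) (x : ℝ) : ee x - z ≠ 0 := by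
  have := ez_ge' z x
  intro h
  rw [h, norm_zero] at this
  linarith

/-- the kernel -/
noncomputable def ka (z : ℂ) (x : ℝ) : ℂ := 2 * ee x / (ee x - z) ^ 2

lemma ka_cont (z : ℂ) (hz : ‖z‖ < 1) : Continuous (ka z) := by
  unfold ka
  refine Continuous.div₀ ?_ ?_ ?_
  · exact continuous_const.mul ee_cont
  · exact (ee_cont.sub continuous_const).pow 2
  · intro x; exact pow_ne_zero _ (ez_ne z hz x)

lemma ka_per (z : ℂ) (x : ℝ) : ka z (x + 1) = ka z x := by
  unfold ka; rw [ee_per]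

lemma ka_norm (z : ℂ) (x : ℝ) : ‖ka z x‖ = 2 / ‖ee x - z‖ ^ 2 := by
  unfold ka
  rw [norm_div, norm_mul, ee_norm, norm_pow]; simp

lemma ee_deriv (x : ℝ) : HasDerivAt ee (2 * π * Complex.I * ee x) x := by
  unfold ee
  have h1 : HasDerivAt (fun x : ℝ => (2 * π * x * Complex.I : ℂ)) (2 * π * Complex.I) x := by
    have := ((Complex.ofRealCLM.hasDerivAt (x := x)).const_mul (2 * π : ℂ)).mul_const Complex.I
    simpa using this
  have := h1.cexp
  convert this using 1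
  ring

lemma ka_int (z : ℂ) (hz : ‖z‖ < 1) : ∫ x in (0 : ℝ)..1, ka z x = 0 := by
  have hd : ∀ x : ℝ, HasDerivAt (fun x : ℝ => (Complex.I / π) * (ee x - z)⁻¹) (ka z x) x := by
    intro x
    have h1 := ((ee_deriv x).sub_const z).inv (ez_ne z hz x)
    have h2 := h1.const_mul (Complex.I / π : ℂ)
    refine h2.congr_deriv ?_
    unfold ka
    have : (π : ℂ) ≠ 0 := by exact_mod_cast Real.pi_ne_zero
    have h3 := ez_ne z hz x
    field_simp
    rw [Complex.I_sq]; ring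
  rw [intervalIntegral.integral_eq_sub_of_hasDerivAt (fun x _ => hd x)
    ((ka_cont z hz).intervalIntegrable _ _)]
  have : ee 1 = ee 0 := by
    have := ee_per 0; rwa [zero_add] at this
  rw [this, sub_self]


lemma ka_diff (z : ℂ) (hz : ‖z‖ < 1) (x y : ℝ) (h : 2 * π * |x - y| ≤ (1 - ‖z‖) / 2) :
    ‖ka z x - ka z y‖ ≤ 40 * π * |x - y| / (1 - ‖z‖) * (1 / ‖ee x - z‖ ^ 2) := by
  have ha : 0 < 1 - ‖z‖ := by linarith
  have hx := ez_ne z hz x
  have hy := ez_ne z hz y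
  have e : ka z x - ka z y
      = 2 * (ee x - ee y) * (z * (z - ee x) + ee x * (z - ee y)) / ((ee x - z) ^ 2 * (ee y - z) ^ 2) := by
    unfold ka
    field_simp
    ring
  have hA := ez_ge' z x
  have hD : ‖ee x - ee y‖ ≤ 2 * π * |x - y| := ee_sub_le x y
  set A := ‖ee x - z‖ with hAdef
  set B := ‖ee y - z‖ with hBdef
  set D := ‖ee x - ee y‖ with hDdef
  have hD0 : 0 ≤ D := norm_nonneg _
  have hApos : 0 < A := by linarith
  have hB1 : A ≤ D + B := by
    have : ee x - z = (ee x - ee y) + (ee y - z) := by ring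
    rw [hAdef, this]; exact norm_add_le _ _
  have hB2 : B ≤ D + A := by
    have : ee y - z = -(ee x - ee y) + (ee x - z) := by ring
    rw [hBdef, this]
    refine (norm_add_le _ _).trans ?_
    rw [norm_neg]
  have hBA : A / 2 ≤ B := by linarith
  have hBA' : B ≤ 3 / 2 * A := by linarith
  have hN : ‖z * (z - ee x) + ee x * (z - ee y)‖ ≤ A + B := by
    refine (norm_add_le _ _).trans ?_
    rw [norm_mul, norm_mul, ee_norm, one_mul, norm_sub_rev z (ee x), norm_sub_rev z (ee y)]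
    have : ‖z‖ * ‖ee x - z‖ ≤ 1 * A := by
      apply mul_le_mul_of_nonneg_right hz.le (norm_nonneg _)
    linarith
  have hnorm : ‖ka z x - ka z y‖ = 2 * D * ‖z * (z - ee x) + ee x * (z - ee y)‖ / (A ^ 2 * B ^ 2) := by
    rw [e, norm_div, norm_mul, norm_mul, norm_mul, norm_pow, norm_pow]; simp
    rfl
  rw [hnorm]
  have hBpos : 0 < B := by linarith
  have h1 : 2 * D * ‖z * (z - ee x) + ee x * (z - ee y)‖ / (A ^ 2 * B ^ 2)
      ≤ 2 * D * (5 / 2 * A) / (A ^ 2 * (A / 2) ^ 2) := by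
    apply div_le_div₀
    · positivity
    · apply mul_le_mul_of_nonneg_left _ (by positivity)
      linarith
    · positivity
    · apply mul_le_mul_of_nonneg_left _ (by positivity)
      apply pow_le_pow_left₀ (by positivity) hBA
  refine h1.trans ?_
  have h2 : 2 * D * (5 / 2 * A) / (A ^ 2 * (A / 2) ^ 2) = 20 * D / A * (1 / A ^ 2) := by
    field_simp
    ring
  rw [h2]
  apply mul_le_mul_of_nonneg_right _ (by positivity)
  apply div_le_div₀
  · positivity
  · nlinarith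
  · exact ha
  · exact hA

/-- the majorant -/
noncomputable def gg (s : ℝ) : ℝ := (1 + ‖s‖) ^ (-(3 / 2 : ℝ))

lemma gg_int : Integrable gg := by
  have : Integrable (fun x : ℝ => (1 + ‖x‖) ^ (-(3 / 2 : ℝ))) := by
    apply integrable_one_add_norm
    rw [Module.finrank_self]; norm_num
  exact this

lemma gg_nonneg (s : ℝ) : 0 ≤ gg s := by unfold gg; positivity

lemma gg_pos (s : ℝ) : 0 < gg s := by unfold gg; positivity

lemma gg_eq (s : ℝ) : gg s = Real.sqrt (1 + |s|) / (1 + |s|) ^ 2 := by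
  unfold gg
  have h : 0 < 1 + |s| := by positivity
  rw [Real.norm_eq_abs, Real.sqrt_eq_rpow, ← Real.rpow_natCast (1 + |s|) 2, ← Real.rpow_sub h]
  norm_num

lemma gg_ge (s : ℝ) : 1 / (1 + |s|) ^ 2 ≤ gg s := by
  rw [gg_eq]
  have h : 0 < 1 + |s| := by positivity
  apply div_le_div_of_nonneg_right _ (by positivity)
  rw [Real.one_le_sqrt]
  have := abs_nonneg s
  linarith

lemma gg_cont : Continuous gg := by
  unfold gg
  refine Continuous.rpow_const (by fun_prop) ?_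
  intro x; left; positivity

/-- total mass -/
noncomputable def KK : ℝ := ∫ s, gg s

lemma KK_nonneg : 0 ≤ KK := integral_nonneg gg_nonneg

lemma gg_int_le (a x0 : ℝ) (ha : 0 < a) :
    ∫ x in (x0 - 1 / 2)..(x0 - 1 / 2 + 1), gg ((x - x0) / a) ≤ a * KK := by
  have hi : Integrable (fun x : ℝ => gg ((x - x0) / a)) := by
    have h1 : Integrable (fun x : ℝ => gg (x / a)) := gg_int.comp_div ha.ne'
    exact h1.comp_sub_right x0
  rw [intervalIntegral.integral_of_le (by linarith)]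
  refine (setIntegral_le_integral hi (Eventually.of_forall fun x => gg_nonneg _)).trans ?_
  rw [integral_sub_right_eq_self (fun x => gg (x / a)) x0, Measure.integral_comp_div,
    abs_of_pos ha, smul_eq_mul]
  rfl

lemma W_per (z : ℂ) : Function.Periodic (fun x : ℝ => 1 / ‖ee x - z‖ ^ 2) 1 := by
  intro x
  simp only [ee_per]

lemma W_cont (z : ℂ) (hz : ‖z‖ < 1) : Continuous (fun x : ℝ => 1 / ‖ee x - z‖ ^ 2) := by
  refine Continuous.div₀ continuous_const ((ee_cont.sub continuous_const).norm.pow 2) ?_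
  intro x
  exact pow_ne_zero _ (norm_ne_zero_iff.mpr (ez_ne z hz x))

lemma W_le (z : ℂ) (hz : ‖z‖ < 1) (x0 x : ℝ) (h0 : z = (‖z‖ : ℂ) * ee x0) (h : |x - x0| ≤ 1 / 2) :
    1 / ‖ee x - z‖ ^ 2 ≤ 4 / (1 - ‖z‖) ^ 2 * (1 / (1 + |(x - x0) / (1 - ‖z‖)|) ^ 2) := by
  have ha : 0 < 1 - ‖z‖ := by linarith
  have h1 := ez_ge z hz x0 x h0 h
  have h2 : 0 < ((1 - ‖z‖) + |x - x0|) / 2 := by positivity
  have h3 : 1 / ‖ee x - z‖ ^ 2 ≤ 1 / (((1 - ‖z‖) + |x - x0|) / 2) ^ 2 := by
    apply one_div_le_one_div_of_le (by positivity)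
    exact pow_le_pow_left₀ h2.le h1 2
  refine h3.trans (le_of_eq ?_)
  rw [abs_div, abs_of_pos ha]
  have : 0 < 1 + |x - x0| / (1 - ‖z‖) := by positivity
  field_simp
  norm_num

lemma W_int_le (z : ℂ) (hz : ‖z‖ < 1) :
    ∫ x in (0 : ℝ)..1, 1 / ‖ee x - z‖ ^ 2 ≤ 4 * KK / (1 - ‖z‖) := by
  have ha : 0 < 1 - ‖z‖ := by linarith
  obtain ⟨x0, h0⟩ := exists_arg z
  have hp := (W_per z).intervalIntegral_add_eq 0 (x0 - 1 / 2)
  rw [zero_add] at hp
  rw [hp]
  have h1 : ∫ x in (x0 - 1 / 2)..(x0 - 1 / 2 + 1), 1 / ‖ee x - z‖ ^ 2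
      ≤ ∫ x in (x0 - 1 / 2)..(x0 - 1 / 2 + 1), 4 / (1 - ‖z‖) ^ 2 * gg ((x - x0) / (1 - ‖z‖)) := by
    apply intervalIntegral.integral_mono_on (by linarith)
    · exact (W_cont z hz).intervalIntegrable _ _
    · apply Continuous.intervalIntegrable
      exact continuous_const.mul (gg_cont.comp (by fun_prop))
    · intro x hx
      have hx' : |x - x0| ≤ 1 / 2 := by
        rw [abs_le]; constructor <;> linarith [hx.1, hx.2]
      refine (W_le z hz x0 x h0 hx').trans ?_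
      apply mul_le_mul_of_nonneg_left (gg_ge _) (by positivity)
  refine h1.trans ?_
  rw [intervalIntegral.integral_const_mul]
  have h2 := gg_int_le (1 - ‖z‖) x0 ha
  calc 4 / (1 - ‖z‖) ^ 2 * ∫ x in (x0 - 1 / 2)..(x0 - 1 / 2 + 1), gg ((x - x0) / (1 - ‖z‖))
      ≤ 4 / (1 - ‖z‖) ^ 2 * ((1 - ‖z‖) * KK) := mul_le_mul_of_nonneg_left h2 (by positivity)
    _ = 4 * KK / (1 - ‖z‖) := by field_simp

section
variable {P : ℕ → ℝ → ℝ} (hP : SlopeSys P)
include hP

lemma P_bdd (n : ℕ) (x : ℝ) : |P n x| ≤ n + 1 := by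
  induction n with
  | zero => rw [hP.zero]; simp
  | succ n ih =>
    have := hP.step n x
    have h2 : P (n + 1) x = (P (n + 1) x - P n x) + P n x := by ring
    rw [h2]
    refine (abs_add_le _ _).trans ?_
    push_cast
    linarith

lemma P_ii (n : ℕ) (a b : ℝ) (f : ℝ → ℂ) (hf : Continuous f) :
    IntervalIntegrable (fun x => f x * (P n x : ℂ)) volume a b := by
  have h1 : IntervalIntegrable (fun x => (P n x : ℂ)) volume a b := by
    refine IntervalIntegrable.mono_fun' (g := fun _ => (n + 1 : ℝ)) intervalIntegrable_const ?_ ?_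
    · exact (Complex.measurable_ofReal.comp (hP.meas n)).aestronglyMeasurable
    · refine Eventually.of_forall fun x => ?_
      simp only [Complex.norm_real, Real.norm_eq_abs]
      exact P_bdd hP n x
  exact h1.continuousOn_mul hf.continuousOn

lemma step_piece (z : ℂ) (hz : ‖z‖ < 1) (m : ℕ) (hm : 4 * π / 4 ^ m ≤ 1 - ‖z‖) (j : ℤ) :
    ‖∫ x in ((j : ℝ) / 4 ^ m)..(((j : ℝ) + 1) / 4 ^ m), ka z x * ((P (m + 1) x - P m x : ℝ) : ℂ)‖
      ≤ ∫ x in ((j : ℝ) / 4 ^ m)..(((j : ℝ) + 1) / 4 ^ m),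
        40 * π / 4 ^ m / (1 - ‖z‖) * (1 / ‖ee x - z‖ ^ 2) := by
  have ha : 0 < 1 - ‖z‖ := by linarith
  have h4 : (0 : ℝ) < 4 ^ m := by positivity
  have hle : (j : ℝ) / 4 ^ m ≤ ((j : ℝ) + 1) / 4 ^ m := by
    apply div_le_div_of_nonneg_right _ h4.le; linarith
  set u : ℝ := (j : ℝ) / 4 ^ m with hu
  set v : ℝ := ((j : ℝ) + 1) / 4 ^ m with hv
  have hvu : v - u = 1 / 4 ^ m := by rw [hu, hv]; ring
  have key : ∫ x in u..v, ka z x * ((P (m + 1) x - P m x : ℝ) : ℂ)
      = ∫ x in u..v, (ka z x - ka z u) * ((P (m + 1) x - P m x : ℝ) : ℂ) := by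
    have e0 : ∫ x in u..v, ka z u * ((P (m + 1) x - P m x : ℝ) : ℂ) = 0 := by
      rw [intervalIntegral.integral_const_mul, intervalIntegral.integral_ofReal, hP.mean m j]
      simp
    have i1 : IntervalIntegrable (fun x => ka z x * ((P (m + 1) x - P m x : ℝ) : ℂ)) volume u v := by
      have := (P_ii hP (m + 1) u v (ka z) (ka_cont z hz)).sub (P_ii hP m u v (ka z) (ka_cont z hz))
      refine this.congr ?_
      intro x _; simp only [Complex.ofReal_sub, mul_sub]
    have i2 : IntervalIntegrable (fun x => ka z u * ((P (m + 1) x - P m x : ℝ) : ℂ)) volume u v := by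
      have := (P_ii hP (m + 1) u v (fun _ => ka z u) continuous_const).sub
        (P_ii hP m u v (fun _ => ka z u) continuous_const)
      refine this.congr ?_
      intro x _; simp only [Complex.ofReal_sub, mul_sub]
    rw [← sub_zero (∫ x in u..v, ka z x * ((P (m + 1) x - P m x : ℝ) : ℂ)), ← e0,
      ← intervalIntegral.integral_sub i1 i2]
    congr 1; ext x; ring
  rw [key]
  apply intervalIntegral.norm_integral_le_of_norm_le hle
  · refine Eventually.of_forall fun x hx => ?_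
    rw [norm_mul, Complex.norm_real, Real.norm_eq_abs]
    have hxu : |x - u| ≤ 1 / 4 ^ m := by
      rw [abs_of_pos (by linarith [hx.1])]
      linarith [hx.2]
    have h1 := ka_diff z hz x u (by
      have : 2 * π * |x - u| ≤ 2 * π * (1 / 4 ^ m) := mul_le_mul_of_nonneg_left hxu (by positivity)
      refine this.trans ?_
      have : 2 * π * (1 / 4 ^ m) = (4 * π / 4 ^ m) / 2 := by ring
      rw [this]; linarith)
    have h2 := hP.step m x
    calc ‖ka z x - ka z u‖ * |P (m + 1) x - P m x| ≤ ‖ka z x - ka z u‖ * 1 :=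
          mul_le_mul_of_nonneg_left h2 (norm_nonneg _)
      _ = ‖ka z x - ka z u‖ := mul_one _
      _ ≤ 40 * π * |x - u| / (1 - ‖z‖) * (1 / ‖ee x - z‖ ^ 2) := h1
      _ ≤ 40 * π / 4 ^ m / (1 - ‖z‖) * (1 / ‖ee x - z‖ ^ 2) := by
          apply mul_le_mul_of_nonneg_right _ (by positivity)
          apply div_le_div_of_nonneg_right _ ha.le
          calc 40 * π * |x - u| ≤ 40 * π * (1 / 4 ^ m) := mul_le_mul_of_nonneg_left hxu (by positivity)
            _ = 40 * π / 4 ^ m := by ring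
  · exact (continuous_const.mul (W_cont z hz)).intervalIntegrable _ _

lemma step_int (z : ℂ) (hz : ‖z‖ < 1) (m : ℕ) (hm : 4 * π / 4 ^ m ≤ 1 - ‖z‖) :
    ‖∫ x in (0 : ℝ)..1, ka z x * ((P (m + 1) x - P m x : ℝ) : ℂ)‖
      ≤ 160 * π * KK / (1 - ‖z‖) ^ 2 * (1 / 4 ^ m) := by
  have ha : 0 < 1 - ‖z‖ := by linarith
  have h4 : (0 : ℝ) < 4 ^ m := by positivity
  set a : ℕ → ℝ := fun j => (j : ℝ) / 4 ^ m with hadef
  have e0 : a 0 = 0 := by simp [hadef]
  have e1 : a (4 ^ m) = 1 := by simp [hadef]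
  have i1 : ∀ u v : ℝ, IntervalIntegrable (fun x => ka z x * ((P (m + 1) x - P m x : ℝ) : ℂ)) volume u v := by
    intro u v
    have := (P_ii hP (m + 1) u v (ka z) (ka_cont z hz)).sub (P_ii hP m u v (ka z) (ka_cont z hz))
    refine this.congr ?_
    intro x _; simp only [Complex.ofReal_sub, mul_sub]
  have i2 : ∀ u v : ℝ, IntervalIntegrable (fun x => 40 * π / 4 ^ m / (1 - ‖z‖) * (1 / ‖ee x - z‖ ^ 2))
      volume u v := by
    intro u v
    exact (continuous_const.mul (W_cont z hz)).intervalIntegrable _ _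
  have s1 := intervalIntegral.sum_integral_adjacent_intervals (a := a) (n := 4 ^ m)
    (f := fun x => ka z x * ((P (m + 1) x - P m x : ℝ) : ℂ)) (μ := volume) (fun k _ => i1 _ _)
  have s2 := intervalIntegral.sum_integral_adjacent_intervals (a := a) (n := 4 ^ m)
    (f := fun x => 40 * π / 4 ^ m / (1 - ‖z‖) * (1 / ‖ee x - z‖ ^ 2)) (μ := volume) (fun k _ => i2 _ _)
  rw [e0, e1] at s1 s2
  rw [← s1]
  refine (norm_sum_le _ _).trans ?_
  have h1 : ∑ k ∈ Finset.range (4 ^ m), ‖∫ x in a k..a (k + 1), ka z x * ((P (m + 1) x - P m x : ℝ) : ℂ)‖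
      ≤ ∑ k ∈ Finset.range (4 ^ m), ∫ x in a k..a (k + 1), 40 * π / 4 ^ m / (1 - ‖z‖) * (1 / ‖ee x - z‖ ^ 2) := by
    apply Finset.sum_le_sum
    intro k _
    have := step_piece hP z hz m hm (k : ℤ)
    simp only [hadef]
    push_cast at this ⊢
    exact this
  refine h1.trans ?_
  rw [s2, intervalIntegral.integral_const_mul]
  have h3 := W_int_le z hz
  calc 40 * π / 4 ^ m / (1 - ‖z‖) * ∫ x in (0 : ℝ)..1, 1 / ‖ee x - z‖ ^ 2
      ≤ 40 * π / 4 ^ m / (1 - ‖z‖) * (4 * KK / (1 - ‖z‖)) := mul_le_mul_of_nonneg_left h3 (by positivity)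
    _ = 160 * π * KK / (1 - ‖z‖) ^ 2 * (1 / 4 ^ m) := by field_simp; ring

lemma base_int (z : ℂ) (hz : ‖z‖ < 1) (n : ℕ) (hn : (4 : ℝ) ^ n ≤ 16 * π / (1 - ‖z‖)) :
    ‖∫ x in (0 : ℝ)..1, ka z x * (P n x : ℂ)‖
      ≤ 8 * (2 + 4 * Real.sqrt (16 * π)) * KK / (1 - ‖z‖) := by
  have ha : 0 < 1 - ‖z‖ := by linarith
  obtain ⟨x0, h0⟩ := exists_arg z
  have e1 : ∫ x in (0 : ℝ)..1, ka z x * (P n x : ℂ)
      = ∫ x in (0 : ℝ)..1, ka z x * ((P n x - P n x0 : ℝ) : ℂ) := by
    have e0 : ∫ x in (0 : ℝ)..1, ka z x * (P n x0 : ℂ) = 0 := by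
      rw [intervalIntegral.integral_mul_const, ka_int z hz, zero_mul]
    have i1 := P_ii hP n 0 1 (ka z) (ka_cont z hz)
    have i2 : IntervalIntegrable (fun x => ka z x * (P n x0 : ℂ)) volume 0 1 :=
      ((ka_cont z hz).mul continuous_const).intervalIntegrable _ _
    rw [← sub_zero (∫ x in (0 : ℝ)..1, ka z x * (P n x : ℂ)), ← e0,
      ← intervalIntegral.integral_sub i1 i2]
    congr 1; ext x; push_cast; ring
  have hper : Function.Periodic (fun x : ℝ => ka z x * ((P n x - P n x0 : ℝ) : ℂ)) 1 := by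
    intro x
    simp only [ka_per, hP.per]
  have hp := hper.intervalIntegral_add_eq 0 (x0 - 1 / 2)
  rw [zero_add] at hp
  rw [e1, hp]
  set c' : ℝ := 2 + 4 * Real.sqrt (16 * π) with hc'
  have hc'0 : 0 ≤ c' := by positivity
  have h1 : ‖∫ x in (x0 - 1 / 2)..(x0 - 1 / 2 + 1), ka z x * ((P n x - P n x0 : ℝ) : ℂ)‖
      ≤ ∫ x in (x0 - 1 / 2)..(x0 - 1 / 2 + 1), 8 * c' / (1 - ‖z‖) ^ 2 * gg ((x - x0) / (1 - ‖z‖)) := by
    apply intervalIntegral.norm_integral_le_of_norm_le (by linarith)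
    · refine Eventually.of_forall fun x hx => ?_
      have hx' : |x - x0| ≤ 1 / 2 := by
        rw [abs_le]; constructor <;> linarith [hx.1, hx.2]
      rw [norm_mul, Complex.norm_real, Real.norm_eq_abs, ka_norm]
      have w := W_le z hz x0 x h0 hx'
      have g := hP.grow n x x0
      set s : ℝ := |(x - x0) / (1 - ‖z‖)| with hs
      have hs0 : 0 ≤ s := abs_nonneg _
      have hs1 : |x - x0| / (1 - ‖z‖) = s := by rw [hs, abs_div, abs_of_pos ha]
      have g2 : |P n x - P n x0| ≤ c' * Real.sqrt (1 + s) := by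
        refine g.trans ?_
        have q1 : Real.sqrt (4 ^ n * |x - x0|) ≤ Real.sqrt (16 * π) * Real.sqrt (1 + s) := by
          rw [← Real.sqrt_mul (by positivity)]
          apply Real.sqrt_le_sqrt
          calc (4 : ℝ) ^ n * |x - x0| ≤ 16 * π / (1 - ‖z‖) * |x - x0| :=
                mul_le_mul_of_nonneg_right hn (abs_nonneg _)
            _ = 16 * π * s := by rw [← hs1]; ring
            _ ≤ 16 * π * (1 + s) := by
                apply mul_le_mul_of_nonneg_left _ (by positivity); linarith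
        have q2 : 1 ≤ Real.sqrt (1 + s) := by
          rw [Real.one_le_sqrt]; linarith
        rw [hc']
        nlinarith
      have e3 : gg ((x - x0) / (1 - ‖z‖)) = Real.sqrt (1 + s) / (1 + s) ^ 2 := gg_eq _
      rw [e3]
      calc 2 / ‖ee x - z‖ ^ 2 * |P n x - P n x0|
          = 2 * (1 / ‖ee x - z‖ ^ 2) * |P n x - P n x0| := by ring
        _ ≤ 2 * (4 / (1 - ‖z‖) ^ 2 * (1 / (1 + s) ^ 2)) * (c' * Real.sqrt (1 + s)) := by
            apply mul_le_mul _ g2 (abs_nonneg _) (by positivity)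
            apply mul_le_mul_of_nonneg_left w (by norm_num)
        _ = 8 * c' / (1 - ‖z‖) ^ 2 * (Real.sqrt (1 + s) / (1 + s) ^ 2) := by ring
    · apply Continuous.intervalIntegrable
      exact continuous_const.mul (gg_cont.comp (by fun_prop))
  refine h1.trans ?_
  rw [intervalIntegral.integral_const_mul]
  have h2 := gg_int_le (1 - ‖z‖) x0 ha
  calc 8 * c' / (1 - ‖z‖) ^ 2 * ∫ x in (x0 - 1 / 2)..(x0 - 1 / 2 + 1), gg ((x - x0) / (1 - ‖z‖))
      ≤ 8 * c' / (1 - ‖z‖) ^ 2 * ((1 - ‖z‖) * KK) := mul_le_mul_of_nonneg_left h2 (by positivity)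
    _ = 8 * c' * KK / (1 - ‖z‖) := by field_simp

end

/-- Uniform Bloch bound for the Herglotz transforms. -/
theorem bloch_bound (P : ℕ → ℝ → ℝ) (hP : SlopeSys P) :
    ∃ C : ℝ, 0 < C ∧ ∀ (n : ℕ) (z : ℂ), ‖z‖ < 1 →
      ‖∫ x in (0 : ℝ)..1, 2 * ee x / (ee x - z) ^ 2 * (P n x : ℂ)‖ ≤ C / (1 - ‖z‖) := by
  set c1 : ℝ := 8 * (2 + 4 * Real.sqrt (16 * π)) * KK with hc1
  have hK := KK_nonneg
  have hc10 : 0 ≤ c1 := by positivity
  refine ⟨c1 + 160 * KK + 1, by positivity, ?_⟩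
  intro n z hz
  have ha : 0 < 1 - ‖z‖ := by linarith
  have ha1 : 1 - ‖z‖ ≤ 1 := by have := norm_nonneg z; linarith
  have hx1 : 1 ≤ 4 * π / (1 - ‖z‖) := by
    rw [le_div_iff₀ ha]
    have := Real.pi_gt_three
    linarith
  obtain ⟨N0, hN0, hN1⟩ := exists_nat_pow_near hx1 (show (1 : ℝ) < 4 by norm_num)
  set N := N0 + 1 with hN
  have hNa : 4 * π / 4 ^ N ≤ 1 - ‖z‖ := by
    rw [div_le_iff₀ (by positivity)]
    rw [div_lt_iff₀ ha] at hN1
    linarith
  have hNb : (4 : ℝ) ^ N ≤ 16 * π / (1 - ‖z‖) := by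
    rw [hN, pow_succ]
    calc (4 : ℝ) ^ N0 * 4 ≤ 4 * π / (1 - ‖z‖) * 4 := mul_le_mul_of_nonneg_right hN0 (by norm_num)
      _ = 16 * π / (1 - ‖z‖) := by ring
  have low : ∀ n ≤ N, ‖∫ x in (0 : ℝ)..1, ka z x * (P n x : ℂ)‖ ≤ c1 / (1 - ‖z‖) := by
    intro n hn
    apply base_int hP z hz n
    exact (pow_le_pow_right₀ (by norm_num) hn).trans hNb
  have high : ∀ k : ℕ, ‖∫ x in (0 : ℝ)..1, ka z x * (P (N + k) x : ℂ)‖
      ≤ c1 / (1 - ‖z‖) + 640 * π * KK / (1 - ‖z‖) ^ 2 * (1 / 4 ^ N - 1 / 4 ^ (N + k)) := by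
    intro k
    induction k with
    | zero => simpa using low N le_rfl
    | succ k ih =>
      have hm : 4 * π / 4 ^ (N + k) ≤ 1 - ‖z‖ := by
        refine le_trans ?_ hNa
        apply div_le_div_of_nonneg_left (by positivity) (by positivity)
        exact pow_le_pow_right₀ (by norm_num) (by omega)
      have st := step_int hP z hz (N + k) hm
      have e : ∫ x in (0 : ℝ)..1, ka z x * (P (N + (k + 1)) x : ℂ)
          = (∫ x in (0 : ℝ)..1, ka z x * (P (N + k) x : ℂ))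
            + ∫ x in (0 : ℝ)..1, ka z x * ((P (N + k + 1) x - P (N + k) x : ℝ) : ℂ) := by
        have i1 := P_ii hP (N + k) 0 1 (ka z) (ka_cont z hz)
        have i2 : IntervalIntegrable (fun x => ka z x * ((P (N + k + 1) x - P (N + k) x : ℝ) : ℂ))
            volume 0 1 := by
          have := (P_ii hP (N + k + 1) 0 1 (ka z) (ka_cont z hz)).sub i1
          refine this.congr ?_
          intro x _; simp only [Complex.ofReal_sub, mul_sub]
        rw [← intervalIntegral.integral_add i1 i2]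
        congr 1; ext x; rw [← add_assoc]; push_cast; ring
      rw [e]
      refine (norm_add_le _ _).trans ?_
      refine (add_le_add ih st).trans ?_
      have hq : 0 ≤ 160 * π * KK / (1 - ‖z‖) ^ 2 := by positivity
      have hr : (1 : ℝ) / 4 ^ (N + (k + 1)) = 1 / 4 ^ (N + k) / 4 := by
        rw [← add_assoc, pow_succ]; field_simp
      have hpos : (0 : ℝ) < 1 / 4 ^ (N + k) := by positivity
      rw [hr]
      set q := 160 * π * KK / (1 - ‖z‖) ^ 2 with hqdef
      have hq4 : 640 * π * KK / (1 - ‖z‖) ^ 2 = 4 * q := by rw [hqdef]; ring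
      rw [hq4]
      set t := (1 : ℝ) / 4 ^ (N + k) with ht
      nlinarith [mul_nonneg hq hpos.le]
  have fin : ‖∫ x in (0 : ℝ)..1, ka z x * (P n x : ℂ)‖ ≤ (c1 + 160 * KK + 1) / (1 - ‖z‖) := by
    rcases le_total n N with h | h
    · refine (low n h).trans ?_
      apply div_le_div_of_nonneg_right _ ha.le
      linarith
    · obtain ⟨k, rfl⟩ := Nat.exists_eq_add_of_le h
      refine (high k).trans ?_
      have h1 : 640 * π * KK / (1 - ‖z‖) ^ 2 * (1 / 4 ^ N - 1 / 4 ^ (N + k))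
          ≤ 640 * π * KK / (1 - ‖z‖) ^ 2 * (1 / 4 ^ N) := by
        apply mul_le_mul_of_nonneg_left _ (by positivity)
        have : (0 : ℝ) < 1 / 4 ^ (N + k) := by positivity
        linarith
      have h2 : 640 * π * KK / (1 - ‖z‖) ^ 2 * (1 / 4 ^ N) = 160 * KK / (1 - ‖z‖) ^ 2 * (4 * π / 4 ^ N) := by
        ring
      have h3 : 160 * KK / (1 - ‖z‖) ^ 2 * (4 * π / 4 ^ N) ≤ 160 * KK / (1 - ‖z‖) ^ 2 * (1 - ‖z‖) :=
        mul_le_mul_of_nonneg_left hNa (by positivity)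
      have h4 : 160 * KK / (1 - ‖z‖) ^ 2 * (1 - ‖z‖) = 160 * KK / (1 - ‖z‖) := by
        field_simp
      have h5 : (c1 + 160 * KK + 1) / (1 - ‖z‖) = c1 / (1 - ‖z‖) + 160 * KK / (1 - ‖z‖) + 1 / (1 - ‖z‖) := by
        ring
      rw [h5]
      have : 0 < 1 / (1 - ‖z‖) := by positivity
      linarith
  exact fin

end Quad
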