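import Mathlib

open Finset
open scoped ComplexConjugate

namespace Quad


lemma disc_parseval (K : ℕ) (hK : 0 < K) (P : Polynomial ℂ) (hP : P.natDegree < K) (ω : ℂ)
    (hω : IsPrimitiveRoot ω K) :
    ∑ k ∈ range K, ‖P.eval (ω ^ k)‖ ^ 2 = K * ∑ n ∈ range K, ‖P.coeff n‖ ^ 2 := by
  have hn : ‖ω‖ = 1 := hω.norm'_eq_one hK.ne'
  have hwc : ω * conj ω = 1 := by
    rw [Complex.mul_conj, Complex.normSq_eq_norm_sq, hn]; simp
  have key : ∀ n ∈ range K, ∀ m ∈ range K, ∑ k ∈ range K, (ω ^ n * conj ω ^ m) ^ k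
      = if n = m then (K : ℂ) else 0 := by
    intro n hn' m hm'
    rw [mem_range] at hn' hm'
    split_ifs with h
    · subst h
      rw [← mul_pow, hwc]; simp
    · have hne : ω ^ n * conj ω ^ m ≠ 1 := by
        intro h1
        apply h
        have : ω ^ n = ω ^ m := by
          calc ω ^ n = ω ^ n * (conj ω ^ m * ω ^ m) := by
                rw [← mul_pow, mul_comm (conj ω), hwc]; simp
            _ = ω ^ m := by rw [← mul_assoc, h1, one_mul]
        exact hω.pow_inj hn' hm' this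
      have h1 : (ω ^ n * conj ω ^ m) ^ K = 1 := by
        rw [mul_pow, ← pow_mul, ← pow_mul, mul_comm n K, mul_comm m K, pow_mul, pow_mul,
          ← map_pow, hω.pow_eq_one]; simp
      rw [geom_sum_eq hne, h1]; simp
  have hc : ((∑ k ∈ range K, ‖P.eval (ω ^ k)‖ ^ 2 : ℝ) : ℂ) =
      ((K * ∑ n ∈ range K, ‖P.coeff n‖ ^ 2 : ℝ) : ℂ) := by
    push_cast
    calc ∑ k ∈ range K, (‖P.eval (ω ^ k)‖ : ℂ) ^ 2
        = ∑ k ∈ range K, ∑ n ∈ range K, ∑ m ∈ range K,
            P.coeff n * conj (P.coeff m) * (ω ^ n * conj ω ^ m) ^ k := by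
          refine sum_congr rfl fun k _ => ?_
          rw [← Complex.mul_conj', Polynomial.eval_eq_sum_range' hP, map_sum, sum_mul_sum]
          refine sum_congr rfl fun n _ => sum_congr rfl fun m _ => ?_
          simp only [map_mul, map_pow]
          rw [mul_pow, ← pow_mul, ← pow_mul, ← pow_mul, ← pow_mul, mul_comm n k, mul_comm m k]
          ring
      _ = ∑ n ∈ range K, ∑ m ∈ range K, P.coeff n * conj (P.coeff m) *
            ∑ k ∈ range K, (ω ^ n * conj ω ^ m) ^ k := by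
          rw [sum_comm]
          refine sum_congr rfl fun n _ => ?_
          rw [sum_comm]
          refine sum_congr rfl fun m _ => ?_
          rw [mul_sum]
      _ = ∑ n ∈ range K, P.coeff n * conj (P.coeff n) * K := by
          refine sum_congr rfl fun n hn => ?_
          rw [sum_congr rfl fun m hm => by rw [key n hn m hm]]
          simp only [mul_ite, mul_zero]
          rw [sum_ite_eq]
          simp [hn]
      _ = _ := by
          rw [mul_sum]
          refine sum_congr rfl fun n _ => ?_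
          rw [Complex.mul_conj']; ring
  exact_mod_cast hc

/-- Multiplication by a bounded analytic function is a contraction of `H²` (coefficient form). -/
theorem conv_contraction (S : ℂ → ℂ) (s : ℕ → ℂ)
    (hs : ∀ z ∈ Metric.ball (0 : ℂ) 1, HasSum (fun n => s n * z ^ n) (S z))
    (hb : ∀ z ∈ Metric.ball (0 : ℂ) 1, ‖S z‖ ≤ 1) (x : ℕ → ℂ) (N : ℕ) :
    ∑ n ∈ range N, ‖∑ p ∈ antidiagonal n, s p.1 * x p.2‖ ^ 2 ≤ ∑ n ∈ range N, ‖x n‖ ^ 2 := by
  set c : ℕ → ℂ := fun n => ∑ p ∈ antidiagonal n, s p.1 * x p.2 with hc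
  -- main estimate for a fixed radius
  have main : ∀ r : ℝ, 0 < r → r < 1 → ∀ ε : ℝ, 0 < ε →
      ∑ n ∈ range N, ‖c n‖ ^ 2 * r ^ (2 * n) ≤ (1 + ε) ^ 2 * ∑ n ∈ range N, ‖x n‖ ^ 2 := by
    intro r hr0 hr1 ε hε
    have hsum : Summable fun n => ‖s n‖ * r ^ n := by
      have h1 := (hs (r : ℂ) (by simpa [abs_of_pos hr0] using hr1)).summable
      have h2 := summable_norm_iff.mpr h1
      refine h2.congr fun n => ?_
      simp [abs_of_pos hr0]
    have htail := tendsto_sum_nat_add fun n => ‖s n‖ * r ^ n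
    obtain ⟨M, hMN, hM⟩ : ∃ M, N ≤ M ∧ ∑' k, ‖s (k + M)‖ * r ^ (k + M) < ε := by
      have := (htail.eventually (gt_mem_nhds hε)).and (Filter.eventually_ge_atTop N)
      obtain ⟨M, h1, h2⟩ := this.exists
      exact ⟨M, h2, h1⟩
    let P : Polynomial ℂ := ∑ n ∈ range M, Polynomial.monomial n (s n * (r : ℂ) ^ n)
    let Q : Polynomial ℂ := ∑ n ∈ range N, Polynomial.monomial n (x n * (r : ℂ) ^ n)
    have hPc : ∀ n, P.coeff n = if n < M then s n * (r : ℂ) ^ n else 0 := by
      intro n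
      simp only [P, Polynomial.finsetSum_coeff, Polynomial.coeff_monomial]
      rw [sum_ite_eq']
      simp
    have hQc : ∀ n, Q.coeff n = if n < N then x n * (r : ℂ) ^ n else 0 := by
      intro n
      simp only [Q, Polynomial.finsetSum_coeff, Polynomial.coeff_monomial]
      rw [sum_ite_eq']
      simp
    have hPd : P.natDegree ≤ M := by
      rw [Polynomial.natDegree_le_iff_coeff_eq_zero]
      intro n hn
      rw [hPc, if_neg (by omega)]
    have hQd : Q.natDegree ≤ N := by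
      rw [Polynomial.natDegree_le_iff_coeff_eq_zero]
      intro n hn
      rw [hQc, if_neg (by omega)]
    set K := M + N + 1 with hK
    have hK0 : 0 < K := by omega
    have hPQd : (P * Q).natDegree < K :=
      lt_of_le_of_lt Polynomial.natDegree_mul_le (by omega)
    obtain ⟨ω, hω⟩ : ∃ ω : ℂ, IsPrimitiveRoot ω K :=
      ⟨_, Complex.isPrimitiveRoot_exp K hK0.ne'⟩
    have hωn : ‖ω‖ = 1 := hω.norm'_eq_one hK0.ne'
    have e1 := disc_parseval K hK0 (P * Q) hPQd ω hω
    have e2 := disc_parseval K hK0 Q (by omega) ω hω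
    -- coefficients
    have hcoef : ∀ n, n < N → (P * Q).coeff n = c n * (r : ℂ) ^ n := by
      intro n hn
      rw [Polynomial.coeff_mul, hc]
      simp only
      rw [sum_mul]
      refine sum_congr rfl fun p hp => ?_
      rw [Finset.HasAntidiagonal.mem_antidiagonal] at hp
      rw [hPc, hQc, if_pos (by omega), if_pos (by omega), ← hp, pow_add]
      ring
    -- evaluation bound
    have heval : ∀ k, ‖P.eval (ω ^ k)‖ ≤ 1 + ε := by
      intro k
      set z : ℂ := r * ω ^ k with hz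
      have hzn : ‖z‖ = r := by rw [hz, norm_mul, norm_pow, hωn]; simp [abs_of_pos hr0]
      have hzb : z ∈ Metric.ball (0 : ℂ) 1 := by simpa [hzn] using hr1
      have hPz : P.eval (ω ^ k) = ∑ n ∈ range M, s n * z ^ n := by
        simp only [P, Polynomial.eval_finsetSum, Polynomial.eval_monomial]
        refine sum_congr rfl fun n _ => ?_
        rw [hz, mul_pow]; ring
      have hh := hs z hzb
      have hsplit := hh.summable.sum_add_tsum_nat_add M
      rw [hh.tsum_eq] at hsplit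
      have ht : ‖∑' n, s (n + M) * z ^ (n + M)‖ ≤ ε := by
        refine le_trans (norm_tsum_le_tsum_norm ?_) ?_
        · have := (summable_nat_add_iff M).mpr hsum
          refine this.congr fun n => ?_
          rw [norm_mul, norm_pow, hzn]
        · rw [tsum_congr (fun n => by rw [norm_mul, norm_pow, hzn] : ∀ n, ‖s (n + M) * z ^ (n + M)‖ = ‖s (n + M)‖ * r ^ (n + M))]
          exact hM.le
      rw [hPz, eq_sub_of_add_eq hsplit]
      refine (norm_sub_le _ _).trans ?_
      exact add_le_add (hb z hzb) ht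
    have step1 : ∑ n ∈ range N, ‖c n‖ ^ 2 * r ^ (2 * n) ≤ ∑ n ∈ range K, ‖(P * Q).coeff n‖ ^ 2 := by
      have : ∑ n ∈ range N, ‖c n‖ ^ 2 * r ^ (2 * n) = ∑ n ∈ range N, ‖(P * Q).coeff n‖ ^ 2 := by
        refine sum_congr rfl fun n hn => ?_
        rw [hcoef n (mem_range.mp hn), norm_mul, norm_pow, mul_pow, ← pow_mul, mul_comm n 2]
        simp [abs_of_pos hr0]
      rw [this]
      exact sum_le_sum_of_subset_of_nonneg (range_mono (by omega)) fun _ _ _ => by positivity
    have step2 : (K : ℝ) * ∑ n ∈ range K, ‖(P * Q).coeff n‖ ^ 2 ≤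
        (1 + ε) ^ 2 * ((K : ℝ) * ∑ n ∈ range K, ‖Q.coeff n‖ ^ 2) := by
      rw [← e1, ← e2, Finset.mul_sum (range K) _ ((1 + ε) ^ 2)]
      refine sum_le_sum fun k _ => ?_
      rw [Polynomial.eval_mul, norm_mul, mul_pow]
      have := heval k
      gcongr
    have step3 : ∑ n ∈ range K, ‖Q.coeff n‖ ^ 2 ≤ ∑ n ∈ range N, ‖x n‖ ^ 2 := by
      have h1 : ∑ n ∈ range N, ‖Q.coeff n‖ ^ 2 = ∑ n ∈ range K, ‖Q.coeff n‖ ^ 2 := by
        refine sum_subset (range_mono (by omega)) fun n _ hn => ?_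
        rw [hQc, if_neg (by simpa using hn)]; simp
      rw [← h1]
      refine sum_le_sum fun n hn => ?_
      rw [hQc, if_pos (mem_range.mp hn), norm_mul, norm_pow, mul_pow]
      have : (‖(r : ℂ)‖ ^ n) ^ 2 ≤ 1 := by
        have h : ‖(r : ℂ)‖ ≤ 1 := by simp [abs_of_pos hr0]; exact hr1.le
        exact pow_le_one₀ (by positivity) (pow_le_one₀ (norm_nonneg _) h)
      nlinarith [sq_nonneg ‖x n‖]
    have hKr : (0 : ℝ) < K := by exact_mod_cast hK0
    have step4 : ∑ n ∈ range K, ‖(P * Q).coeff n‖ ^ 2 ≤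
        (1 + ε) ^ 2 * ∑ n ∈ range K, ‖Q.coeff n‖ ^ 2 := by
      refine le_of_mul_le_mul_left ?_ hKr
      calc _ ≤ _ := step2
        _ = _ := by ring
    calc _ ≤ _ := step1
      _ ≤ _ := step4
      _ ≤ _ := by gcongr
  have main2 : ∀ r : ℝ, 0 < r → r < 1 →
      ∑ n ∈ range N, ‖c n‖ ^ 2 * r ^ (2 * n) ≤ ∑ n ∈ range N, ‖x n‖ ^ 2 := by
    intro r hr0 hr1
    have ht : Filter.Tendsto (fun ε : ℝ => (1 + ε) ^ 2 * ∑ n ∈ range N, ‖x n‖ ^ 2)
        (nhdsWithin 0 (Set.Ioi 0)) (nhds ((1 + 0) ^ 2 * ∑ n ∈ range N, ‖x n‖ ^ 2)) := by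
      refine tendsto_nhdsWithin_of_tendsto_nhds ?_
      exact Continuous.tendsto (by fun_prop) 0
    have := ge_of_tendsto ht (by
      filter_upwards [self_mem_nhdsWithin] with ε hε
      exact main r hr0 hr1 ε hε)
    simpa using this
  have ht : Filter.Tendsto (fun r : ℝ => ∑ n ∈ range N, ‖c n‖ ^ 2 * r ^ (2 * n))
      (nhdsWithin 1 (Set.Iio 1)) (nhds (∑ n ∈ range N, ‖c n‖ ^ 2 * 1 ^ (2 * n))) := by
    refine tendsto_nhdsWithin_of_tendsto_nhds ?_
    exact Continuous.tendsto (by fun_prop) 1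
  have := le_of_tendsto ht (by
    filter_upwards [Ioo_mem_nhdsLT (zero_lt_one' ℝ)] with r hr
    exact main2 r hr.1 hr.2)
  simpa using this



end Quad
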