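import Mathlib

open Finset
open scoped ComplexConjugate ENNReal

namespace Quad


namespace QFP

noncomputable abbrev H := lp (fun _ : ℕ => ℂ) 2

lemma two_toReal : (2 : ℝ≥0∞).toReal = 2 := by norm_num

/-- norm bound from range sums -/
lemma norm_le_of_range (x : H) (C : ℝ) (hC : 0 ≤ C)
    (h : ∀ N, ∑ n ∈ range N, ‖x n‖ ^ 2 ≤ C ^ 2) : ‖x‖ ≤ C := by
  apply lp.norm_le_of_forall_sum_le (p := 2) (by norm_num) hC
  intro s
  obtain ⟨N, hN⟩ := s.exists_nat_subset_range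
  have := h N
  calc ∑ i ∈ s, ‖x i‖ ^ (2 : ℝ≥0∞).toReal = ∑ i ∈ s, ‖x i‖ ^ 2 := by
        refine Finset.sum_congr rfl fun i _ => ?_
        rw [two_toReal]; norm_cast
    _ ≤ ∑ i ∈ range N, ‖x i‖ ^ 2 := Finset.sum_le_sum_of_subset_of_nonneg hN (fun _ _ _ => by positivity)
    _ ≤ C ^ 2 := this
    _ = C ^ (2 : ℝ≥0∞).toReal := by rw [two_toReal]; norm_cast

lemma memlp_of_range (x : ℕ → ℂ) (C : ℝ)
    (h : ∀ N, ∑ n ∈ range N, ‖x n‖ ^ 2 ≤ C) : Memℓp x 2 := by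
  apply memℓp_gen' (C := C)
  intro s
  obtain ⟨N, hN⟩ := s.exists_nat_subset_range
  have := h N
  calc ∑ i ∈ s, ‖x i‖ ^ (2 : ℝ≥0∞).toReal = ∑ i ∈ s, ‖x i‖ ^ 2 := by
        refine Finset.sum_congr rfl fun i _ => ?_
        rw [two_toReal]; norm_cast
    _ ≤ ∑ i ∈ range N, ‖x i‖ ^ 2 := Finset.sum_le_sum_of_subset_of_nonneg hN (fun _ _ _ => by positivity)
    _ ≤ C := this

lemma range_le_norm (x : H) (N : ℕ) : ∑ n ∈ range N, ‖x n‖ ^ 2 ≤ ‖x‖ ^ 2 := by
  have := lp.sum_rpow_le_norm_rpow (p := 2) (by norm_num) x (range N)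
  rw [two_toReal] at this
  exact_mod_cast this

/-- operator from section bounded linear map -/
noncomputable def ofSec (L : (ℕ → ℂ) →ₗ[ℂ] (ℕ → ℂ)) (C : ℝ) (hC : 0 ≤ C)
    (h : ∀ (x : ℕ → ℂ) (N : ℕ), ∑ n ∈ range N, ‖L x n‖ ^ 2 ≤ C ^ 2 * ∑ n ∈ range N, ‖x n‖ ^ 2) :
    H →L[ℂ] H := 
  LinearMap.mkContinuous
   { toFun := fun x => ⟨L x, memlp_of_range _ (C ^ 2 * ‖x‖ ^ 2) (fun N => (h x N).trans 
        (mul_le_mul_of_nonneg_left (range_le_norm x N) (by positivity)))⟩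
     map_add' := fun x y => by
      apply lp.ext
      change L (⇑(x + y)) = _
      rw [lp.coeFn_add, map_add]; rfl
     map_smul' := fun c x => by
      apply lp.ext
      change L (⇑(c • x)) = _
      rw [lp.coeFn_smul, map_smul]; rfl } C (by
    intro x
    apply norm_le_of_range _ _ (by positivity)
    intro N
    rw [mul_pow]
    exact (h x N).trans (mul_le_mul_of_nonneg_left (range_le_norm x N) (by positivity)))

@[simp] lemma ofSec_apply (L : (ℕ → ℂ) →ₗ[ℂ] (ℕ → ℂ)) (C : ℝ) (hC : 0 ≤ C)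
    (h : ∀ (x : ℕ → ℂ) (N : ℕ), ∑ n ∈ range N, ‖L x n‖ ^ 2 ≤ C ^ 2 * ∑ n ∈ range N, ‖x n‖ ^ 2) 
    (x : H) (n : ℕ) : ofSec L C hC h x n = L x n := rfl

lemma ofSec_norm (L : (ℕ → ℂ) →ₗ[ℂ] (ℕ → ℂ)) (C : ℝ) (hC : 0 ≤ C)
    (h : ∀ (x : ℕ → ℂ) (N : ℕ), ∑ n ∈ range N, ‖L x n‖ ^ 2 ≤ C ^ 2 * ∑ n ∈ range N, ‖x n‖ ^ 2) :
    ‖ofSec L C hC h‖ ≤ C := LinearMap.mkContinuous_norm_le _ hC _

/-- convolution as a linear map -/
noncomputable def convL (a : ℕ → ℂ) : (ℕ → ℂ) →ₗ[ℂ] (ℕ → ℂ) where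
  toFun x n := ∑ p ∈ antidiagonal n, a p.1 * x p.2
  map_add' x y := by ext n; simp [mul_add, Finset.sum_add_distrib]
  map_smul' c x := by ext n; simp [Finset.mul_sum, mul_left_comm]

lemma convL_apply (a x : ℕ → ℂ) (n : ℕ) : convL a x n = ∑ p ∈ antidiagonal n, a p.1 * x p.2 := rfl

lemma convL_eq_coeff (a x : ℕ → ℂ) (n : ℕ) : 
    convL a x n = PowerSeries.coeff n (PowerSeries.mk a * PowerSeries.mk x) := by
  rw [convL_apply, PowerSeries.coeff_mul]; simp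

lemma mk_convL (a x : ℕ → ℂ) : PowerSeries.mk (convL a x) = PowerSeries.mk a * PowerSeries.mk x := by
  ext n; rw [PowerSeries.coeff_mk, convL_eq_coeff]

lemma mk_inj {a b : ℕ → ℂ} (h : PowerSeries.mk a = PowerSeries.mk b) : a = b := by
  ext n
  have := congrArg (PowerSeries.coeff n) h
  simpa using this

lemma convL_comm (a b : ℕ → ℂ) : convL a b = convL b a := by
  apply mk_inj; rw [mk_convL, mk_convL, mul_comm]

lemma convL_assoc (a b c : ℕ → ℂ) : convL a (convL b c) = convL (convL a b) c := by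
  apply mk_inj; simp only [mk_convL, mul_assoc]

/-- weighted convolution `D⁻¹ T_a D`. -/
noncomputable def wconvL (a : ℕ → ℂ) : (ℕ → ℂ) →ₗ[ℂ] (ℕ → ℂ) where
  toFun x n := convL a (fun k => ((k : ℂ) + 1) * x k) n / ((n : ℂ) + 1)
  map_add' x y := by 
    ext n
    have : (fun k : ℕ => ((k : ℂ) + 1) * (x + y) k) = (fun k : ℕ => ((k : ℂ) + 1) * x k) + (fun k : ℕ => ((k : ℂ) + 1) * y k) := by
      ext k; simp [mul_add]
    rw [this, map_add]; simp [add_div]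
  map_smul' c x := by
    ext n
    have : (fun k : ℕ => ((k : ℂ) + 1) * (c • x) k) = c • (fun k : ℕ => ((k : ℂ) + 1) * x k) := by
      ext k; simp [mul_left_comm]
    rw [this, map_smul]; simp [mul_div_assoc]

lemma wconvL_apply (a x : ℕ → ℂ) (n : ℕ) : 
  wconvL a x n = convL a (fun k => ((k : ℂ) + 1) * x k) n / ((n : ℂ) + 1) := rfl

lemma abel (c w : ℕ → ℝ) (hw : Antitone w)     (hc : ∀ N, 0 ≤ ∑ n ∈ range N, c n) (N : ℕ) : 
    w N * ∑ n ∈ range N, c n ≤ ∑ n ∈ range N, w n * c n := by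
  induction N with
  | zero => simp
  | succ N ih =>
    rw [Finset.sum_range_succ (fun n => w n * c n)]
    calc w (N + 1) * ∑ n ∈ range (N + 1), c n ≤ w N * ∑ n ∈ range (N + 1), c n :=
          mul_le_mul_of_nonneg_right (hw (Nat.le_succ N)) (hc _)
      _ = w N * ∑ n ∈ range N, c n + w N * c N := by rw [Finset.sum_range_succ]; ring
      _ ≤ _ := by linarith

lemma sec_weight (a : ℕ → ℂ) (C : ℝ)
    (h : ∀ (x : ℕ → ℂ) (N : ℕ), ∑ n ∈ range N, ‖convL a x n‖ ^ 2 ≤ C ^ 2 * ∑ n ∈ range N, ‖x n‖ ^ 2)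
    (x : ℕ → ℂ) (N : ℕ) : ∑ n ∈ range N, ‖wconvL a x n‖ ^ 2 ≤ C ^ 2 * ∑ n ∈ range N, ‖x n‖ ^ 2 := by
  set v : ℕ → ℂ := fun k => ((k : ℂ) + 1) * x k with hv
  have key := abel (fun n => C ^ 2 * ‖v n‖ ^ 2 - ‖convL a v n‖ ^ 2) (fun n => 1 / ((n : ℝ) + 1) ^ 2)
    (by
      intro m n hmn
      have : (m : ℝ) ≤ n := by exact_mod_cast hmn
      apply one_div_le_one_div_of_le (by positivity)
      gcongr) (by
      intro M
      rw [Finset.sum_sub_distrib, ← Finset.mul_sum]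
      have := h v M
      linarith) N
  have h0 : 0 ≤ (1 / ((N : ℝ) + 1) ^ 2) * ∑ n ∈ range N, (C ^ 2 * ‖v n‖ ^ 2 - ‖convL a v n‖ ^ 2) := by
    apply mul_nonneg (by positivity)
    rw [Finset.sum_sub_distrib, ← Finset.mul_sum]
    have := h v N
    linarith
  have key2 := h0.trans key
  have e1 : ∀ n ∈ range N, (1 / ((n : ℝ) + 1) ^ 2) * (C ^ 2 * ‖v n‖ ^ 2 - ‖convL a v n‖ ^ 2) = 
      C ^ 2 * ‖x n‖ ^ 2 - ‖wconvL a x n‖ ^ 2 := by
    intro n _
    have hn : ‖((n : ℂ) + 1)‖ = (n : ℝ) + 1 := by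
      have : ((n : ℂ) + 1) = (((n : ℝ) + 1 : ℝ) : ℂ) := by push_cast; ring
      rw [this, Complex.norm_real, Real.norm_of_nonneg (by positivity)]
    rw [wconvL_apply, norm_div, hn]
    simp only [hv, norm_mul, hn]
    have : (n : ℝ) + 1 ≠ 0 := by positivity
    field_simp
  rw [Finset.sum_congr rfl e1, Finset.sum_sub_distrib, ← Finset.mul_sum] at key2
  linarith


lemma sum_antidiag_le (f : ℕ → ℕ → ℝ) (hf : ∀ p q, 0 ≤ f p q) (N : ℕ) :
    ∑ n ∈ range N, ∑ p ∈ antidiagonal n, f p.1 p.2 ≤ ∑ p ∈ range N, ∑ q ∈ range N, f p q := by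
  rw [← Finset.sum_product', ← Finset.sum_biUnion]
  · apply Finset.sum_le_sum_of_subset_of_nonneg
    · intro p hp
      simp only [Finset.mem_biUnion, Finset.mem_range, HasAntidiagonal.mem_antidiagonal] at hp
      obtain ⟨n, hn, hp⟩ := hp
      simp only [Finset.mem_product, Finset.mem_range]
      omega
    · intro p _ _
      exact hf _ _
  · intro m _ n _ hmn
    rw [Function.onFun, Finset.disjoint_left]
    intro p hp hp'
    rw [HasAntidiagonal.mem_antidiagonal] at hp hp'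
    exact hmn (hp.symm.trans hp')

/-- Young's inequality for sections -/
lemma young (g : ℕ → ℂ) (D : ℝ) (hg : ∀ N, ∑ n ∈ range N, ‖g n‖ ≤ D) 
    (x : ℕ → ℂ) (N : ℕ) : ∑ n ∈ range N, ‖convL g x n‖ ^ 2 ≤ D ^ 2 * ∑ n ∈ range N, ‖x n‖ ^ 2 := by
  have hD : 0 ≤ D := by simpa using hg 0
  have h1 : ∀ n, ‖convL g x n‖ ^ 2 ≤ D * ∑ p ∈ antidiagonal n, ‖g p.1‖ * ‖x p.2‖ ^ 2 := by
    intro n
    have hsum : ∑ p ∈ antidiagonal n, ‖g p.1‖ ≤ D := by
      rw [Finset.Nat.sum_antidiagonal_eq_sum_range_succ (fun i _ => ‖g i‖) n]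
      exact hg (n + 1)
    have cs := Finset.sum_mul_sq_le_sq_mul_sq (antidiagonal n) (fun p => Real.sqrt ‖g p.1‖) 
      (fun p => Real.sqrt ‖g p.1‖ * ‖x p.2‖)
    have e1 : ∑ p ∈ antidiagonal n, Real.sqrt ‖g p.1‖ * (Real.sqrt ‖g p.1‖ * ‖x p.2‖) = 
        ∑ p ∈ antidiagonal n, ‖g p.1‖ * ‖x p.2‖ := by
      refine Finset.sum_congr rfl fun p _ => ?_
      rw [← mul_assoc, Real.mul_self_sqrt (norm_nonneg _)]
    have e2 : ∑ p ∈ antidiagonal n, Real.sqrt ‖g p.1‖ ^ 2 = ∑ p ∈ antidiagonal n, ‖g p.1‖ := by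
      refine Finset.sum_congr rfl fun p _ => ?_
      rw [Real.sq_sqrt (norm_nonneg _)]
    have e3 : ∑ p ∈ antidiagonal n, (Real.sqrt ‖g p.1‖ * ‖x p.2‖) ^ 2 = 
        ∑ p ∈ antidiagonal n, ‖g p.1‖ * ‖x p.2‖ ^ 2 := by
      refine Finset.sum_congr rfl fun p _ => ?_
      rw [mul_pow, Real.sq_sqrt (norm_nonneg _)]
    rw [e1, e2, e3] at cs
    have hle : ‖convL g x n‖ ≤ ∑ p ∈ antidiagonal n, ‖g p.1‖ * ‖x p.2‖ := by
      rw [convL_apply]
      refine (norm_sum_le _ _).trans (le_of_eq ?_)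
      simp only [norm_mul]
    calc ‖convL g x n‖ ^ 2 ≤ (∑ p ∈ antidiagonal n, ‖g p.1‖ * ‖x p.2‖) ^ 2 := by gcongr
      _ ≤ _ := cs
      _ ≤ _ := mul_le_mul_of_nonneg_right hsum (Finset.sum_nonneg fun _ _ => by positivity)
  calc ∑ n ∈ range N, ‖convL g x n‖ ^ 2 ≤ ∑ n ∈ range N, D * ∑ p ∈ antidiagonal n, ‖g p.1‖ * ‖x p.2‖ ^ 2 :=
        Finset.sum_le_sum fun n _ => h1 n
    _ = D * ∑ n ∈ range N, ∑ p ∈ antidiagonal n, ‖g p.1‖ * ‖x p.2‖ ^ 2 := by rw [Finset.mul_sum]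
    _ ≤ D * ∑ p ∈ range N, ∑ q ∈ range N, ‖g p‖ * ‖x q‖ ^ 2 := by
        apply mul_le_mul_of_nonneg_left _ hD
        exact sum_antidiag_le (fun p q => ‖g p‖ * ‖x q‖ ^ 2) (fun _ _ => by positivity) N
    _ = D * ((∑ p ∈ range N, ‖g p‖) * ∑ q ∈ range N, ‖x q‖ ^ 2) := by
        rw [Finset.sum_mul_sum]
    _ ≤ D * (D * ∑ q ∈ range N, ‖x q‖ ^ 2) := by
        apply mul_le_mul_of_nonneg_left _ hD
        exact mul_le_mul_of_nonneg_right (hg N) (Finset.sum_nonneg fun _ _ => by positivity)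
    _ = _ := by ring

/-- unit vector -/
noncomputable def e0 : H := lp.single 2 0 (1 : ℂ)

lemma e0_apply (n : ℕ) : e0 n = if n = 0 then 1 else 0 := by
  unfold e0
  by_cases h : n = 0
  · subst h; simp
  · simp [h]

lemma coe_e0 : (e0 : ℕ → ℂ) = fun n => if n = 0 then 1 else 0 := funext e0_apply

lemma conv_e0 (a : ℕ → ℂ) : convL a e0 = a := by
  apply mk_inj
  rw [mk_convL]
  have : PowerSeries.mk (e0 : ℕ → ℂ) = 1 := by
    ext n; rw [PowerSeries.coeff_mk, e0_apply, PowerSeries.coeff_one]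
  rw [this, mul_one]

/-- diagonal (multiplication) operators with multipliers bounded by C -/
noncomputable def diagL (d : ℕ → ℂ) : (ℕ → ℂ) →ₗ[ℂ] (ℕ → ℂ) where
  toFun x n := d n * x n
  map_add' x y := by ext n; simp [mul_add]
  map_smul' c x := by ext n; simp [mul_left_comm]

lemma diag_sec (d : ℕ → ℂ) (C : ℝ) (hd : ∀ n, ‖d n‖ ≤ C) (x : ℕ → ℂ) (N : ℕ) :
    ∑ n ∈ range N, ‖diagL d x n‖ ^ 2 ≤ C ^ 2 * ∑ n ∈ range N, ‖x n‖ ^ 2 := by
  rw [Finset.mul_sum]
  refine Finset.sum_le_sum fun n _ => ?_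
  change ‖d n * x n‖ ^ 2 ≤ _
  rw [norm_mul, mul_pow]
  gcongr
  exact hd n

noncomputable def diagOp (d : ℕ → ℂ) (C : ℝ) (hC : 0 ≤ C) (hd : ∀ n, ‖d n‖ ≤ C) : H →L[ℂ] H :=
  ofSec (diagL d) C hC (diag_sec d C hd)

lemma diagOp_norm (d : ℕ → ℂ) (C : ℝ) (hC : 0 ≤ C) (hd : ∀ n, ‖d n‖ ≤ C) : ‖diagOp d C hC hd‖ ≤ C :=
  ofSec_norm _ _ _ _

lemma norm_cast_add (n : ℕ) : ‖((n : ℂ) + 1)‖ = (n : ℝ) + 1 := by
  have : ((n : ℂ) + 1) = (((n : ℝ) + 1 : ℝ) : ℂ) := by push_cast; ring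
  rw [this, Complex.norm_real, Real.norm_of_nonneg (by positivity)]

/-- A = diag 1/(n+1) -/
noncomputable def A : H →L[ℂ] H := diagOp (fun n => 1 / ((n : ℂ) + 1)) 1 zero_le_one (by
  intro n
  rw [norm_div, norm_one, norm_cast_add]
  rw [div_le_one (by positivity)]
  linarith [Nat.cast_nonneg (α := ℝ) n])

lemma A_apply (x : H) (n : ℕ) : A x n = 1 / ((n : ℂ) + 1) * x n := rfl

/-- projection killing coordinate 0 -/
noncomputable def P : H →L[ℂ] H := diagOp (fun n => if n = 0 then 0 else 1) 1 zero_le_one (by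
  intro n; split_ifs <;> simp)

lemma P_apply (x : H) (n : ℕ) : P x n = (if n = 0 then 0 else 1) * x n := rfl

lemma P_norm : ‖P‖ ≤ 1 := by unfold P; exact diagOp_norm _ _ _ _

/-- projection on even n ≥ 2 -/
noncomputable def Q : H →L[ℂ] H := diagOp (fun n => if Even n ∧ n ≠ 0 then 1 else 0) 1 zero_le_one (by
  intro n; split_ifs <;> simp)

lemma Q_apply (x : H) (n : ℕ) : Q x n = (if Even n ∧ n ≠ 0 then 1 else 0) * x n := rfl

lemma Q_norm : ‖Q‖ ≤ 1 := by unfold Q; exact diagOp_norm _ _ _ _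

/-- projection on odd n -/
noncomputable def R : H →L[ℂ] H := diagOp (fun n => if Odd n then 1 else 0) 1 zero_le_one (by
  intro n; split_ifs <;> simp)

lemma R_apply (x : H) (n : ℕ) : R x n = (if Odd n then 1 else 0) * x n := rfl

/-- A restricted to even n ≥ 2 -/
noncomputable def A₁ : H →L[ℂ] H := diagOp (fun n => if Even n ∧ n ≠ 0 then 1 / ((n : ℂ) + 1) else 0) (1/3) (by norm_num) (by
  intro n
  split_ifs with h
  · have : 2 ≤ n := by
      rcases h with ⟨⟨k, hk⟩, h0⟩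
      omega
    have h2 : (2 : ℝ) ≤ n := by exact_mod_cast this
    rw [norm_div, norm_one, norm_cast_add]
    apply one_div_le_one_div_of_le (by norm_num) (by linarith)
  · simp)

lemma A₁_apply (x : H) (n : ℕ) : A₁ x n = (if Even n ∧ n ≠ 0 then 1 / ((n : ℂ) + 1) else 0) * x n := rfl

lemma A₁_norm : ‖A₁‖ ≤ 1/3 := by unfold A₁; exact diagOp_norm _ _ _ _

lemma A₁_norm_apply (x : H) : ‖A₁ x‖ ≤ ‖x‖ / 3 := by
  have := A₁.le_of_opNorm_le A₁_norm x
  linarith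

/-- sum of squares of the multipliers -/
lemma sum_sq_mult (N : ℕ) : ∑ n ∈ range N, (if Even n ∧ n ≠ 0 then 1 / ((n : ℝ) + 1) ^ 2 else 0) ≤ 1 / 4 := by
  have key : ∀ M : ℕ, ∑ n ∈ range (2 * M + 1), (if Even n ∧ n ≠ 0 then 1 / ((n : ℝ) + 1) ^ 2 else 0) ≤ 
      1 / 4 - 1 / (4 * ((M : ℝ) + 1)) := by
    intro M
    induction M with
    | zero => simp
    | succ M ih =>
      rw [show 2 * (M + 1) + 1 = (2 * M + 1) + 1 + 1 by ring, Finset.sum_range_succ, Finset.sum_range_succ]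
      rw [if_neg (by rintro ⟨⟨k, hk⟩, -⟩; omega), if_pos ⟨⟨M + 1, by ring⟩, by omega⟩]
      have hM : (0 : ℝ) ≤ M := Nat.cast_nonneg M
      push_cast
      have : 1 / ((2 * (M : ℝ) + 2 + 1) ^ 2) ≤ 1 / (4 * ((M : ℝ) + 1)) - 1 / (4 * ((M : ℝ) + 1 + 1)) := by
        rw [div_sub_div _ _ (by positivity) (by positivity), div_le_div_iff₀ (by positivity) (by positivity)]
        nlinarith
      linarith
  calc _ ≤ ∑ n ∈ range (2 * N + 1), (if Even n ∧ n ≠ 0 then 1 / ((n : ℝ) + 1) ^ 2 else 0) := by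
        apply Finset.sum_le_sum_of_subset_of_nonneg
        · intro k hk; simp only [Finset.mem_range] at *; omega
        · intro k _ _; split_ifs <;> positivity
    _ ≤ 1 / 4 - 1 / (4 * ((N : ℝ) + 1)) := key N
    _ ≤ 1 / 4 := by
        have : (0 : ℝ) ≤ 1 / (4 * ((N : ℝ) + 1)) := by positivity
        linarith

/-- ℓ¹ bound -/
lemma l1_bound (y : H) (N : ℕ) : ∑ n ∈ range N, ‖A₁ y n‖ ≤ ‖y‖ / 2 := by
  have hn : ∀ n, ‖A₁ y n‖ = (if Even n ∧ n ≠ 0 then 1 / ((n : ℝ) + 1) else 0) * ‖y n‖ := by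
    intro n
    rw [A₁_apply, norm_mul]
    congr 1
    split_ifs
    · rw [norm_div, norm_one, norm_cast_add]
    · simp
  have cs := Finset.sum_mul_sq_le_sq_mul_sq (range N) (fun n => (if Even n ∧ n ≠ 0 then 1 / ((n : ℝ) + 1) else 0)) 
      (fun n => ‖y n‖)
  have e1 : ∑ n ∈ range N, (if Even n ∧ n ≠ 0 then 1 / ((n : ℝ) + 1) else 0) ^ 2 = 
     ∑ n ∈ range N, (if Even n ∧ n ≠ 0 then 1 / ((n : ℝ) + 1) ^ 2 else 0) := by
    refine Finset.sum_congr rfl fun n _ => ?_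
    split_ifs <;> simp
  rw [e1] at cs
  have h2 := range_le_norm y N
  have h3 := sum_sq_mult N
  simp_rw [hn]
  apply le_of_sq_le_sq _ (by positivity)
  calc _ ≤ _ := cs
    _ ≤ (1/4) * ‖y‖ ^ 2 := by
        apply mul_le_mul h3 h2 (Finset.sum_nonneg fun _ _ => by positivity) (by norm_num)
    _ = (‖y‖ / 2) ^ 2 := by ring

/-- convolution by A₁ y -/
noncomputable def T (y : H) : H →L[ℂ] H := ofSec (convL (A₁ y)) (‖y‖ / 2) (by positivity)
  (young _ _ (l1_bound y))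

noncomputable def S (y : H) : H →L[ℂ] H := ofSec (wconvL (A₁ y)) (‖y‖ / 2) (by positivity)
  (sec_weight _ _ (young _ _ (l1_bound y)))

lemma T_apply (y x : H) (n : ℕ) : T y x n = convL (A₁ y) x n := rfl
lemma S_apply (y x : H) (n : ℕ) : S y x n = wconvL (A₁ y) x n := rfl
lemma T_norm (y : H) : ‖T y‖ ≤ ‖y‖ / 2 := by unfold T; exact ofSec_norm _ _ _ _
lemma S_norm (y : H) : ‖S y‖ ≤ ‖y‖ / 2 := by unfold S; exact ofSec_norm _ _ _ _

lemma convL_sub (a b x : ℕ → ℂ) : convL (a - b) x = convL a x - convL b x := by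
  rw [convL_comm, convL_comm a, convL_comm b, map_sub]

lemma T_sub (y z : H) : T (y - z) = T y - T z := by
  ext x n
  change convL (A₁ (y - z)) x n = convL (A₁ y) x n - convL (A₁ z) x n
  rw [map_sub, lp.coeFn_sub, convL_sub]; rfl

lemma S_sub (y z : H) : S (y - z) = S y - S z := by
  ext x n
  change wconvL (A₁ (y - z)) x n = wconvL (A₁ y) x n - wconvL (A₁ z) x n
  rw [map_sub, lp.coeFn_sub, wconvL_apply, convL_sub, wconvL_apply, wconvL_apply]
  rw [Pi.sub_apply, sub_div]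


section main
open ContinuousLinearMap
open scoped InnerProduct


variable {s : ℕ → ℂ} (hs : ∀ (x : ℕ → ℂ) (N : ℕ),
      ∑ n ∈ range N, ‖convL s x n‖ ^ 2 ≤ 1 ^ 2 * ∑ n ∈ range N, ‖x n‖ ^ 2)

noncomputable def V : H →L[ℂ] H := ofSec (convL s) 1 zero_le_one hs
noncomputable def W : H →L[ℂ] H := ofSec (wconvL s) 1 zero_le_one (sec_weight _ _ hs)

lemma V_apply (x : H) (n : ℕ) : V hs x n = convL s x n := rfl
lemma W_apply (x : H) (n : ℕ) : W hs x n = wconvL s x n := rfl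
lemma V_norm : ‖V hs‖ ≤ 1 := by unfold V; exact ofSec_norm _ _ _ _
lemma W_norm : ‖W hs‖ ≤ 1 := by unfold W; exact ofSec_norm _ _ _ _

lemma V_norm_apply (x : H) : ‖V hs x‖ ≤ ‖x‖ := by
  have := (V hs).le_of_opNorm_le (V_norm hs) x
  linarith

lemma W_adj_norm_apply (x : H) : ‖(adjoint (W hs)) x‖ ≤ ‖x‖ := by
  have h : ‖(adjoint (W hs))‖ ≤ 1 := by rw [LinearIsometryEquiv.norm_map]; exact W_norm hs
  have := ((adjoint (W hs))).le_of_opNorm_le h x
  linarith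

lemma P_norm_apply (x : H) : ‖P x‖ ≤ ‖x‖ := by
  have := P.le_of_opNorm_le P_norm x
  linarith

lemma Q_norm_apply (x : H) : ‖Q x‖ ≤ ‖x‖ := by
  have := Q.le_of_opNorm_le Q_norm x
  linarith

lemma T_norm_apply (y x : H) : ‖T y x‖ ≤ ‖y‖ / 2 * ‖x‖ := (T y).le_of_opNorm_le (T_norm y) x

lemma S_adj_norm_apply (y x : H) : ‖(adjoint (S y)) x‖ ≤ ‖y‖ / 2 * ‖x‖ := by
  have h : ‖(adjoint (S y))‖ ≤ ‖y‖ / 2 := by rw [LinearIsometryEquiv.norm_map]; exact S_norm y
  exact ((adjoint (S y))).le_of_opNorm_le h x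

noncomputable def φ (y : H) : H := V hs ((e0 + A₁ y) + T y (e0 + A₁ y))

/-- the operator `B_y = (1 + S_y)† W†` -/
noncomputable def B (y : H) (x : H) : H := (adjoint (W hs)) x + (adjoint (S y)) ((adjoint (W hs)) x)

noncomputable def Z (y : H) : H := B hs y (P (φ hs y))

noncomputable def m (y : H) : ℂ := (‖s 0‖ : ℂ) ^ 2 + Z hs y 0

noncomputable def F (y : H) : H := (m hs y)⁻¹ • Q (Z hs y)

lemma T_e0 (y : H) : T y e0 = A₁ y := by
  ext n
  rw [T_apply, conv_e0]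

lemma φ_eq (y : H) : φ hs y = V hs e0 + V hs (A₁ y + A₁ y + T y (A₁ y)) := by
  unfold φ
  rw [map_add (T y), T_e0, ← map_add]
  congr 1
  abel

lemma norm_PVe0 (hs0 : (999999 / 1000000 : ℝ) ≤ ‖s 0‖ ^ 2) : ‖P (V hs e0)‖ ≤ 1 / 1000 := by
  apply norm_le_of_range _ _ (by norm_num)
  intro N
  have h1 : ∀ n, P (V hs e0) n = (if n = 0 then 0 else 1) * s n := by
    intro n
    rw [P_apply, V_apply, conv_e0]
  simp_rw [h1]
  have h2 := hs e0 (N + 1)
  rw [conv_e0] at h2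
  have h3 : ∑ n ∈ range (N + 1), ‖e0 n‖ ^ 2 = 1 := by
    simp_rw [e0_apply]
    rw [Finset.sum_range_succ']
    simp
  rw [h3, Finset.sum_range_succ'] at h2
  have h4 : ∑ n ∈ range (N + 1), ‖(if n = 0 then 0 else 1) * s n‖ ^ 2 = ∑ n ∈ range N, ‖s (n + 1)‖ ^ 2 := by
    rw [Finset.sum_range_succ']
    simp
  calc _ ≤ ∑ n ∈ range (N + 1), ‖(if n = 0 then 0 else 1) * s n‖ ^ 2 := by
        rw [Finset.sum_range_succ]
        linarith [sq_nonneg (‖(if N = 0 then 0 else 1) * s N‖)]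
    _ = ∑ n ∈ range N, ‖s (n + 1)‖ ^ 2 := h4
    _ ≤ _ := by norm_num; linarith

lemma E1 (hs0 : (999999 / 1000000 : ℝ) ≤ ‖s 0‖ ^ 2) (y : H) (hy : ‖y‖ ≤ 1 / 25) : 
    ‖P (φ hs y)‖ ≤ 28 / 1000 := by
  rw [φ_eq, map_add]
  have h1 := norm_PVe0 hs hs0
  have h2 : ‖P (V hs (A₁ y + A₁ y + T y (A₁ y)))‖ ≤ ‖A₁ y‖ + ‖A₁ y‖ + ‖T y (A₁ y)‖ :=
    (P_norm_apply _).trans ((V_norm_apply hs _).trans (norm_add₃_le))
  have h3 := A₁_norm_apply y
  have h4 := T_norm_apply y (A₁ y)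
  have h5 : ‖y‖ / 2 * ‖A₁ y‖ ≤ (1/50) * (1/75) := by
    apply mul_le_mul (by linarith) (by linarith) (norm_nonneg _) (by norm_num)
  refine (norm_add_le _ _).trans ?_
  linarith

lemma B_norm (y x : H) : ‖B hs y x‖ ≤ (1 + ‖y‖ / 2) * ‖x‖ := by
  unfold B
  refine (norm_add_le _ _).trans ?_
  have h1 := W_adj_norm_apply hs x
  have h2 := S_adj_norm_apply y ((adjoint (W hs)) x)
  have h3 : ‖y‖ / 2 * ‖(adjoint (W hs)) x‖ ≤ ‖y‖ / 2 * ‖x‖ := mul_le_mul_of_nonneg_left h1 (by positivity)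
  linarith

lemma E2 (hs0 : (999999 / 1000000 : ℝ) ≤ ‖s 0‖ ^ 2) (y : H) (hy : ‖y‖ ≤ 1 / 25) : 
    ‖Z hs y‖ ≤ 3 / 100 := by
  have h1 := B_norm hs y (P (φ hs y))
  have h2 := E1 hs hs0 y hy
  have h3 : (1 + ‖y‖ / 2) * ‖P (φ hs y)‖ ≤ (1 + 1/50) * (28 / 1000) := by
    apply mul_le_mul (by linarith) h2 (norm_nonneg _) (by norm_num)
  exact (h1.trans h3).trans (by norm_num)

lemma E3 (y z : H) (hy : ‖y‖ ≤ 1 / 25) (hz : ‖z‖ ≤ 1 / 25) : 
    ‖φ hs y - φ hs z‖ ≤ 68 / 100 * ‖y - z‖ := by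
  have e : φ hs y - φ hs z = V hs (A₁ (y - z) + A₁ (y - z) + (T (y - z) (A₁ y) + T z (A₁ (y - z)))) := by
    rw [φ_eq, φ_eq, T_sub, map_sub, add_sub_add_left_eq_sub, ← map_sub]
    congr 1
    rw [map_sub, sub_apply]
    abel
  rw [e]
  have h3 := A₁_norm_apply (y - z)
  have h3' := A₁_norm_apply y
  have h4 := T_norm_apply (y - z) (A₁ y)
  have h5 := T_norm_apply z (A₁ (y - z))
  have h6 : ‖y - z‖ / 2 * ‖A₁ y‖ ≤ ‖y - z‖ / 2 * (1 / 75) := by
    apply mul_le_mul_of_nonneg_left (by linarith) (by positivity)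
  have h7 : ‖z‖ / 2 * ‖A₁ (y - z)‖ ≤ (1/50) * (‖y - z‖ / 3) := by
    apply mul_le_mul (by linarith) h3 (norm_nonneg _) (by norm_num)
  refine (V_norm_apply hs _).trans ?_
  refine (norm_add_le _ _).trans ?_
  have h8 := norm_add_le (A₁ (y - z)) (A₁ (y - z))
  have h9 := norm_add_le (T (y - z) (A₁ y)) (T z (A₁ (y - z)))
  linarith

lemma E4 (hs0 : (999999 / 1000000 : ℝ) ≤ ‖s 0‖ ^ 2) (y z : H) (hy : ‖y‖ ≤ 1 / 25) (hz : ‖z‖ ≤ 1 / 25) : 
    ‖Z hs y - Z hs z‖ ≤ 71 / 100 * ‖y - z‖ := by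
  have e : Z hs y - Z hs z = B hs y (P (φ hs y - φ hs z)) + (adjoint (S (y - z))) ((adjoint (W hs)) (P (φ hs z))) := by
    unfold Z B
    rw [S_sub]
    simp only [map_sub, sub_apply]
    abel
  rw [e]
  have h1 := B_norm hs y (P (φ hs y - φ hs z))
  have h2 := (P_norm_apply _).trans (E3 hs y z hy hz)
  have h3 := S_adj_norm_apply (y - z) ((adjoint (W hs)) (P (φ hs z)))
  have h4 := (W_adj_norm_apply hs (P (φ hs z))).trans (E1 hs hs0 z hz)
  have h5 : (1 + ‖y‖ / 2) * ‖P (φ hs y - φ hs z)‖ ≤ (1 + 1/50) * (68 / 100 * ‖y - z‖) := by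
    apply mul_le_mul (by linarith) h2 (norm_nonneg _) (by norm_num)
  have h6 : ‖y - z‖ / 2 * ‖(adjoint (W hs)) (P (φ hs z))‖ ≤ ‖y - z‖ / 2 * (28 / 1000) := by
    apply mul_le_mul_of_nonneg_left h4 (by positivity)
  refine (norm_add_le _ _).trans ?_
  have := norm_nonneg (y - z)
  linarith

lemma coord_le (x : H) (n : ℕ) : ‖x n‖ ≤ ‖x‖ := lp.norm_apply_le_norm (by norm_num) x n

lemma m_lower (hs0 : (999999 / 1000000 : ℝ) ≤ ‖s 0‖ ^ 2) (y : H) (hy : ‖y‖ ≤ 1 / 25) : 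
    96 / 100 ≤ ‖m hs y‖ := by
  have h1 := (coord_le (Z hs y) 0).trans (E2 hs hs0 y hy)
  have h2 : ‖((‖s 0‖ : ℂ) ^ 2)‖ = ‖s 0‖ ^ 2 := by
    rw [norm_pow, Complex.norm_real, norm_norm]
  have h3 : ‖((‖s 0‖ : ℂ) ^ 2)‖ ≤ ‖m hs y‖ + ‖Z hs y 0‖ := by
    have : ((‖s 0‖ : ℂ) ^ 2) = m hs y - Z hs y 0 := by unfold m; ring
    rw [this]; exact norm_sub_le _ _
  linarith

lemma m_sub (y z : H) : ‖m hs y - m hs z‖ ≤ ‖Z hs y - Z hs z‖ := by
  have : m hs y - m hs z = (Z hs y - Z hs z) 0 := by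
    unfold m
    rw [lp.coeFn_sub, Pi.sub_apply]; ring
  rw [this]
  exact coord_le _ _

lemma F_maps (hs0 : (999999 / 1000000 : ℝ) ≤ ‖s 0‖ ^ 2) (y : H) (hy : ‖y‖ ≤ 1 / 25) : 
    ‖F hs y‖ ≤ 1 / 25 := by
  unfold F
  rw [norm_smul, norm_inv]
  have h1 := m_lower hs hs0 y hy
  have h2 := (Q_norm_apply (Z hs y)).trans (E2 hs hs0 y hy)
  have h3 : ‖m hs y‖⁻¹ ≤ (96/100)⁻¹ := by
    apply inv_anti₀ (by norm_num) h1
  calc _ ≤ (96/100 : ℝ)⁻¹ * (3/100) := by
        apply mul_le_mul h3 h2 (norm_nonneg _) (by norm_num)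
    _ ≤ _ := by norm_num

lemma F_lip (hs0 : (999999 / 1000000 : ℝ) ≤ ‖s 0‖ ^ 2) (y z : H) (hy : ‖y‖ ≤ 1 / 25) (hz : ‖z‖ ≤ 1 / 25) : 
    ‖F hs y - F hs z‖ ≤ 4 / 5 * ‖y - z‖ := by
  have hmy := m_lower hs hs0 y hy
  have hmz := m_lower hs hs0 z hz
  have hmy0 : m hs y ≠ 0 := by rw [← norm_pos_iff]; linarith
  have hmz0 : m hs z ≠ 0 := by rw [← norm_pos_iff]; linarith
  have e : F hs y - F hs z = (m hs y)⁻¹ • Q (Z hs y - Z hs z) + 
      ((m hs y)⁻¹ * (m hs z)⁻¹ * (m hs z - m hs y)) • Q (Z hs z) := by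
    have : (m hs y)⁻¹ * (m hs z)⁻¹ * (m hs z - m hs y) = (m hs y)⁻¹ - (m hs z)⁻¹ := by
      field_simp
    rw [this]
    unfold F
    rw [map_sub, smul_sub, sub_smul]
    abel
  rw [e]
  have hZ := E4 hs hs0 y z hy hz
  have h1 := m_sub hs z y
  rw [norm_sub_rev (Z hs z)] at h1
  have hZz := (Q_norm_apply (Z hs z)).trans (E2 hs hs0 z hz)
  have iy : ‖(m hs y)⁻¹‖ ≤ 25/24 := by
    rw [norm_inv]
    calc _ ≤ (96/100 : ℝ)⁻¹ := inv_anti₀ (by norm_num) hmy
      _ = _ := by norm_num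
  have iz : ‖(m hs z)⁻¹‖ ≤ 25/24 := by
    rw [norm_inv]
    calc _ ≤ (96/100 : ℝ)⁻¹ := inv_anti₀ (by norm_num) hmz
      _ = _ := by norm_num
  have h2 : ‖(m hs y)⁻¹ • Q (Z hs y - Z hs z)‖ ≤ 25/24 * (71 / 100 * ‖y - z‖) := by
    rw [norm_smul]
    apply mul_le_mul iy ((Q_norm_apply _).trans hZ) (norm_nonneg _) (by norm_num)
  have h3 : ‖((m hs y)⁻¹ * (m hs z)⁻¹ * (m hs z - m hs y)) • Q (Z hs z)‖ ≤ 
      25/24 * (25/24) * (71 / 100 * ‖y - z‖) * (3/100) := by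
    rw [norm_smul, norm_mul, norm_mul]
    apply mul_le_mul _ hZz (norm_nonneg _) (by positivity)
    apply mul_le_mul _ (h1.trans hZ) (norm_nonneg _) (by positivity)
    apply mul_le_mul iy iz (norm_nonneg _) (by positivity)
  refine (norm_add_le _ _).trans ?_
  have := norm_nonneg (y - z)
  linarith

lemma exists_fp (hs0 : (999999 / 1000000 : ℝ) ≤ ‖s 0‖ ^ 2) : 
    ∃ y : H, ‖y‖ ≤ 1 / 25 ∧ F hs y = y := by
  have hmaps : Set.MapsTo (F hs) (Metric.closedBall 0 (1/25)) (Metric.closedBall 0 (1/25)) := by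
    intro y hy
    rw [mem_closedBall_zero_iff] at *
    exact F_maps hs hs0 y hy
  have hcw : ContractingWith (4/5 : NNReal) (hmaps.restrict (F hs) _ _) := by
    constructor
    · rw [← NNReal.coe_lt_coe]; norm_num
    · apply LipschitzWith.of_dist_le_mul
      intro a b
      have ha := a.2
      have hb := b.2
      rw [mem_closedBall_zero_iff] at ha hb
      have := F_lip hs hs0 a b ha hb
      rw [Subtype.dist_eq, Subtype.dist_eq, dist_eq_norm, dist_eq_norm]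
      simpa using this
  obtain ⟨y, hy, hfp, -⟩ := hcw.exists_fixedPoint' (Metric.isClosed_closedBall.isComplete) hmaps 
    (x := 0) (by simp) (edist_ne_top _ _)
  rw [mem_closedBall_zero_iff] at hy
  exact ⟨y, hy, hfp⟩


/-! ### algebraic identities -/

lemma inner_eq (x y : H) : inner ℂ x y = ∑' n, y n * conj (x n) := by
  rw [lp.inner_eq_tsum]
  refine tsum_congr fun n => ?_
  rw [RCLike.inner_apply]

lemma diag_adj (d : ℕ → ℂ) (C : ℝ) (hC : 0 ≤ C) (hd : ∀ n, ‖d n‖ ≤ C) (hr : ∀ n, conj (d n) = d n) (x y : H) :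
    inner ℂ (diagOp d C hC hd x) y = inner ℂ x (diagOp d C hC hd y) := by
  rw [inner_eq, inner_eq]
  refine tsum_congr fun n => ?_
  change y n * conj (d n * x n) = (d n * y n) * conj (x n)
  rw [map_mul, hr]; ring

lemma A_sa (x y : H) : inner ℂ (A x) y = inner ℂ x (A y) := by
  unfold A
  apply diag_adj
  intro n
  simp

lemma R_sa (x y : H) : inner ℂ (R x) y = inner ℂ x (R y) := by
  unfold R
  apply diag_adj
  intro n
  split_ifs <;> simp

lemma conv_odd (a x : ℕ → ℂ) (ha : ∀ n, Odd n → a n = 0) (n : ℕ) :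
    (if Odd n then (1 : ℂ) else 0) * convL a x n = convL a (fun k => (if Odd k then (1 : ℂ) else 0) * x k) n := by
  rw [convL_apply, convL_apply, Finset.mul_sum]
  refine Finset.sum_congr rfl fun p hp => ?_
  rw [HasAntidiagonal.mem_antidiagonal] at hp
  by_cases h1 : Odd p.1
  · rw [ha _ h1]; simp
  · have : Odd n ↔ Odd p.2 := by
      rw [← hp, Nat.odd_add]
      rw [Nat.not_odd_iff_even] at h1
      constructor
      · intro h
        by_contra h2
        rw [Nat.not_odd_iff_even] at h2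
        have := h.2 h2
        rw [← Nat.not_even_iff_odd] at this
        exact this h1
      · intro h
        constructor
        · intro h3; rw [← Nat.not_even_iff_odd] at h3; exact absurd h1 h3
        · intro h3; rw [← Nat.not_even_iff_odd] at h; exact absurd h3 h
    by_cases h2 : Odd p.2
    · rw [if_pos (this.2 h2), if_pos h2]; ring
    · rw [if_neg (fun h => h2 (this.1 h)), if_neg h2]; ring

lemma wconv_odd (a x : ℕ → ℂ) (ha : ∀ n, Odd n → a n = 0) (n : ℕ) :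
    (if Odd n then (1 : ℂ) else 0) * wconvL a x n = wconvL a (fun k => (if Odd k then (1 : ℂ) else 0) * x k) n := by
  rw [wconvL_apply, wconvL_apply, ← mul_div_assoc, conv_odd a _ ha]
  have e : (fun k : ℕ => (if Odd k then (1 : ℂ) else 0) * (((k : ℂ) + 1) * x k)) = 
      fun k : ℕ => ((k : ℂ) + 1) * ((if Odd k then (1 : ℂ) else 0) * x k) := by
    ext k; ring
  rw [e]

lemma A₁_odd (y : H) (n : ℕ) (hn : Odd n) : A₁ y n = 0 := by
  rw [A₁_apply, if_neg, zero_mul]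
  rintro ⟨h, -⟩
  rw [← Nat.not_even_iff_odd] at hn
  exact hn h

lemma A₁_zero (y : H) : A₁ y 0 = 0 := by
  rw [A₁_apply, if_neg, zero_mul]
  rintro ⟨-, h⟩
  exact h rfl

lemma R_V (hodd : ∀ n, Odd n → s n = 0) (x : H) : R (V hs x) = V hs (R x) := by
  ext n
  rw [R_apply, V_apply, V_apply]
  exact conv_odd s x hodd n

lemma R_W (hodd : ∀ n, Odd n → s n = 0) (x : H) : R (W hs x) = W hs (R x) := by
  ext n
  rw [R_apply, W_apply, W_apply]
  exact wconv_odd s x hodd n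

lemma R_T (y : H) (x : H) : R (T y x) = T y (R x) := by
  ext n
  rw [R_apply, T_apply, T_apply]
  exact conv_odd _ x (A₁_odd y) n

lemma R_S (y : H) (x : H) : R (S y x) = S y (R x) := by
  ext n
  rw [R_apply, S_apply, S_apply]
  exact wconv_odd _ x (A₁_odd y) n

lemma R_P (x : H) : R (P x) = P (R x) := by
  ext n
  rw [R_apply, P_apply, P_apply, R_apply]; ring

lemma R_e0 : R e0 = 0 := by
  ext n
  rw [R_apply, e0_apply]
  by_cases h : n = 0
  · subst h; simp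
  · simp [h]

lemma R_A₁ (y : H) : R (A₁ y) = 0 := by
  ext n
  rw [R_apply]
  by_cases h : Odd n
  · rw [A₁_odd y n h]; simp
  · simp [h]

lemma adj_comm_R (L : H →L[ℂ] H) (hL : ∀ x, R (L x) = L (R x)) (x : H) :
    R (adjoint L x) = adjoint L (R x) := by
  apply ext_inner_left ℂ
  intro v
  rw [← R_sa, adjoint_inner_right, adjoint_inner_right, ← hL, R_sa]

lemma R_φ (hodd : ∀ n, Odd n → s n = 0) (y : H) : R (φ hs y) = 0 := by
  unfold φ
  rw [R_V hs hodd, map_add R, R_T, map_add R, R_e0, R_A₁]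
  simp

lemma R_Z (hodd : ∀ n, Odd n → s n = 0) (y : H) : R (Z hs y) = 0 := by
  unfold Z B
  rw [map_add R, adj_comm_R _ (R_S y), adj_comm_R _ (R_W hs hodd), R_P, R_φ hs hodd]
  simp

lemma inner_e0 (x : H) : inner ℂ x e0 = conj (x 0) := by
  rw [inner_eq, tsum_eq_single 0]
  · rw [e0_apply]; simp
  · intro n hn
    rw [e0_apply, if_neg hn, zero_mul]

lemma wconv_zero (a x : ℕ → ℂ) : wconvL a x 0 = a 0 * x 0 := by
  rw [wconvL_apply, convL_apply]; simp

lemma conv_zero (a x : ℕ → ℂ) : convL a x 0 = a 0 * x 0 := by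
  rw [convL_apply]; simp

lemma W_adj_e0 : adjoint (W hs) e0 = conj (s 0) • e0 := by
  apply ext_inner_left ℂ
  intro v
  rw [adjoint_inner_right, inner_e0, inner_smul_right, inner_e0, W_apply, wconv_zero, map_mul]

lemma S_adj_e0 (y : H) : adjoint (S y) e0 = 0 := by
  apply ext_inner_left ℂ
  intro v
  rw [adjoint_inner_right, inner_e0, S_apply, wconv_zero, A₁_zero]; simp

lemma W_A (x : H) : W hs (A x) = A (V hs x) := by
  ext n
  rw [A_apply, W_apply, V_apply, wconvL_apply, div_eq_mul_one_div, mul_comm]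
  have e : (fun k : ℕ => ((k : ℂ) + 1) * A x k) = x := by
    ext k
    rw [A_apply]
    have : ((k : ℂ) + 1) ≠ 0 := Nat.cast_add_one_ne_zero k
    field_simp
  rw [e]

lemma S_A (y x : H) : S y (A x) = A (T y x) := by
  ext n
  rw [A_apply, S_apply, T_apply, wconvL_apply, div_eq_mul_one_div, mul_comm]
  have e : (fun k : ℕ => ((k : ℂ) + 1) * A x k) = x := by
    ext k
    rw [A_apply]
    have : ((k : ℂ) + 1) ≠ 0 := Nat.cast_add_one_ne_zero k
    field_simp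
  rw [e]

lemma A_adj (L M : H →L[ℂ] H) (h : ∀ x, L (A x) = A (M x)) (x : H) : 
    A (adjoint L x) = adjoint M (A x) := by
  apply ext_inner_left ℂ
  intro v
  rw [← A_sa, adjoint_inner_right, adjoint_inner_right, h, A_sa]

lemma φ_zero (y : H) : φ hs y 0 = s 0 := by
  unfold φ
  rw [V_apply, conv_zero]
  have : (e0 + A₁ y + T y (e0 + A₁ y)) 0 = 1 := by
    rw [lp.coeFn_add, Pi.add_apply, lp.coeFn_add, Pi.add_apply, e0_apply, A₁_zero, T_apply, conv_zero, A₁_zero]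
    simp
  rw [this, mul_one]

lemma decomp (x : H) : x = x 0 • e0 + P x := by
  ext n
  rw [lp.coeFn_add, Pi.add_apply, lp.coeFn_smul, Pi.smul_apply, P_apply, e0_apply]
  by_cases h : n = 0
  · subst h; simp
  · simp [h]

lemma B_add (y x z : H) : B hs y (x + z) = B hs y x + B hs y z := by
  unfold B; simp only [map_add]; abel

lemma B_smul (y x : H) (c : ℂ) : B hs y (c • x) = c • B hs y x := by
  unfold B; simp only [map_smul, smul_add]

lemma B_e0 (y : H) : B hs y e0 = conj (s 0) • e0 := by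
  unfold B
  rw [W_adj_e0, map_smul, S_adj_e0, smul_zero, add_zero]

lemma B_φ (y : H) : B hs y (φ hs y) = m hs y • e0 + P (Z hs y) := by
  conv_lhs => rw [decomp (φ hs y)]
  rw [B_add, B_smul, B_e0, φ_zero, smul_smul]
  change _ + Z hs y = _
  conv_lhs => rw [decomp (Z hs y)]
  rw [← add_assoc, ← add_smul]
  congr 2
  unfold m
  rw [RCLike.mul_conj]
  rfl

lemma Q_eq_P (x : H) (hx : R x = 0) : Q x = P x := by
  ext n
  rw [Q_apply, P_apply]
  have h : R x n = 0 := by rw [hx]; rfl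
  rw [R_apply] at h
  by_cases h0 : n = 0
  · subst h0; simp
  · by_cases h1 : Odd n
    · rw [if_pos h1, one_mul] at h
      rw [h]; simp
    · rw [Nat.not_odd_iff_even] at h1
      simp [h0, h1]

lemma A_Q (x : H) : A (Q x) = A₁ x := by
  ext n
  rw [A_apply, Q_apply, A₁_apply]
  by_cases h : Even n ∧ n ≠ 0
  · rw [if_pos h, if_pos h]; ring
  · rw [if_neg h, if_neg h]; simp

lemma Q_Q (x : H) : Q (Q x) = Q x := by
  ext n
  rw [Q_apply, Q_apply]
  split_ifs <;> simp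

lemma A_e0 : A e0 = e0 := by
  ext n
  rw [A_apply, e0_apply]
  by_cases h : n = 0
  · subst h; simp
  · simp [h]

/-- The key identity -/
lemma key_id (hodd : ∀ n, Odd n → s n = 0) (y : H) (hm : m hs y ≠ 0) (hfp : F hs y = y) (x : H) :
    m hs y * inner ℂ x (e0 + A₁ y) = inner ℂ (V hs (x + T y x)) (A (φ hs y)) := by
  have h1 : P (Z hs y) = m hs y • y := by
    rw [← Q_eq_P _ (R_Z hs hodd y)]
    have h0 : y = (m hs y)⁻¹ • Q (Z hs y) := hfp.symm
    have h0' : m hs y • y = m hs y • ((m hs y)⁻¹ • Q (Z hs y)) := congrArg (fun v => m hs y • v) h0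
    rw [h0', smul_smul, mul_inv_cancel₀ hm, one_smul]
  have hQ : Q y = y := by
    conv_lhs => rw [← hfp]
    unfold F
    rw [map_smul, Q_Q]
    exact hfp
  have h2 : A (B hs y (φ hs y)) = m hs y • (e0 + A₁ y) := by
    rw [B_φ, h1, ← smul_add, map_smul, map_add, A_e0, ← A_Q, hQ]
  have h3 : A (B hs y (φ hs y)) = adjoint (V hs) (A (φ hs y)) + adjoint (T y) (adjoint (V hs) (A (φ hs y))) := by
    unfold B
    rw [map_add, A_adj _ _ (S_A y), A_adj _ _ (W_A hs)]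
  rw [← inner_smul_right, ← h2, h3, inner_add_right, adjoint_inner_right, adjoint_inner_right, adjoint_inner_right,
    ← inner_add_left, ← map_add]

/-- shift operators -/
noncomputable def U (n : ℕ) : H →L[ℂ] H := ofSec (convL (fun k => if k = n then 1 else 0)) 1 zero_le_one
  (young _ 1 (by
    intro N
    have : ∀ k, ‖(if k = n then (1 : ℂ) else 0)‖ = if k = n then 1 else 0 := by
      intro k; split_ifs <;> simp
    simp_rw [this]
    rw [Finset.sum_ite_eq']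
    split_ifs <;> norm_num))

lemma conv_delta (x : ℕ → ℂ) (n k : ℕ) : 
    convL (fun k => if k = n then 1 else 0) x k = if n ≤ k then x (k - n) else 0 := by
  rw [convL_apply]
  by_cases h : n ≤ k
  · rw [if_pos h, Finset.sum_eq_single (n, k - n)]
    · simp
    · intro p hp hne
      rw [HasAntidiagonal.mem_antidiagonal] at hp
      rw [if_neg, zero_mul]
      intro h1
      apply hne
      ext
      · exact h1
      · simp; omega
    · intro h2
      rw [HasAntidiagonal.mem_antidiagonal] at h2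
      exact absurd (by simp; omega) h2
  · rw [if_neg h]
    apply Finset.sum_eq_zero
    intro p hp
    rw [HasAntidiagonal.mem_antidiagonal] at hp
    rw [if_neg (by omega), zero_mul]

lemma U_apply (n : ℕ) (x : H) (k : ℕ) : U n x k = if n ≤ k then x (k - n) else 0 := conv_delta x n k

lemma inner_U (n : ℕ) (x y : H) : inner ℂ (U n x) y = ∑' k, y (k + n) * conj (x k) := by
  have hsum : Summable (fun k => y k * conj (U n x k)) := by
    have := lp.summable_inner (𝕜 := ℂ) (U n x) y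
    simpa [RCLike.inner_apply] using this
  rw [inner_eq, ← hsum.sum_add_tsum_nat_add n]
  rw [Finset.sum_eq_zero, zero_add]
  · refine tsum_congr fun k => ?_
    rw [U_apply, if_pos (by omega)]
    simp
  · intro k hk
    rw [Finset.mem_range] at hk
    rw [U_apply, if_neg (by omega)]; simp

lemma U_comm (n : ℕ) (y x : H) : V hs (U n x + T y (U n x)) = U n (V hs (x + T y x)) := by
  ext k
  change convL s ((fun j => convL (fun k => if k = n then 1 else 0) x j) + 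
    convL (A₁ y) (convL (fun k => if k = n then 1 else 0) x)) k = 
     convL (fun k => if k = n then 1 else 0) (convL s (x + convL (A₁ y) x)) k
  have e : (fun j => convL (fun k => if k = n then 1 else 0) x j) = convL (fun k => if k = n then 1 else 0) x := rfl
  rw [e]
  have h1 : convL (A₁ y) (convL (fun k => if k = n then 1 else 0) x) = 
     convL (fun k => if k = n then 1 else 0) (convL (A₁ y) x) := by
    rw [convL_assoc, convL_comm (A₁ y), ← convL_assoc]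
  rw [h1, ← map_add, convL_assoc, convL_comm s, ← convL_assoc]

end main

end QFP

namespace QFP

lemma convL_add_left (a b x : ℕ → ℂ) : convL (a + b) x = convL a x + convL b x := by
  rw [convL_comm, convL_comm a, convL_comm b, map_add]

lemma e0_conv (x : ℕ → ℂ) : convL e0 x = x := by
  rw [convL_comm, conv_e0]

end QFP

open QFP in
/-- Fixed point lemma.  `s` is the Taylor coefficient sequence of an even bounded analytic function
(convolution with `s` is a contraction of `ℓ²`), close to the constant `1`.  -/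
theorem quad_fixed_point (s : ℕ → ℂ)
    (hs : ∀ (x : ℕ → ℂ) (N : ℕ),
      ∑ n ∈ range N, ‖∑ p ∈ antidiagonal n, s p.1 * x p.2‖ ^ 2 ≤ ∑ n ∈ range N, ‖x n‖ ^ 2)
    (hodd : ∀ n, Odd n → s n = 0)
    (hs0 : (999999 / 1000000 : ℝ) ≤ ‖s 0‖ ^ 2) :
    ∃ (G φ : ℕ → ℂ) (c : ℝ), 0 < c ∧ G 0 = 1 ∧
      Summable (fun n => ‖G n‖) ∧ ∑' n, ‖G (n + 1)‖ ≤ 1 / 50 ∧
      Summable (fun n => ‖φ n‖ ^ 2) ∧
      (∀ n, φ n = ∑ p ∈ antidiagonal n, s p.1 * ∑ q ∈ antidiagonal p.2, G q.1 * G q.2) ∧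
      ∀ n : ℕ, (2 * c : ℂ) * ∑' k, G k * conj (G (k + n))
        = ∑' k, φ k * conj (φ (k + n)) / ((k : ℂ) + n + 1) := by
  have hs' : ∀ (x : ℕ → ℂ) (N : ℕ),
      ∑ n ∈ range N, ‖convL s x n‖ ^ 2 ≤ 1 ^ 2 * ∑ n ∈ range N, ‖x n‖ ^ 2 := by
    intro x N
    rw [one_pow, one_mul]
    exact hs x N
  obtain ⟨y, hy, hfp⟩ := exists_fp hs' hs0
  have hm := m_lower hs' hs0 y hy
  have hm0 : m hs' y ≠ 0 := by rw [← norm_pos_iff]; linarith
  set G : H := e0 + A₁ y with hG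
  set f : H := QFP.φ hs' y with hf
  have hG0 : G 0 = 1 := by
    rw [hG, lp.coeFn_add, Pi.add_apply, e0_apply, A₁_zero]; simp
  have hGsucc : ∀ n, G (n + 1) = A₁ y (n + 1) := by
    intro n
    rw [hG, lp.coeFn_add, Pi.add_apply, e0_apply]; simp
  have hsumA : ∀ N, ∑ n ∈ range N, ‖A₁ y n‖ ≤ 1 / 50 := by
    intro N
    have := l1_bound y N
    linarith
  have hsumG1 : ∀ N, ∑ n ∈ range N, ‖G (n + 1)‖ ≤ 1 / 50 := by
    intro N
    have h1 := hsumA (N + 1)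
    rw [Finset.sum_range_succ', A₁_zero, norm_zero, add_zero] at h1
    simp_rw [hGsucc]
    exact h1
  have hS1 : Summable (fun n => ‖G (n + 1)‖) :=
    summable_of_sum_range_le (fun _ => norm_nonneg _) hsumG1
  have hfG : f = V hs' (G + T y G) := rfl
  -- the identity
  have hid : ∀ n : ℕ, m hs' y * ∑' k, G (k + n) * conj (G k) = 
      ∑' k, (f (k + n) / ((k : ℂ) + n + 1)) * conj (f k) := by
    intro n
    have h1 := key_id hs' hodd y hm0 hfp (U n G)
    rw [inner_U, U_comm, ← hfG, inner_U] at h1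
    rw [h1]
    refine tsum_congr fun k => ?_
    rw [A_apply]
    push_cast
    ring
  have hid' : ∀ n : ℕ, conj (m hs' y) * ∑' k, G k * conj (G (k + n)) = 
      ∑' k, f k * conj (f (k + n)) / ((k : ℂ) + n + 1) := by
    intro n
    have h1 := congrArg conj (hid n)
    rw [map_mul, Complex.conj_tsum, Complex.conj_tsum] at h1
    have e1 : ∑' k, conj (G (k + n) * conj (G k)) = ∑' k, G k * conj (G (k + n)) := by
      refine tsum_congr fun k => ?_
      rw [map_mul, Complex.conj_conj, mul_comm]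
    have e2 : ∑' k, conj ((f (k + n) / ((k : ℂ) + n + 1)) * conj (f k)) = 
        ∑' k, f k * conj (f (k + n)) / ((k : ℂ) + n + 1) := by
      refine tsum_congr fun k => ?_
      rw [map_mul, Complex.conj_conj, map_div₀]
      have : conj ((k : ℂ) + n + 1) = (k : ℂ) + n + 1 := by simp
      rw [this]; ring
    rw [e1, e2] at h1
    exact h1
  -- m is a positive real
  have hmreal : ∃ r : ℝ, 0 < r ∧ conj (m hs' y) = r := by
    have h0 := hid' 0
    have e1 : ∑' k, G k * conj (G (k + 0)) = ((∑' k, ‖G k‖ ^ 2 : ℝ) : ℂ) := by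
      rw [Complex.ofReal_tsum]
      refine tsum_congr fun k => ?_
      rw [add_zero, RCLike.mul_conj]; push_cast; rfl
    have e2 : ∑' k, f k * conj (f (k + 0)) / ((k : ℂ) + (0 : ℕ) + 1) = 
        ((∑' k, ‖f k‖ ^ 2 / ((k : ℝ) + 1) : ℝ) : ℂ) := by
      rw [Complex.ofReal_tsum]
      refine tsum_congr fun k => ?_
      rw [add_zero, RCLike.mul_conj]; push_cast; rw [add_zero]; rfl
    rw [e1, e2] at h0
    set a : ℝ := ∑' k, ‖G k‖ ^ 2
    set b : ℝ := ∑' k, ‖f k‖ ^ 2 / ((k : ℝ) + 1)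
    have hsG : Summable (fun k => ‖G k‖ ^ 2) := by
      apply summable_of_sum_range_le (c := ‖G‖ ^ 2) (fun _ => by positivity)
      exact range_le_norm G
    have ha : 0 < a := by
      have : ‖G 0‖ ^ 2 ≤ a := hsG.le_tsum 0 (fun _ _ => by positivity)
      rw [hG0] at this
      norm_num at this
      linarith
    have hb : 0 ≤ b := tsum_nonneg fun k => by positivity
    have hac : (a : ℂ) ≠ 0 := by exact_mod_cast ha.ne'
    have hr : conj (m hs' y) = ((b / a : ℝ) : ℂ) := by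
      rw [Complex.ofReal_div, eq_div_iff hac]
      exact h0
    refine ⟨b / a, ?_, hr⟩
    rcases lt_or_eq_of_le (div_nonneg hb ha.le) with h | h
    · exact h
    · exfalso
      rw [← h, Complex.ofReal_zero, map_eq_zero] at hr
      exact hm0 hr
  obtain ⟨r, hr, hmr⟩ := hmreal
  refine ⟨G, f, r / 2, by positivity, hG0, ?_, ?_, ?_, ?_, ?_⟩
  · exact (summable_nat_add_iff 1).mp hS1
  · exact hS1.tsum_le_of_sum_range_le hsumG1
  · apply summable_of_sum_range_le (c := ‖f‖ ^ 2) (fun _ => by positivity)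
    exact range_le_norm f
  · intro n
    have e : ((G + T y G : H) : ℕ → ℂ) = (convL G G : ℕ → ℂ) := by
      have h2 : (G : ℕ → ℂ) = (e0 : ℕ → ℂ) + (A₁ y : ℕ → ℂ) := rfl
      have h3 : convL (G : ℕ → ℂ) G = convL ((e0 : ℕ → ℂ) + (A₁ y : ℕ → ℂ)) G := by rw [h2]
      rw [h3, convL_add_left, e0_conv]
      rfl
    rw [hfG, V_apply, e, convL_apply]
    rfl
  · intro n
    have := hid' n
    rw [hmr] at this
    rw [← this]
    push_cast
    ring


end Quad
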