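import Mathlib
import Pool.Agent.Helper123.Quad.SlopeDef

open MeasureTheory Set Filter Topology Metric
open scoped ENNReal NNReal Real ComplexConjugate

namespace Quad

/-- From the singular Bloch function to the even singular inner function. -/
theorem exists_inner (H : ℂ → ℂ) (C : ℝ) (ζ₀ : ℂ) (O : Set ℝ) (hC : 0 < C) (hζ₀ : ‖ζ₀‖ = 1)
    (hHd : DifferentiableOn ℂ H (ball 0 1)) (hH0 : H 0 = 1)
    (hHre : ∀ z ∈ ball (0 : ℂ) 1, 0 ≤ (H z).re)
    (hHder : ∀ z ∈ ball (0 : ℂ) 1, ‖deriv H z‖ ≤ C / (1 - ‖z‖))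
    (hO : IsOpen O) (hOc : volume Oᶜ = 0)
    (hlim : ∀ x ∈ O, ∃ b : ℂ, b.re = 0 ∧ Tendsto H (𝓝[ball 0 1] (ee x)) (𝓝 b))
    (hblow : Tendsto (fun r : ℝ => (H (r * ζ₀)).re) (𝓝[<] 1) atTop) :
    ∃ (S h : ℂ → ℂ) (s : ℕ → ℂ) (Θ : Set ℝ) (ζ₁ : ℂ),
      (∀ z ∈ ball (0 : ℂ) 1, HasSum (fun n => s n * z ^ n) (S z)) ∧
      (∀ z ∈ ball (0 : ℂ) 1, ‖S z‖ ≤ 1) ∧
      (∀ n, Odd n → s n = 0) ∧
      (999999 / 1000000 : ℝ) ≤ ‖s 0‖ ^ 2 ∧
      (∀ z ∈ ball (0 : ℂ) 1, S z = Complex.exp (-(h z))) ∧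
      (∀ z ∈ ball (0 : ℂ) 1, ∃ h' : ℂ, HasDerivAt h h' z ∧ ‖h'‖ ≤ (1 / 20) / (1 - ‖z‖)) ∧
      MeasurableSet Θ ∧ volume Θᶜ = 0 ∧
      (∀ θ ∈ Θ, ∃ v : ℂ, ‖v‖ = 1 ∧
        Tendsto S (𝓝[ball 0 1] (Complex.exp (θ * Complex.I))) (𝓝 v)) ∧
      ‖ζ₁‖ = 1 ∧ Tendsto (fun r : ℝ => S (r * ζ₁)) (𝓝[<] 1) (𝓝 0) := by
  obtain ⟨t, ht0, ht1, ht2⟩ : ∃ t : ℝ, 0 < t ∧ 2 * t * C ≤ 1 / 20 ∧ 2 * t ≤ 1 / 1000000 := by
    refine ⟨min (1 / (40 * C)) (1 / 2000000), by positivity, ?_, ?_⟩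
    · have h1 : min (1 / (40 * C)) (1 / 2000000) ≤ 1 / (40 * C) := min_le_left _ _
      calc 2 * min (1 / (40 * C)) (1 / 2000000) * C ≤ 2 * (1 / (40 * C)) * C := by gcongr
        _ = 1 / 20 := by field_simp; norm_num
    · have h1 : min (1 / (40 * C)) (1 / 2000000) ≤ 1 / 2000000 := min_le_right _ _
      linarith
  -- S₁(w) = exp(-t H w)
  set S₁ : ℂ → ℂ := fun w => Complex.exp (-(t * H w)) with hS₁
  have hS₁d : DifferentiableOn ℂ S₁ (ball 0 1) := by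
    apply DifferentiableOn.cexp
    exact (hHd.const_mul (t : ℂ)).neg
  set h : ℂ → ℂ := fun z => t * H (z ^ 2) with hh
  set S : ℂ → ℂ := fun z => Complex.exp (-(h z)) with hS
  have hsq : ∀ z ∈ ball (0 : ℂ) 1, z ^ 2 ∈ ball (0 : ℂ) 1 := by
    intro z hz
    rw [mem_ball, dist_zero_right] at hz ⊢
    rw [norm_pow]
    nlinarith [norm_nonneg z]
  set s₁ : ℕ → ℂ := fun n => (n.factorial : ℂ)⁻¹ * iteratedDeriv n S₁ 0 with hs₁
  have hsum₁ : ∀ w ∈ ball (0 : ℂ) 1, HasSum (fun n => s₁ n * w ^ n) (S₁ w) := by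
    intro w hw
    have h1 := Complex.hasSum_taylorSeries_on_ball hS₁d hw
    refine h1.congr_fun ?_ |> fun h => h
    intro n
    simp only [hs₁, sub_zero, smul_eq_mul]
    ring
  set s : ℕ → ℂ := fun n => if Even n then s₁ (n / 2) else 0 with hs
  have hsum : ∀ z ∈ ball (0 : ℂ) 1, HasSum (fun n => s n * z ^ n) (S z) := by
    intro z hz
    have h1 := hsum₁ (z ^ 2) (hsq z hz)
    have h2 : S₁ (z ^ 2) = S z := rfl
    rw [h2] at h1
    have hinj : Function.Injective (fun n : ℕ => 2 * n) := fun a b hab => by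
      simpa using hab
    rw [← hinj.hasSum_iff]
    · refine h1.congr_fun ?_ |> fun h => h
      intro n
      simp only [Function.comp, hs]
      simp [pow_mul]
    · intro n hn
      have : ¬ Even n := by
        intro he
        apply hn
        obtain ⟨k, hk⟩ := he
        exact ⟨k, by simp only; omega⟩
      simp [hs, this]
  refine ⟨S, h, s, {θ | θ / π ∈ O}, ?_⟩
  obtain ⟨ζ₁, hζ₁⟩ : ∃ ζ₁ : ℂ, ζ₁ ^ 2 = ζ₀ := by
    obtain ⟨w, hw⟩ := IsAlgClosed.exists_pow_nat_eq ζ₀ (n := 2) (by norm_num)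
    exact ⟨w, hw⟩
  have hζ₁n : ‖ζ₁‖ = 1 := by
    have h1 : ‖ζ₁‖ ^ 2 = 1 := by rw [← norm_pow, hζ₁, hζ₀]
    have h2 := norm_nonneg ζ₁
    nlinarith [sq_nonneg (‖ζ₁‖ - 1)]
  refine ⟨ζ₁, hsum, ?_, ?_, ?_, fun z _ => rfl, ?_, ?_, ?_, ?_, hζ₁n, ?_⟩
  · intro z hz
    simp only [hS, hh]
    rw [Complex.norm_exp]
    apply Real.exp_le_one_iff.2
    have := hHre (z ^ 2) (hsq z hz)
    simp only [Complex.neg_re, Complex.re_ofReal_mul]
    have := mul_nonneg ht0.le this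
    linarith
  · intro n hn
    simp [hs, hn]
  · have h1 : s 0 = S₁ 0 := by simp [hs, hs₁]
    rw [h1]
    simp only [hS₁, hH0]
    rw [Complex.norm_exp, ← Real.exp_nat_mul]
    simp only [mul_one, Complex.neg_re, Complex.ofReal_re]
    have h2 := Real.add_one_le_exp (((2 : ℕ) : ℝ) * -t)
    push_cast at h2 ⊢
    linarith
  · intro z hz
    have hz2 := hsq z hz
    have h1 : HasDerivAt H (deriv H (z ^ 2)) (z ^ 2) :=
      (hHd.differentiableAt (isOpen_ball.mem_nhds hz2)).hasDerivAt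
    have h2 : HasDerivAt (fun z : ℂ => z ^ 2) (2 * z) z := by
      simpa using hasDerivAt_pow 2 z
    have h3 := (h1.comp z h2).const_mul (t : ℂ)
    refine ⟨_, h3, ?_⟩
    have h4 := hHder (z ^ 2) hz2
    rw [mem_ball, dist_zero_right] at hz
    have h5 : 0 ≤ ‖z‖ := norm_nonneg z
    rw [norm_pow] at h4
    have h6 : 0 < 1 - ‖z‖ := by linarith
    have h7 : C / (1 - ‖z‖ ^ 2) ≤ C / (1 - ‖z‖) := by
      apply div_le_div_of_nonneg_left hC.le h6
      nlinarith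
    have h8 : ‖(t : ℂ) * (deriv H (z ^ 2) * (2 * z))‖ = t * (‖deriv H (z ^ 2)‖ * (2 * ‖z‖)) := by
      rw [norm_mul, norm_mul, norm_mul, Complex.norm_real, Real.norm_of_nonneg ht0.le]
      simp
    rw [h8]
    calc t * (‖deriv H (z ^ 2)‖ * (2 * ‖z‖)) ≤ t * (C / (1 - ‖z‖) * (2 * 1)) := by
          apply mul_le_mul_of_nonneg_left _ ht0.le
          apply mul_le_mul (h4.trans h7) (by linarith) (by positivity) (by positivity)
      _ = (2 * t * C) / (1 - ‖z‖) := by ring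
      _ ≤ (1 / 20) / (1 - ‖z‖) := by gcongr
  · have hcont : Continuous (fun θ : ℝ => θ / π) := by fun_prop
    exact (hO.preimage hcont).measurableSet
  · have h1 : {θ : ℝ | θ / π ∈ O}ᶜ = (fun x : ℝ => π⁻¹ * x) ⁻¹' Oᶜ := by
      ext θ
      simp only [mem_compl_iff, mem_setOf_eq, mem_preimage]
      rw [div_eq_inv_mul]
    rw [h1, Real.volume_preimage_mul_left (inv_ne_zero Real.pi_ne_zero), hOc, mul_zero]
  · intro θ hθ
    obtain ⟨b, hb, hbl⟩ := hlim _ hθ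
    refine ⟨Complex.exp (-(t * b)), ?_, ?_⟩
    · rw [Complex.norm_exp]
      simp [Complex.re_ofReal_mul, hb]
    · have h1 : Tendsto (fun z : ℂ => z ^ 2) (𝓝[ball 0 1] (Complex.exp (θ * Complex.I)))
          (𝓝[ball 0 1] (ee (θ / π))) := by
        rw [tendsto_nhdsWithin_iff]
        constructor
        · have h2 : Tendsto (fun z : ℂ => z ^ 2) (𝓝 (Complex.exp (θ * Complex.I)))
              (𝓝 (Complex.exp (θ * Complex.I) ^ 2)) :=
            (continuous_pow 2).tendsto _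
          have h3 : Complex.exp (θ * Complex.I) ^ 2 = ee (θ / π) := by
            rw [ee, ← Complex.exp_nat_mul]
            congr 1
            have : (π : ℂ) ≠ 0 := by exact_mod_cast Real.pi_ne_zero
            push_cast
            field_simp
          rw [h3] at h2
          exact h2.mono_left nhdsWithin_le_nhds
        · filter_upwards [self_mem_nhdsWithin] with z hz
          exact hsq z hz
      have h4 := hbl.comp h1
      have h5 : Tendsto (fun z => Complex.exp (-(t * H (z ^ 2))))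
          (𝓝[ball 0 1] (Complex.exp (θ * Complex.I))) (𝓝 (Complex.exp (-(t * b)))) :=
        (Complex.continuous_exp.tendsto _).comp ((h4.const_mul (t : ℂ)).neg)
      exact h5
  · -- radial limit 0
    rw [tendsto_zero_iff_norm_tendsto_zero]
    have h1 : (fun r : ℝ => ‖S (r * ζ₁)‖) = fun r : ℝ => Real.exp (-(t * (H (((r ^ 2 : ℝ) : ℂ) * ζ₀)).re)) := by
      ext r
      simp only [hS, hh]
      rw [Complex.norm_exp]
      congr 1
      rw [Complex.neg_re, Complex.re_ofReal_mul, mul_pow, hζ₁]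
      push_cast
      rfl
    rw [h1]
    have h2 : Tendsto (fun r : ℝ => r ^ 2) (𝓝[<] 1) (𝓝[<] 1) := by
      rw [tendsto_nhdsWithin_iff]
      constructor
      · have : Tendsto (fun r : ℝ => r ^ 2) (𝓝 1) (𝓝 (1 ^ 2)) := (continuous_pow 2).tendsto _
        rw [one_pow] at this
        exact this.mono_left nhdsWithin_le_nhds
      · have h5 : ∀ᶠ r : ℝ in 𝓝[<] 1, r ∈ Ioo (0 : ℝ) 1 := Ioo_mem_nhdsLT one_pos
        filter_upwards [h5] with r hr
        rw [mem_Iio]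
        nlinarith [hr.1, hr.2]
    have h3 := hblow.comp h2
    have h4 : Tendsto (fun r : ℝ => t * (H (((r ^ 2 : ℝ) : ℂ) * ζ₀)).re) (𝓝[<] 1) atTop :=
      h3.const_mul_atTop ht0
    exact Real.tendsto_exp_neg_atTop_nhds_zero.comp h4

end Quad
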