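import Mathlib
import Pool.Agent.Helper123.Quad.SlopeDef
import Pool.Agent.Helper123.Quad.BlochBound

open MeasureTheory Set Filter Topology Metric
open scoped ENNReal NNReal Real ComplexConjugate

namespace Quad


namespace Sing


theorem ee_cont : Continuous ee := by
  unfold ee; fun_prop

theorem ee_eq (x : ℝ) : ee x = Complex.exp (Complex.I * ((2 * π * x : ℝ) : ℂ)) := by
  unfold ee; congr 1; push_cast; ring

theorem ee_norm (x : ℝ) : ‖ee x‖ = 1 := by
  rw [ee_eq, mul_comm, Complex.norm_exp_ofReal_mul_I]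

theorem ee_ne (x : ℝ) : ee x ≠ 0 := by
  intro h
  have := ee_norm x
  rw [h] at this; simp at this

theorem ee_add (x y : ℝ) : ee (x + y) = ee x * ee y := by
  unfold ee; rw [← Complex.exp_add]; congr 1; push_cast; ring

theorem ee_sub_norm (x y : ℝ) : ‖ee x - ee y‖ = 2 * |Real.sin (π * (x - y))| := by
  have h1 : ee x - ee y = ee y * (ee (x - y) - 1) := by
    have : ee x = ee y * ee (x - y) := by rw [← ee_add]; congr 1; ring
    rw [this]; ring
  rw [h1, norm_mul, ee_norm, one_mul, ee_eq, Complex.norm_exp_I_mul_ofReal_sub_one]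
  rw [Real.norm_eq_abs, abs_mul, abs_two]
  congr 3; ring

theorem ee_sub_le (x y : ℝ) : ‖ee x - ee y‖ ≤ 2 * π * |x - y| := by
  rw [ee_sub_norm]
  have := Real.abs_sin_le_abs (x := π * (x - y))
  rw [abs_mul, abs_of_pos Real.pi_pos] at this
  linarith

theorem ee_add_int (x : ℝ) (k : ℤ) : ee (x + k) = ee x := by
  rw [ee_add]
  have : ee (k : ℝ) = 1 := by
    unfold ee
    rw [Complex.exp_eq_one_iff]
    exact ⟨k, by push_cast; ring⟩
  rw [this, mul_one]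

/-- the Herglotz kernel -/
noncomputable def kz (z : ℂ) (x : ℝ) : ℂ := (ee x + z) / (ee x - z)

theorem kz_re (z : ℂ) (x : ℝ) : (kz z x).re = (1 - ‖z‖ ^ 2) / ‖ee x - z‖ ^ 2 := by
  unfold kz
  have he : (ee x).re ^ 2 + (ee x).im ^ 2 = 1 := by
    have := Complex.sq_norm (ee x)
    rw [ee_norm, Complex.normSq_apply] at this
    nlinarith
  rw [Complex.sq_norm, Complex.sq_norm, Complex.div_re, ← add_div]
  congr 1
  simp only [Complex.normSq_apply, Complex.add_re, Complex.add_im, Complex.sub_re, Complex.sub_im]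
  nlinarith

theorem kz_norm_le (z : ℂ) (x δ : ℝ) (hδ : 0 < δ) (hz : ‖z‖ ≤ 1) (h : δ ≤ ‖ee x - z‖) :
    ‖kz z x‖ ≤ 2 / δ := by
  unfold kz
  rw [norm_div]
  have h1 : ‖ee x + z‖ ≤ 2 := by
    have := norm_add_le (ee x) z
    rw [ee_norm] at this; linarith
  exact div_le_div₀ (by norm_num) h1 hδ h

theorem kz_sub (z : ℂ) (x y : ℝ) (hx : ee x - z ≠ 0) (hy : ee y - z ≠ 0) :
    kz z x - kz z y = 2 * z * (ee y - ee x) / ((ee x - z) * (ee y - z)) := by
  unfold kz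
  field_simp
  ring

theorem kz_sub_le (z : ℂ) (x y δ : ℝ) (hδ : 0 < δ) (hz : ‖z‖ ≤ 1) (hx : δ ≤ ‖ee x - z‖)
    (hy : δ ≤ ‖ee y - z‖) : ‖kz z x - kz z y‖ ≤ 4 * π * |x - y| / δ ^ 2 := by
  have h1 : ee x - z ≠ 0 := by
    intro h; rw [h, norm_zero] at hx; linarith
  have h2 : ee y - z ≠ 0 := by
    intro h; rw [h, norm_zero] at hy; linarith
  rw [kz_sub z x y h1 h2, norm_div, norm_mul, norm_mul, norm_mul]
  have h3 : ‖ee y - ee x‖ ≤ 2 * π * |x - y| := by
    have := ee_sub_le y x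
    rwa [abs_sub_comm] at this
  have h4 : ‖(2:ℂ)‖ * ‖z‖ * ‖ee y - ee x‖ ≤ 4 * π * |x - y| := by
    have : ‖(2:ℂ)‖ = 2 := by norm_num
    rw [this]
    nlinarith [norm_nonneg z, norm_nonneg (ee y - ee x), Real.pi_pos, abs_nonneg (x - y),
      mul_nonneg Real.pi_pos.le (abs_nonneg (x - y))]
  have h5 : δ ^ 2 ≤ ‖ee x - z‖ * ‖ee y - z‖ := by nlinarith
  exact div_le_div₀ (by positivity) h4 (by positivity) h5

theorem kz_meas (z : ℂ) : Measurable (kz z) := by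
  unfold kz
  exact (ee_cont.measurable.add_const z).div (ee_cont.measurable.sub_const z)

theorem P_le {P : ℕ → ℝ → ℝ} (hP : SlopeSys P) (n : ℕ) (x : ℝ) : P n x ≤ n + 1 := by
  induction n with
  | zero => rw [hP.zero]; simp
  | succ n ih =>
    have := (abs_le.1 (hP.step n x)).2
    push_cast; linarith

theorem P_absorb {P : ℕ → ℝ → ℝ} (hP : SlopeSys P) {n m : ℕ} (hnm : n ≤ m) (x : ℝ)
    (h : P n x = 0) : P m x = 0 := by
  induction m, hnm using Nat.le_induction with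
  | base => exact h
  | succ m _ ih => exact hP.absorb m x ih

theorem P_per {P : ℕ → ℝ → ℝ} (hP : SlopeSys P) (n : ℕ) (x : ℝ) (k : ℤ) :
    P n (x + k) = P n x := by
  have h : Function.Periodic (P n) 1 := hP.per n
  have := h.int_mul k x
  simpa using this

theorem intg {P : ℕ → ℝ → ℝ} (hP : SlopeSys P) (n : ℕ) (f : ℝ → ℂ) (hf : Measurable f) (B : ℝ)
    (hB : ∀ y, P n y ≠ 0 → ‖f y‖ ≤ B) (a b : ℝ) :
    IntervalIntegrable (fun x => f x * (P n x : ℂ)) volume a b := by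
  have hm : Measurable (fun x => f x * (P n x : ℂ)) :=
    hf.mul (Complex.measurable_ofReal.comp (hP.meas n))
  refine (intervalIntegrable_const (c := |B| * (n + 1))).mono_fun hm.aestronglyMeasurable ?_
  refine Filter.Eventually.of_forall fun x => ?_
  have hnn := hP.nonneg n x
  have h1 : ‖(P n x : ℂ)‖ = P n x := by
    rw [Complex.norm_real, Real.norm_eq_abs, abs_of_nonneg hnn]
  by_cases h : P n x = 0
  · simp only [h]
    simp
    positivity
  · simp only [norm_mul, h1]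
    have h2 := hB x h
    have h3 : ‖f x‖ ≤ |B| := h2.trans (le_abs_self B)
    rw [Real.norm_eq_abs, abs_abs, Real.norm_eq_abs, abs_of_nonneg (by positivity : (0:ℝ) ≤ (n + 1 : ℝ))]
    exact mul_le_mul h3 (P_le hP n x) hnn (abs_nonneg _)

theorem intgR {P : ℕ → ℝ → ℝ} (hP : SlopeSys P) (n : ℕ) (a b : ℝ) :
    IntervalIntegrable (P n) volume a b := by
  refine (intervalIntegrable_const (c := ((n:ℝ) + 1))).mono_fun (hP.meas n).aestronglyMeasurable ?_
  refine Filter.Eventually.of_forall fun x => ?_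
  have h1 : |P n x| ≤ |(n:ℝ) + 1| := by
    rw [abs_of_nonneg (hP.nonneg n x), abs_of_nonneg (by positivity)]
    exact P_le hP n x
  simpa [Real.norm_eq_abs] using h1

/-- split an integral over a level `n` interval into `4^k` smaller ones -/
theorem split_int {E : Type*} [NormedAddCommGroup E] [NormedSpace ℝ E] (n k : ℕ) (j : ℤ)
    (f : ℝ → E) (hf : ∀ a b, IntervalIntegrable f volume a b) :
    ∫ x in ((j : ℝ) / 4 ^ n)..(((j : ℝ) + 1) / 4 ^ n), f x =
      ∑ i ∈ Finset.range (4 ^ k), ∫ x in (((4 ^ k * j + i : ℤ) : ℝ) / 4 ^ (n + k))..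
        ((((4 ^ k * j + i : ℤ) : ℝ) + 1) / 4 ^ (n + k)), f x := by
  have h := intervalIntegral.sum_integral_adjacent_intervals (f := f) (μ := volume)
    (a := fun i : ℕ => ((4 ^ k * j + i : ℤ) : ℝ) / 4 ^ (n + k)) (n := 4 ^ k)
    (fun i _ => hf _ _)
  have h0 : ((4 ^ k * j + (0:ℕ) : ℤ) : ℝ) / 4 ^ (n + k) = (j : ℝ) / 4 ^ n := by
    push_cast; rw [pow_add]; field_simp; ring
  have h1 : ((4 ^ k * j + (4 ^ k : ℕ) : ℤ) : ℝ) / 4 ^ (n + k) = ((j : ℝ) + 1) / 4 ^ n := by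
    push_cast; rw [pow_add]; field_simp
  simp only [h0, h1] at h
  rw [← h]
  refine Finset.sum_congr rfl fun i _ => ?_
  congr 2
  push_cast; ring

theorem floor_of_mem (n : ℕ) (j : ℤ) (x : ℝ) (hx : x ∈ Ico ((j : ℝ) / 4 ^ n) (((j : ℝ) + 1) / 4 ^ n)) :
    ⌊(4 : ℝ) ^ n * x⌋ = j := by
  have h4 : (0 : ℝ) < 4 ^ n := by positivity
  rw [Int.floor_eq_iff]
  have h1 := hx.1
  have h2 := hx.2
  rw [div_le_iff₀ h4] at h1
  rw [lt_div_iff₀ h4] at h2
  constructor <;> nlinarith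

theorem Hn_succ_sub (P : ℕ → ℝ → ℝ) (hP : SlopeSys P) (n : ℕ) (z : ℂ) (hz : ‖z‖ ≤ 1)
    (δ : ℝ) (hδ : 0 < δ) (h : ∀ y, P n y ≠ 0 → δ ≤ ‖ee y - z‖) :
    ‖Hn P (n + 1) z - Hn P n z‖ ≤ 4 * π * (1 / 4) ^ n / δ ^ 2 := by
  have hk : ∀ y, P n y ≠ 0 → ‖kz z y‖ ≤ 2 / δ := fun y hy => kz_norm_le z y δ hδ hz (h y hy)
  have hk' : ∀ y, P (n + 1) y ≠ 0 → ‖kz z y‖ ≤ 2 / δ := fun y hy =>
    hk y (fun h0 => hy (hP.absorb n y h0))
  have i1 := intg hP n (kz z) (kz_meas z) _ hk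
  have i2 := intg hP (n + 1) (kz z) (kz_meas z) _ hk'
  have e1 : Hn P (n + 1) z - Hn P n z =
      ∫ x in (0:ℝ)..1, (kz z x * (P (n + 1) x : ℂ) - kz z x * (P n x : ℂ)) := by
    rw [intervalIntegral.integral_sub (i2 _ _) (i1 _ _)]
    rfl
  set F : ℝ → ℂ := fun x => kz z x * (P (n + 1) x : ℂ) - kz z x * (P n x : ℂ) with hF
  have iF : ∀ a b, IntervalIntegrable F volume a b := fun a b => (i2 a b).sub (i1 a b)
  have e2 := split_int 0 n 0 F iF
  have e3 : ∫ x in (0:ℝ)..1, F x = ∑ i ∈ Finset.range (4 ^ n),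
      ∫ x in (((4 ^ n * 0 + i : ℤ) : ℝ) / 4 ^ (0 + n))..
        ((((4 ^ n * 0 + i : ℤ) : ℝ) + 1) / 4 ^ (0 + n)), F x := by
    rw [← e2]; simp
  rw [e1, e3]
  have hbound : ∀ i ∈ Finset.range (4 ^ n), ‖∫ x in (((4 ^ n * 0 + i : ℤ) : ℝ) / 4 ^ (0 + n))..
        ((((4 ^ n * 0 + i : ℤ) : ℝ) + 1) / 4 ^ (0 + n)), F x‖ ≤
        4 * π * (1 / 4) ^ n / δ ^ 2 * (1 / 4) ^ n := by
    intro i _
    have hz0 : 0 + n = n := zero_add n
    rw [hz0]
    generalize (4 ^ n * 0 + (i:ℤ) : ℤ) = j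
    have h4 : (0 : ℝ) < 4 ^ n := by positivity
    have hlt : (j : ℝ) / 4 ^ n < ((j : ℝ) + 1) / 4 ^ n := by
      apply div_lt_div_of_pos_right _ h4; linarith
    have hconst : ∀ x ∈ Ico ((j : ℝ) / 4 ^ n) (((j : ℝ) + 1) / 4 ^ n),
        P n x = P n ((j : ℝ) / 4 ^ n) := by
      intro x hx
      apply hP.const
      rw [floor_of_mem n j x hx, floor_of_mem n j _ ⟨le_rfl, hlt⟩]
    have hae : ∀ᵐ x ∂(volume : Measure ℝ), x ∈ Set.uIoc ((j : ℝ) / 4 ^ n) (((j : ℝ) + 1) / 4 ^ n) →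
        x ∈ Ico ((j : ℝ) / 4 ^ n) (((j : ℝ) + 1) / 4 ^ n) := by
      have : ∀ᵐ x ∂(volume : Measure ℝ), x ≠ ((j : ℝ) + 1) / 4 ^ n := by
        simp [ae_iff]
      filter_upwards [this] with x hx hm
      rw [uIoc_of_le hlt.le] at hm
      exact ⟨hm.1.le, lt_of_le_of_ne hm.2 hx⟩
    by_cases hc : P n ((j : ℝ) / 4 ^ n) = 0
    · have : ∫ x in ((j : ℝ) / 4 ^ n)..(((j : ℝ) + 1) / 4 ^ n), F x = 0 := by
        apply intervalIntegral.integral_zero_ae
        filter_upwards [hae] with x hx hm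
        have h1 : P n x = 0 := by rw [hconst x (hx hm), hc]
        have h2 := hP.absorb n x h1
        simp [hF, h1, h2]
      rw [this, norm_zero]
      positivity
    · have hzero : ∫ x in ((j : ℝ) / 4 ^ n)..(((j : ℝ) + 1) / 4 ^ n),
          kz z ((j : ℝ) / 4 ^ n) * ((P (n + 1) x - P n x : ℝ) : ℂ) = 0 := by
        rw [intervalIntegral.integral_const_mul, intervalIntegral.integral_ofReal, hP.mean n j]
        simp
      have iG : IntervalIntegrable (fun x => kz z ((j : ℝ) / 4 ^ n) *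
          ((P (n + 1) x - P n x : ℝ) : ℂ)) volume ((j : ℝ) / 4 ^ n) (((j : ℝ) + 1) / 4 ^ n) := by
        have h0 := ((intgR hP (n + 1) ((j : ℝ) / 4 ^ n) (((j : ℝ) + 1) / 4 ^ n)).sub
          (intgR hP n _ _))
        have h1 : IntervalIntegrable (fun x => ((P (n + 1) x - P n x : ℝ) : ℂ)) volume
            ((j : ℝ) / 4 ^ n) (((j : ℝ) + 1) / 4 ^ n) :=
          ⟨Integrable.ofReal h0.1, Integrable.ofReal h0.2⟩
        exact h1.const_mul _
      have e4 : ∫ x in ((j : ℝ) / 4 ^ n)..(((j : ℝ) + 1) / 4 ^ n), F x =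
          ∫ x in ((j : ℝ) / 4 ^ n)..(((j : ℝ) + 1) / 4 ^ n),
            (F x - kz z ((j : ℝ) / 4 ^ n) * ((P (n + 1) x - P n x : ℝ) : ℂ)) := by
        rw [intervalIntegral.integral_sub (iF _ _) iG, hzero, sub_zero]
      rw [e4]
      have e5 : ‖∫ x in ((j : ℝ) / 4 ^ n)..(((j : ℝ) + 1) / 4 ^ n),
            (F x - kz z ((j : ℝ) / 4 ^ n) * ((P (n + 1) x - P n x : ℝ) : ℂ))‖ ≤
            4 * π * (1 / 4) ^ n / δ ^ 2 * |((j : ℝ) + 1) / 4 ^ n - (j : ℝ) / 4 ^ n| := by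
        apply intervalIntegral.norm_integral_le_of_norm_le_const_ae
        filter_upwards [hae] with x hx hm
        have hx' := hx hm
        have hPx : P n x ≠ 0 := by rw [hconst x hx']; exact hc
        have e6 : F x - kz z ((j : ℝ) / 4 ^ n) * ((P (n + 1) x - P n x : ℝ) : ℂ) =
            (kz z x - kz z ((j : ℝ) / 4 ^ n)) * ((P (n + 1) x - P n x : ℝ) : ℂ) := by
          simp only [hF]; push_cast; ring
        rw [e6, norm_mul, Complex.norm_real, Real.norm_eq_abs]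
        have h1 := hP.step n x
        have h2 := kz_sub_le z x ((j : ℝ) / 4 ^ n) δ hδ hz (h x hPx) (h _ hc)
        have h3 : |x - (j : ℝ) / 4 ^ n| ≤ (1 / 4) ^ n := by
          rw [abs_of_nonneg (by linarith [hx'.1])]
          have := hx'.2
          rw [add_div] at this
          have h5 : (1:ℝ) / 4 ^ n = (1 / 4) ^ n := by rw [one_div, one_div, inv_pow]
          linarith
        calc ‖kz z x - kz z ((j : ℝ) / 4 ^ n)‖ * |P (n + 1) x - P n x|
            ≤ ‖kz z x - kz z ((j : ℝ) / 4 ^ n)‖ * 1 :=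
              mul_le_mul_of_nonneg_left h1 (norm_nonneg _)
          _ ≤ 4 * π * |x - (j : ℝ) / 4 ^ n| / δ ^ 2 := by rw [mul_one]; exact h2
          _ ≤ 4 * π * (1 / 4) ^ n / δ ^ 2 := by
              apply div_le_div_of_nonneg_right _ (by positivity)
              exact mul_le_mul_of_nonneg_left h3 (by positivity)
      refine e5.trans (le_of_eq ?_)
      congr 1
      rw [abs_of_pos (by linarith)]
      rw [add_div]
      have h5 : (1:ℝ) / 4 ^ n = (1 / 4) ^ n := by rw [one_div, one_div, inv_pow]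
      linarith
  refine (norm_sum_le _ _).trans ((Finset.sum_le_sum hbound).trans (le_of_eq ?_))
  rw [Finset.sum_const, Finset.card_range, nsmul_eq_mul]
  have : ((4 ^ n : ℕ) : ℝ) * (1 / 4) ^ n = 1 := by
    push_cast; rw [← mul_pow]; norm_num
  calc ((4 ^ n : ℕ) : ℝ) * (4 * π * (1 / 4) ^ n / δ ^ 2 * (1 / 4) ^ n)
      = (4 * π * (1 / 4) ^ n / δ ^ 2) * (((4 ^ n : ℕ) : ℝ) * (1 / 4) ^ n) := by ring
    _ = _ := by rw [this, mul_one]

/-- the limit of the Herglotz transforms -/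
noncomputable def HH (P : ℕ → ℝ → ℝ) (z : ℂ) : ℂ := limUnder atTop (fun m => Hn P m z)

theorem Hn_lim {P : ℕ → ℝ → ℝ} (hP : SlopeSys P) (n : ℕ) (z : ℂ) (hz : ‖z‖ ≤ 1) (δ : ℝ)
    (hδ : 0 < δ) (h : ∀ y, P n y ≠ 0 → δ ≤ ‖ee y - z‖) :
    Tendsto (fun m => Hn P m z) atTop (𝓝 (HH P z)) ∧
    ∀ m, n ≤ m → dist (Hn P m z) (HH P z) ≤ 16 * π / δ ^ 2 / 3 * (1 / 4) ^ m := by
  have hu : ∀ k, dist (Hn P (n + k) z) (Hn P (n + (k + 1)) z) ≤
      (4 * π * (1 / 4) ^ n / δ ^ 2) * (1 / 4) ^ k := by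
    intro k
    rw [dist_comm, dist_eq_norm]
    have := Hn_succ_sub P hP (n + k) z hz δ hδ
      (fun y hy => h y (fun h0 => hy (P_absorb hP (Nat.le_add_right n k) y h0)))
    refine this.trans (le_of_eq ?_)
    rw [pow_add]; ring
  have hc := cauchySeq_of_le_geometric (f := fun k => Hn P (n + k) z) (1 / 4)
    (4 * π * (1 / 4) ^ n / δ ^ 2) (by norm_num) hu
  obtain ⟨l, hl⟩ := cauchySeq_tendsto_of_complete hc
  have hl' : Tendsto (fun m => Hn P m z) atTop (𝓝 l) := by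
    rw [← tendsto_add_atTop_iff_nat n]
    simpa [add_comm] using hl
  have hH : HH P z = l := hl'.limUnder_eq
  refine ⟨hH ▸ hl', ?_⟩
  intro m hm
  obtain ⟨k, rfl⟩ := Nat.exists_eq_add_of_le hm
  have := dist_le_of_le_geometric_of_tendsto (f := fun k => Hn P (n + k) z) (1 / 4)
    (4 * π * (1 / 4) ^ n / δ ^ 2) (by norm_num) hu hl k
  rw [hH]
  refine this.trans (le_of_eq ?_)
  rw [pow_add]; ring

theorem Hn_unif {P : ℕ → ℝ → ℝ} (hP : SlopeSys P) (n : ℕ) (N : Set ℂ) (hN : N ⊆ closedBall 0 1)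
    (δ : ℝ) (hδ : 0 < δ) (h : ∀ z ∈ N, ∀ y, P n y ≠ 0 → δ ≤ ‖ee y - z‖) :
    TendstoUniformlyOn (fun m z => Hn P m z) (HH P) atTop N := by
  rw [Metric.tendstoUniformlyOn_iff]
  intro ε hε
  have ht : Tendsto (fun m : ℕ => 16 * π / δ ^ 2 / 3 * (1 / 4 : ℝ) ^ m) atTop (𝓝 0) := by
    have := (tendsto_pow_atTop_nhds_zero_of_lt_one (r := (1 / 4 : ℝ)) (by norm_num)
      (by norm_num)).const_mul (16 * π / δ ^ 2 / 3)
    simpa using this
  filter_upwards [ht.eventually_lt_const hε, eventually_ge_atTop n] with m hm hnm z hz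
  have hz1 : ‖z‖ ≤ 1 := by simpa using hN hz
  rw [dist_comm]
  exact ((Hn_lim hP n z hz1 δ hδ (h z hz)).2 m hnm).trans_lt hm

theorem ball_delta (z : ℂ) (r : ℝ) (hz : ‖z‖ ≤ r) (y : ℝ) : 1 - r ≤ ‖ee y - z‖ := by
  have := norm_sub_norm_le (ee y) z
  rw [ee_norm] at this
  linarith

theorem HH_locunif {P : ℕ → ℝ → ℝ} (hP : SlopeSys P) :
    TendstoLocallyUniformlyOn (fun m z => Hn P m z) (HH P) atTop (ball 0 1) := by
  rw [tendstoLocallyUniformlyOn_iff_forall_isCompact isOpen_ball]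
  intro K hK hKc
  obtain ⟨r, hr, hKr⟩ := exists_lt_subset_ball hKc.isClosed hK
  refine Hn_unif hP 0 K (hK.trans ball_subset_closedBall) (1 - r) (by linarith) ?_
  intro z hz y _
  have : ‖z‖ ≤ r := by
    have := hKr hz
    rw [mem_ball_zero_iff] at this
    exact this.le
  exact ball_delta z r this y

theorem Hn_deriv {P : ℕ → ℝ → ℝ} (hP : SlopeSys P) (n : ℕ) (z : ℂ) (hz : ‖z‖ < 1) :
    HasDerivAt (Hn P n) (∫ x in (0 : ℝ)..1, 2 * ee x / (ee x - z) ^ 2 * (P n x : ℂ)) z := by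
  have hδ : 0 < (1 - ‖z‖) / 2 := by linarith
  have hs : ball z ((1 - ‖z‖) / 2) ∈ 𝓝 z := ball_mem_nhds z hδ
  have hball : ∀ w ∈ ball z ((1 - ‖z‖) / 2), ∀ t, (1 - ‖z‖) / 2 ≤ ‖ee t - w‖ := by
    intro w hw t
    have h1 : ‖w‖ ≤ 1 - (1 - ‖z‖) / 2 := by
      rw [mem_ball, dist_eq_norm] at hw
      have := norm_sub_norm_le w z
      linarith
    have := ball_delta w _ h1 t
    linarith
  have hPm : Measurable (fun t => (P n t : ℂ)) := Complex.measurable_ofReal.comp (hP.meas n)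
  have key := intervalIntegral.hasDerivAt_integral_of_dominated_loc_of_deriv_le
    (F := fun w t => (ee t + w) / (ee t - w) * (P n t : ℂ))
    (F' := fun w t => 2 * ee t / (ee t - w) ^ 2 * (P n t : ℂ))
    (μ := volume) (a := 0) (b := 1) (x₀ := z) (s := ball z ((1 - ‖z‖) / 2))
    (bound := fun _ => 2 / ((1 - ‖z‖) / 2) ^ 2 * (n + 1)) hs ?_ ?_ ?_ ?_ ?_ ?_
  · exact key.2
  · refine Filter.Eventually.of_forall fun w => ?_
    exact ((kz_meas w).mul hPm).aestronglyMeasurable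
  · refine intg hP n (kz z) (kz_meas z) (2 / ((1 - ‖z‖) / 2)) (fun y _ => ?_) _ _
    exact kz_norm_le z y _ hδ hz.le (hball z (mem_ball_self hδ) y)
  · have h1 : Measurable (fun t => 2 * ee t / (ee t - z) ^ 2 * (P n t : ℂ)) :=
      (((ee_cont.measurable.const_mul 2).div ((ee_cont.measurable.sub_const z).pow_const 2))).mul hPm
    exact h1.aestronglyMeasurable
  · refine Filter.Eventually.of_forall fun t _ w hw => ?_
    have h1 := hball w hw t
    rw [norm_mul, norm_div, norm_mul, norm_pow, ee_norm, Complex.norm_real, Real.norm_eq_abs,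
      abs_of_nonneg (hP.nonneg n t)]
    have h2 : ‖(2:ℂ)‖ = 2 := by norm_num
    rw [h2, mul_one]
    have h3 : ((1 - ‖z‖) / 2) ^ 2 ≤ ‖ee t - w‖ ^ 2 := pow_le_pow_left₀ hδ.le h1 2
    have h4 : 2 / ‖ee t - w‖ ^ 2 ≤ 2 / ((1 - ‖z‖) / 2) ^ 2 :=
      div_le_div_of_nonneg_left (by norm_num) (by positivity) h3
    exact mul_le_mul h4 (P_le hP n t) (hP.nonneg n t) (by positivity)
  · exact intervalIntegrable_const
  · refine Filter.Eventually.of_forall fun t _ w hw => ?_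
    have h1 := hball w hw t
    have h2 : ee t - w ≠ 0 := by
      intro h; rw [h, norm_zero] at h1; linarith
    have h3 : HasDerivAt (fun w : ℂ => (ee t + w) / (ee t - w)) (2 * ee t / (ee t - w) ^ 2) w := by
      have ha : HasDerivAt (fun w : ℂ => ee t + w) 1 w := (hasDerivAt_id w).const_add (ee t)
      have hb : HasDerivAt (fun w : ℂ => ee t - w) (-1) w := (hasDerivAt_id w).const_sub (ee t)
      have hc := ha.div hb h2
      have he : (1 * (ee t - w) - (ee t + w) * (-1)) / (ee t - w) ^ 2 =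
          2 * ee t / (ee t - w) ^ 2 := by ring
      rw [he] at hc
      exact hc
    exact h3.mul_const _

theorem Hn_diffOn {P : ℕ → ℝ → ℝ} (hP : SlopeSys P) (n : ℕ) : DifferentiableOn ℂ (Hn P n) (ball 0 1) := by
  intro z hz
  exact (Hn_deriv hP n z (by simpa using hz)).differentiableAt.differentiableWithinAt

theorem HH_deriv_le {P : ℕ → ℝ → ℝ} (hP : SlopeSys P) (C : ℝ) (hC : ∀ (n : ℕ) (z : ℂ), ‖z‖ < 1 →
      ‖∫ x in (0 : ℝ)..1, 2 * ee x / (ee x - z) ^ 2 * (P n x : ℂ)‖ ≤ C / (1 - ‖z‖)) (z : ℂ)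
    (hz : z ∈ ball (0 : ℂ) 1) : ‖deriv (HH P) z‖ ≤ C / (1 - ‖z‖) := by
  have h1 := (HH_locunif hP).deriv (Filter.Eventually.of_forall fun n => Hn_diffOn hP n) isOpen_ball
  have h2 := h1.tendsto_at hz
  refine le_of_tendsto h2.norm (Filter.Eventually.of_forall fun n => ?_)
  have hz' : ‖z‖ < 1 := by simpa using hz
  have h3 : (deriv ∘ fun m z => Hn P m z) n z = ∫ x in (0 : ℝ)..1, 2 * ee x / (ee x - z) ^ 2 * (P n x : ℂ) :=
    (Hn_deriv hP n z hz').deriv
  rw [h3]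
  exact hC n z hz'

theorem Hn_re {P : ℕ → ℝ → ℝ} (hP : SlopeSys P) (n : ℕ) (z : ℂ) (hz : ‖z‖ ≤ 1) (δ : ℝ)
    (hδ : 0 < δ) (h : ∀ y, P n y ≠ 0 → δ ≤ ‖ee y - z‖) :
    (Hn P n z).re = ∫ x in (0:ℝ)..1, (1 - ‖z‖ ^ 2) / ‖ee x - z‖ ^ 2 * P n x := by
  have hi := intg hP n (kz z) (kz_meas z) (2 / δ) (fun y hy => kz_norm_le z y δ hδ hz (h y hy)) 0 1
  have h1 : (Hn P n z).re = ∫ x in (0:ℝ)..1, (kz z x * (P n x : ℂ)).re := by
    have := Complex.reCLM.intervalIntegral_comp_comm hi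
    simp only [Complex.reCLM_apply] at this
    rw [this]; rfl
  rw [h1]
  congr 1
  ext x
  rw [Complex.re_mul_ofReal, kz_re]

theorem mean_fine {P : ℕ → ℝ → ℝ} (hP : SlopeSys P) (n k : ℕ) (j : ℤ) :
    ∫ x in ((j : ℝ) / 4 ^ n)..(((j : ℝ) + 1) / 4 ^ n), (P (n + k + 1) x - P (n + k) x) = 0 := by
  rw [split_int n k j _ (fun a b => (intgR hP (n + k + 1) a b).sub (intgR hP (n + k) a b))]
  exact Finset.sum_eq_zero fun i _ => hP.mean (n + k) _

theorem mass {P : ℕ → ℝ → ℝ} (hP : SlopeSys P) (n k : ℕ) (j : ℤ) :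
    ∫ x in ((j : ℝ) / 4 ^ n)..(((j : ℝ) + 1) / 4 ^ n), P (n + k) x =
    ∫ x in ((j : ℝ) / 4 ^ n)..(((j : ℝ) + 1) / 4 ^ n), P n x := by
  induction k with
  | zero => rfl
  | succ k ih =>
    have := mean_fine hP n k j
    rw [intervalIntegral.integral_sub (intgR hP _ _ _) (intgR hP _ _ _)] at this
    rw [← ih]
    have h2 : n + (k + 1) = n + k + 1 := rfl
    rw [h2]; linarith

theorem HH_zero {P : ℕ → ℝ → ℝ} (hP : SlopeSys P) : HH P 0 = 1 := by
  have h1 : ∀ n, Hn P n 0 = 1 := by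
    intro n
    unfold Hn
    have h2 : ∀ x, (ee x + 0) / (ee x - 0) * (P n x : ℂ) = (P n x : ℂ) := by
      intro x
      rw [add_zero, sub_zero, div_self (ee_ne x), one_mul]
    simp only [h2]
    rw [intervalIntegral.integral_ofReal]
    have h3 := mass hP 0 n 0
    simp only [zero_add, Int.cast_zero, pow_zero, div_one] at h3
    rw [h3]
    simp [hP.zero]
  have := (Hn_lim hP 0 0 (by simp) 1 one_pos (fun y _ => by simp [ee_norm])).1
  simp only [h1] at this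
  exact tendsto_nhds_unique this tendsto_const_nhds

theorem HH_re_nonneg {P : ℕ → ℝ → ℝ} (hP : SlopeSys P) (z : ℂ) (hz : z ∈ ball (0 : ℂ) 1) :
    0 ≤ (HH P z).re := by
  have hz' : ‖z‖ < 1 := by simpa using hz
  have hd : ∀ y, 1 - ‖z‖ ≤ ‖ee y - z‖ := fun y => ball_delta z ‖z‖ le_rfl y
  have h1 := (Hn_lim hP 0 z hz'.le (1 - ‖z‖) (by linarith) (fun y _ => hd y)).1
  have h2 : Tendsto (fun m => (Hn P m z).re) atTop (𝓝 (HH P z).re) :=
    (Complex.continuous_re.tendsto _).comp h1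
  refine ge_of_tendsto h2 (Filter.Eventually.of_forall fun n => ?_)
  rw [Hn_re hP n z hz'.le (1 - ‖z‖) (by linarith) (fun y _ => hd y)]
  apply intervalIntegral.integral_nonneg (by norm_num)
  intro x _
  have : ‖z‖ ^ 2 ≤ 1 := by nlinarith [norm_nonneg z]
  exact mul_nonneg (div_nonneg (by linarith) (by positivity)) (hP.nonneg n x)

theorem O_null {P : ℕ → ℝ → ℝ} (hP : SlopeSys P) :
    volume {x : ℝ | ∃ n, ∀ᶠ y in 𝓝 x, P n y = 0}ᶜ = 0 := by
  set S : Set ℝ := {x | ∀ n, P n x ≠ 0} with hS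
  set D : Set ℝ := ⋃ n : ℕ, ⋃ j : ℤ, {(j : ℝ) / 4 ^ n} with hD
  have hS0 : volume (S ∩ Ico 0 1) = 0 := by
    have h1 : ∀ n, volume (S ∩ Ico 0 1) ≤ volume {x ∈ Ico (0 : ℝ) 1 | P n x ≠ 0} := by
      intro n
      apply measure_mono
      intro x hx
      exact ⟨hx.2, hx.1 n⟩
    have h2 := ge_of_tendsto' hP.null h1
    exact le_antisymm h2 bot_le
  have hSn : volume S = 0 := by
    have h1 : S ⊆ ⋃ k : ℤ, (fun x : ℝ => x + ((-k : ℤ) : ℝ)) ⁻¹' (S ∩ Ico 0 1) := by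
      intro x hx
      rw [mem_iUnion]
      refine ⟨⌊x⌋, ?_, ?_⟩
      · intro n
        have := P_per hP n x (-⌊x⌋)
        simp only [this]
        exact hx n
      · push_cast
        constructor
        · linarith [Int.floor_le x]
        · linarith [Int.lt_floor_add_one x]
    refine measure_mono_null h1 (measure_iUnion_null fun k => ?_)
    rw [measure_preimage_add_right]
    exact hS0
  have hDn : volume D = 0 := by
    refine measure_iUnion_null fun n => measure_iUnion_null fun j => ?_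
    exact measure_singleton _
  refine measure_mono_null (t := S ∪ D) ?_ (measure_union_null hSn hDn)
  intro x hx
  by_contra hcon
  rw [mem_union, not_or] at hcon
  obtain ⟨h1, h2⟩ := hcon
  simp only [hS, Set.mem_ofPred_eq, not_forall, not_not] at h1
  obtain ⟨n, hn⟩ := h1
  apply hx
  refine ⟨n, ?_⟩
  have h4 : (0 : ℝ) < 4 ^ n := by positivity
  have hlt : (⌊(4:ℝ) ^ n * x⌋ : ℝ) < 4 ^ n * x := by
    refine lt_of_le_of_ne (Int.floor_le _) ?_
    intro he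
    apply h2
    rw [hD, mem_iUnion]
    refine ⟨n, ?_⟩
    rw [mem_iUnion]
    refine ⟨⌊(4:ℝ) ^ n * x⌋, ?_⟩
    rw [mem_singleton_iff, he]
    field_simp
  have hc : Continuous fun y : ℝ => (4:ℝ) ^ n * y := by fun_prop
  have e1 := (hc.tendsto x).eventually_const_lt hlt
  have e2 := (hc.tendsto x).eventually_lt_const (Int.lt_floor_add_one ((4:ℝ) ^ n * x))
  filter_upwards [e1, e2] with y hy1 hy2
  rw [← hn]
  apply hP.const
  rw [Int.floor_eq_iff]
  exact ⟨hy1.le, hy2⟩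

theorem far {P : ℕ → ℝ → ℝ} (hP : SlopeSys P) (n : ℕ) (x₁ ρ : ℝ)
    (h : ∀ y, |y - x₁| < ρ → P n y = 0) (y : ℝ) (hy : P n y ≠ 0) : 4 * ρ ≤ ‖ee y - ee x₁‖ := by
  have hk : P n (y + ((-round (y - x₁) : ℤ) : ℝ)) ≠ 0 := by
    rw [P_per hP]; exact hy
  set k : ℤ := -round (y - x₁) with hkdef
  have ht : |y + (k : ℝ) - x₁| ≤ 1 / 2 := by
    have := abs_sub_round (y - x₁)
    have e : y + (k : ℝ) - x₁ = y - x₁ - round (y - x₁) := by
      rw [hkdef]; push_cast; ring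
    rw [e]; exact this
  have hρ' : ρ ≤ |y + (k : ℝ) - x₁| := by
    by_contra hc
    exact hk (h _ (not_le.1 hc))
  rw [← ee_add_int y k, ee_sub_norm]
  have h1 : |π * (y + (k : ℝ) - x₁)| ≤ π / 2 := by
    rw [abs_mul, abs_of_pos Real.pi_pos]
    nlinarith [Real.pi_pos]
  have h2 := Real.mul_abs_le_abs_sin h1
  rw [abs_mul, abs_of_pos Real.pi_pos] at h2
  have h3 : 2 / π * (π * |y + (k : ℝ) - x₁|) = 2 * |y + (k : ℝ) - x₁| := by
    field_simp
  rw [h3] at h2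
  linarith

theorem Hn_contOn {P : ℕ → ℝ → ℝ} (hP : SlopeSys P) (n : ℕ) (N : Set ℂ)
    (hN : N ⊆ closedBall 0 1) (δ : ℝ) (hδ : 0 < δ)
    (h : ∀ z ∈ N, ∀ y, P n y ≠ 0 → δ ≤ ‖ee y - z‖) : ContinuousOn (Hn P n) N := by
  intro z₀ hz₀
  have hPm : Measurable (fun t => (P n t : ℂ)) := Complex.measurable_ofReal.comp (hP.meas n)
  refine intervalIntegral.continuousWithinAt_of_dominated_interval
    (F := fun z t => kz z t * (P n t : ℂ)) (bound := fun _ => 2 / δ * (n + 1)) ?_ ?_ ?_ ?_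
  · exact Filter.Eventually.of_forall fun z => ((kz_meas z).mul hPm).aestronglyMeasurable
  · filter_upwards [self_mem_nhdsWithin] with z hz
    refine Filter.Eventually.of_forall fun t _ => ?_
    have hz1 : ‖z‖ ≤ 1 := by simpa using hN hz
    rw [norm_mul, Complex.norm_real, Real.norm_eq_abs, abs_of_nonneg (hP.nonneg n t)]
    by_cases hc : P n t = 0
    · rw [hc, mul_zero]; positivity
    · exact mul_le_mul (kz_norm_le z t δ hδ hz1 (h z hz t hc)) (P_le hP n t) (hP.nonneg n t)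
        (by positivity)
  · exact intervalIntegrable_const
  · refine Filter.Eventually.of_forall fun t _ => ?_
    by_cases hc : P n t = 0
    · simp only [hc, Complex.ofReal_zero, mul_zero]
      exact continuousWithinAt_const
    · have h1 := h z₀ hz₀ t hc
      have h2 : ee t - z₀ ≠ 0 := by
        intro h0; rw [h0, norm_zero] at h1; linarith
      apply ContinuousWithinAt.mul _ continuousWithinAt_const
      unfold kz
      apply ContinuousWithinAt.div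
      · exact (continuous_const.add continuous_id).continuousWithinAt
      · exact (continuous_const.sub continuous_id).continuousWithinAt
      · exact h2

theorem boundary {P : ℕ → ℝ → ℝ} (hP : SlopeSys P) (x₁ : ℝ)
    (hx : ∃ n, ∀ᶠ y in 𝓝 x₁, P n y = 0) :
    ∃ b : ℂ, b.re = 0 ∧ Tendsto (HH P) (𝓝[ball 0 1] (ee x₁)) (𝓝 b) := by
  obtain ⟨n, hn⟩ := hx
  rw [Metric.eventually_nhds_iff] at hn
  obtain ⟨ρ, hρ, h⟩ := hn
  have hfar := far hP n x₁ ρ (fun y hy => h (by rwa [Real.dist_eq]))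
  set N : Set ℂ := closedBall 0 1 ∩ ball (ee x₁) (2 * ρ) with hNdef
  have hN : N ⊆ closedBall 0 1 := inter_subset_left
  have hδ : 0 < 2 * ρ := by linarith
  have hh : ∀ m, n ≤ m → ∀ z ∈ N, ∀ y, P m y ≠ 0 → 2 * ρ ≤ ‖ee y - z‖ := by
    intro m hm z hz y hy
    have h1 := hfar y (fun h0 => hy (P_absorb hP hm y h0))
    have h2 := hz.2
    rw [mem_ball, dist_eq_norm] at h2
    have h3 : ‖ee y - ee x₁‖ ≤ ‖ee y - z‖ + ‖z - ee x₁‖ := by
      have := norm_add_le (ee y - z) (z - ee x₁)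
      simpa using this
    linarith
  have hcont : ContinuousOn (HH P) N := by
    refine (Hn_unif hP n N hN (2 * ρ) hδ (hh n le_rfl)).continuousOn ?_
    apply Filter.Eventually.frequently
    filter_upwards [eventually_ge_atTop n] with m hm
    exact Hn_contOn hP m N hN (2 * ρ) hδ (hh m hm)
  have hmem : ee x₁ ∈ N := by
    refine ⟨?_, mem_ball_self hδ⟩
    simp [ee_norm]
  refine ⟨HH P (ee x₁), ?_, ?_⟩
  · have h1 := (Hn_lim hP n (ee x₁) (ee_norm x₁).le (2 * ρ) hδ (hh n le_rfl _ hmem)).1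
    have h2 : Tendsto (fun m => (Hn P m (ee x₁)).re) atTop (𝓝 (HH P (ee x₁)).re) :=
      (Complex.continuous_re.tendsto _).comp h1
    have h3 : ∀ᶠ m in atTop, (Hn P m (ee x₁)).re = 0 := by
      filter_upwards [eventually_ge_atTop n] with m hm
      rw [Hn_re hP m (ee x₁) (ee_norm x₁).le (2 * ρ) hδ (hh m hm _ hmem), ee_norm]
      simp
    exact tendsto_nhds_unique_of_eventuallyEq h2 tendsto_const_nhds h3
  · have h1 := hcont (ee x₁) hmem
    refine h1.tendsto.mono_left ?_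
    rw [nhdsWithin_le_iff]
    filter_upwards [self_mem_nhdsWithin, mem_nhdsWithin_of_mem_nhds (ball_mem_nhds (ee x₁) hδ)]
      with z hz1 hz2
    exact ⟨ball_subset_closedBall hz1, hz2⟩

theorem blow {P : ℕ → ℝ → ℝ} (hP : SlopeSys P) (n k : ℕ) (r : ℝ) (h0 : 0 < r) (h1 : r < 1)
    (hr1 : (1 / 4 : ℝ) ^ (n + 1) ≤ 1 - r) (hr2 : 1 - r ≤ (1 / 4 : ℝ) ^ n) :
    ((n : ℝ) + 1) / 256 ≤ (Hn P (n + k) ((r : ℂ) * ee (1 / 3))).re := by
  have h4 : (0 : ℝ) < 4 ^ n := by positivity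
  have hq : (1 / 4 : ℝ) ^ n = 1 / 4 ^ n := by rw [one_div, one_div, inv_pow]
  have hzn : ‖(r : ℂ) * ee (1 / 3)‖ = r := by
    rw [norm_mul, ee_norm, mul_one, Complex.norm_real, Real.norm_eq_abs, abs_of_pos h0]
  set z : ℂ := (r : ℂ) * ee (1 / 3) with hz
  have hd : ∀ y, 1 - r ≤ ‖ee y - z‖ := fun y => ball_delta z r hzn.le y
  rw [Hn_re hP (n + k) z (by rw [hzn]; exact h1.le) (1 - r) (by linarith) (fun y _ => hd y)]
  set j : ℤ := ⌊(4 : ℝ) ^ n * (1 / 3)⌋ with hj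
  set a : ℝ := (j : ℝ) / 4 ^ n with ha
  set b : ℝ := ((j : ℝ) + 1) / 4 ^ n with hb
  have hab : a ≤ b := by
    rw [ha, hb]; apply div_le_div_of_nonneg_right _ h4.le; linarith
  have hba : b - a = 1 / 4 ^ n := by rw [ha, hb, ← sub_div]; ring
  have hj0 : 0 ≤ j := by
    rw [hj]; apply Int.floor_nonneg.2; positivity
  have ha0 : 0 ≤ a := by
    rw [ha]; apply div_nonneg _ h4.le; exact_mod_cast hj0
  have hb1 : b ≤ 1 := by
    rw [hb, div_le_one h4]
    have h5 : j < 4 ^ n := by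
      rw [hj, Int.floor_lt]; push_cast; linarith
    exact_mod_cast h5
  have hin : a ≤ 1 / 3 ∧ 1 / 3 ≤ b := by
    have e1 := Int.floor_le ((4 : ℝ) ^ n * (1 / 3))
    have e2 := Int.lt_floor_add_one ((4 : ℝ) ^ n * (1 / 3))
    rw [← hj] at e1 e2
    constructor
    · rw [ha, div_le_iff₀ h4]; linarith
    · rw [hb, le_div_iff₀ h4]; linarith
  have hKm : Measurable (fun x => (1 - ‖z‖ ^ 2) / ‖ee x - z‖ ^ 2 * P (n + k) x) := by
    refine Measurable.mul ?_ (hP.meas _)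
    exact measurable_const.div (((ee_cont.measurable.sub_const z).norm).pow_const 2)
  have hK0 : ∀ x, 0 ≤ (1 - ‖z‖ ^ 2) / ‖ee x - z‖ ^ 2 := by
    intro x
    rw [hzn]
    apply div_nonneg _ (by positivity)
    nlinarith
  have hKint : ∀ c d, IntervalIntegrable (fun x => (1 - ‖z‖ ^ 2) / ‖ee x - z‖ ^ 2 * P (n + k) x)
      volume c d := by
    intro c d
    refine (intervalIntegrable_const (c := (1 / (1 - r) ^ 2 * (((n + k : ℕ) : ℝ) + 1)))).mono_fun
      hKm.aestronglyMeasurable ?_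
    refine Filter.Eventually.of_forall fun x => ?_
    have hp : 0 < 1 - r := by linarith
    have e1 : |(1 - ‖z‖ ^ 2) / ‖ee x - z‖ ^ 2 * P (n + k) x| ≤
        |1 / (1 - r) ^ 2 * (((n + k : ℕ) : ℝ) + 1)| := by
      rw [abs_of_nonneg (mul_nonneg (hK0 x) (hP.nonneg _ _)), abs_of_nonneg (by positivity)]
      refine mul_le_mul ?_ (P_le hP _ x) (hP.nonneg _ _) (by positivity)
      have e2 : (1 - r) ^ 2 ≤ ‖ee x - z‖ ^ 2 := pow_le_pow_left₀ hp.le (hd x) 2
      have e3 : 1 - ‖z‖ ^ 2 ≤ 1 := by nlinarith [norm_nonneg z]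
      exact div_le_div₀ zero_le_one e3 (by positivity) e2
    simpa only [Real.norm_eq_abs] using e1
  have step1 : ∫ x in a..b, (1 - ‖z‖ ^ 2) / ‖ee x - z‖ ^ 2 * P (n + k) x ≤
      ∫ x in (0:ℝ)..1, (1 - ‖z‖ ^ 2) / ‖ee x - z‖ ^ 2 * P (n + k) x := by
    refine intervalIntegral.integral_mono_interval ha0 hab hb1 ?_ (hKint 0 1)
    exact Filter.Eventually.of_forall fun x => mul_nonneg (hK0 x) (hP.nonneg _ _)
  have step2 : ∫ x in a..b, (4 ^ n / 256 : ℝ) * P (n + k) x ≤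
      ∫ x in a..b, (1 - ‖z‖ ^ 2) / ‖ee x - z‖ ^ 2 * P (n + k) x := by
    refine intervalIntegral.integral_mono_on hab ((intgR hP _ a b).const_mul _) (hKint a b) ?_
    intro x hx
    refine mul_le_mul_of_nonneg_right ?_ (hP.nonneg _ _)
    have e1 : |x - 1 / 3| ≤ 1 / 4 ^ n := by
      rw [abs_le, ← hba]
      constructor <;> linarith [hx.1, hx.2, hin.1, hin.2]
    have e2 : ‖ee x - ee (1 / 3)‖ ≤ 2 * π * (1 / 4 ^ n) :=
      (ee_sub_le x (1 / 3)).trans (mul_le_mul_of_nonneg_left e1 (by positivity))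
    have e3 : ‖ee (1 / 3) - z‖ ≤ 1 / 4 ^ n := by
      have : ee (1 / 3) - z = ((1 - r : ℝ) : ℂ) * ee (1 / 3) := by
        rw [hz]; push_cast; ring
      rw [this, norm_mul, ee_norm, mul_one, Complex.norm_real, Real.norm_eq_abs,
        abs_of_nonneg (by linarith), ← hq]
      exact hr2
    have e4 : ‖ee x - z‖ ≤ 8 * (1 / 4 ^ n) := by
      have e5 := norm_add_le (ee x - ee (1 / 3)) (ee (1 / 3) - z)
      rw [sub_add_sub_cancel] at e5
      have e6 : 2 * π * (1 / 4 ^ n : ℝ) ≤ 7 * (1 / 4 ^ n) := by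
        apply mul_le_mul_of_nonneg_right _ (by positivity)
        linarith [Real.pi_lt_d2]
      linarith
    have e7 : 0 < ‖ee x - z‖ := lt_of_lt_of_le (by linarith) (hd x)
    rw [le_div_iff₀ (by positivity), hzn]
    have e8 : ‖ee x - z‖ ^ 2 ≤ 64 * (1 / 4 ^ n) ^ 2 := by
      have := pow_le_pow_left₀ e7.le e4 2
      nlinarith
    have e9 : (4 ^ n / 256 : ℝ) * ‖ee x - z‖ ^ 2 ≤ 1 / 4 * (1 / 4) ^ n := by
      calc (4 ^ n / 256 : ℝ) * ‖ee x - z‖ ^ 2 ≤ (4 ^ n / 256 : ℝ) * (64 * (1 / 4 ^ n) ^ 2) :=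
            mul_le_mul_of_nonneg_left e8 (by positivity)
        _ = 1 / 4 * (1 / 4) ^ n := by rw [hq]; field_simp; norm_num
    have e10 : (1 / 4 : ℝ) * (1 / 4) ^ n = (1 / 4) ^ (n + 1) := by rw [pow_succ]; ring
    nlinarith
  have step3 : ∫ x in a..b, (4 ^ n / 256 : ℝ) * P (n + k) x = ((n : ℝ) + 1) / 256 := by
    rw [intervalIntegral.integral_const_mul, ha, hb, mass hP n k j, ← ha, ← hb]
    have e1 : ∫ x in a..b, P n x = ∫ x in a..b, ((n : ℝ) + 1) := by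
      refine intervalIntegral.integral_congr_ae ?_
      have : ∀ᵐ x ∂(volume : Measure ℝ), x ≠ b := by simp [ae_iff]
      filter_upwards [this] with x hx hm
      rw [uIoc_of_le hab] at hm
      apply hP.big
      rw [← hj]
      exact floor_of_mem n j x ⟨hm.1.le, lt_of_le_of_ne hm.2 hx⟩
    rw [e1, intervalIntegral.integral_const, hba, smul_eq_mul]
    field_simp
  linarith

theorem HH_blow {P : ℕ → ℝ → ℝ} (hP : SlopeSys P) :
    Tendsto (fun r : ℝ => (HH P (r * ee (1 / 3))).re) (𝓝[<] 1) atTop := by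
  rw [Filter.tendsto_atTop]
  intro M
  obtain ⟨N, hN⟩ := exists_nat_ge (256 * M)
  have hpos : (0 : ℝ) < (1 / 4) ^ N := by positivity
  have hle : (1 / 4 : ℝ) ^ N ≤ 1 := pow_le_one₀ (by norm_num) (by norm_num)
  have hm : Ioo (1 - (1 / 4 : ℝ) ^ N) 1 ∈ 𝓝[<] (1 : ℝ) := Ioo_mem_nhdsLT (by linarith)
  filter_upwards [hm] with r hr
  have hr0 : 0 < r := by linarith [hr.1]
  have hr1 : r < 1 := hr.2
  obtain ⟨n, hn1, hn2⟩ := exists_nat_pow_near_of_lt_one (x := 1 - r) (y := (1 / 4 : ℝ))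
    (by linarith) (by linarith) (by norm_num) (by norm_num)
  have hNn : N ≤ n := by
    by_contra hc
    have h1 : n + 1 ≤ N := by omega
    have h2 : (1 / 4 : ℝ) ^ N ≤ (1 / 4) ^ (n + 1) :=
      pow_le_pow_of_le_one (by norm_num) (by norm_num) h1
    linarith [hr.1]
  have hzn : ‖(r : ℂ) * ee (1 / 3)‖ = r := by
    rw [norm_mul, ee_norm, mul_one, Complex.norm_real, Real.norm_eq_abs, abs_of_pos hr0]
  have h1 := (Hn_lim hP 0 ((r : ℂ) * ee (1 / 3)) (by rw [hzn]; exact hr1.le) (1 - r)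
    (by linarith) (fun y _ => ball_delta _ r hzn.le y)).1
  have h2 : Tendsto (fun m => (Hn P m ((r : ℂ) * ee (1 / 3))).re) atTop
      (𝓝 (HH P ((r : ℂ) * ee (1 / 3))).re) := (Complex.continuous_re.tendsto _).comp h1
  have h3 : ((n : ℝ) + 1) / 256 ≤ (HH P ((r : ℂ) * ee (1 / 3))).re := by
    refine ge_of_tendsto h2 ?_
    filter_upwards [eventually_ge_atTop n] with m hm
    obtain ⟨k, rfl⟩ := Nat.exists_eq_add_of_le hm
    exact blow hP n k r hr0 hr1 hn1.le hn2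
  have h4 : (N : ℝ) ≤ n := by exact_mod_cast hNn
  linarith

theorem exists_singular_bloch (P : ℕ → ℝ → ℝ) (hP : SlopeSys P) :
    ∃ (H : ℂ → ℂ) (C : ℝ) (ζ₀ : ℂ) (O : Set ℝ), 0 < C ∧ ‖ζ₀‖ = 1 ∧
      DifferentiableOn ℂ H (ball 0 1) ∧ H 0 = 1 ∧
      (∀ z ∈ ball (0 : ℂ) 1, 0 ≤ (H z).re) ∧
      (∀ z ∈ ball (0 : ℂ) 1, ‖deriv H z‖ ≤ C / (1 - ‖z‖)) ∧
      IsOpen O ∧ volume Oᶜ = 0 ∧
      (∀ x ∈ O, ∃ b : ℂ, b.re = 0 ∧ Tendsto H (𝓝[ball 0 1] (ee x)) (𝓝 b)) ∧
      Tendsto (fun r : ℝ => (H (r * ζ₀)).re) (𝓝[<] 1) atTop := by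
  obtain ⟨C, hC, hb⟩ := bloch_bound P hP
  refine ⟨HH P, C, ee (1 / 3), {x : ℝ | ∃ n, ∀ᶠ y in 𝓝 x, P n y = 0}, hC, ee_norm _,
    (HH_locunif hP).differentiableOn (Filter.Eventually.of_forall fun n => Hn_diffOn hP n)
      isOpen_ball, HH_zero hP, HH_re_nonneg hP, HH_deriv_le hP C hb, ?_, O_null hP, ?_,
    HH_blow hP⟩
  · rw [isOpen_iff_mem_nhds]
    rintro x ⟨n, hn⟩
    filter_upwards [eventually_eventually_nhds.2 hn] with y hy
    exact ⟨n, hy⟩
  · intro x hx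
    exact boundary hP x hx

end Sing

end Quad
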