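import Mathlib
import Pool.Agent.Helper123.Quad.SlopeDef

open MeasureTheory Set Filter Topology Metric
open scoped ENNReal NNReal Real ComplexConjugate

namespace Quad

/-- slopes on the `4`-adic intervals -/
def slope : ℕ → ℤ → ℤ
  | 0, _ => 1
  | n + 1, j => if slope n (j / 4) = 0 then 0 else
      if j % 4 = 1 then slope n (j / 4) + 1 else
      if j % 4 = 2 then slope n (j / 4) - 1 else slope n (j / 4)

/-- the densities -/
noncomputable def PP (n : ℕ) (x : ℝ) : ℝ := (slope n ⌊(4 : ℝ) ^ n * x⌋ : ℝ)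

theorem floor_four (n : ℕ) (x : ℝ) : ⌊(4 : ℝ) ^ (n + 1) * x⌋ / 4 = ⌊(4 : ℝ) ^ n * x⌋ := by
  symm
  rw [Int.floor_eq_iff]
  have h1 := Int.floor_le ((4 : ℝ) ^ (n + 1) * x)
  have h2 := Int.lt_floor_add_one ((4 : ℝ) ^ (n + 1) * x)
  set j := ⌊(4 : ℝ) ^ (n + 1) * x⌋ with hj
  have h3 := Int.emod_add_mul_ediv j 4
  have h4 := Int.emod_nonneg j (show (4 : ℤ) ≠ 0 by norm_num)
  have h5 := Int.emod_lt_of_pos j (show (0 : ℤ) < 4 by norm_num)
  have h6 : (4 : ℝ) * ((j / 4 : ℤ) : ℝ) ≤ j := by exact_mod_cast (by omega : 4 * (j / 4) ≤ j)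
  have h7 : (j : ℝ) + 1 ≤ 4 * (((j / 4 : ℤ) : ℝ) + 1) := by
    exact_mod_cast (by omega : j + 1 ≤ 4 * (j / 4 + 1))
  rw [pow_succ] at h1 h2
  constructor <;> nlinarith

theorem slope_nonneg (n : ℕ) (j : ℤ) : 0 ≤ slope n j := by
  induction n generalizing j with
  | zero => simp [slope]
  | succ n ih =>
    have := ih (j / 4)
    simp only [slope]
    split_ifs <;> omega

theorem slope_le (n : ℕ) (j : ℤ) : slope n j ≤ n + 1 := by
  induction n generalizing j with
  | zero => simp [slope]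
  | succ n ih =>
    have := ih (j / 4)
    simp only [slope]
    push_cast
    split_ifs <;> omega

theorem slope_step (n : ℕ) (j : ℤ) : |slope (n + 1) j - slope n (j / 4)| ≤ 1 := by
  have := slope_nonneg n (j / 4)
  simp only [slope]
  split_ifs with h <;> rw [abs_le] <;> omega

theorem slope_per (n : ℕ) (j : ℤ) : slope n (j + 4 ^ n) = slope n j := by
  induction n generalizing j with
  | zero => simp [slope]
  | succ n ih =>
    have h1 : (j + 4 ^ (n + 1)) / 4 = j / 4 + 4 ^ n := by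
      rw [pow_succ]; omega
    have h2 : (j + 4 ^ (n + 1)) % 4 = j % 4 := by
      rw [pow_succ]; omega
    simp only [slope, h1, h2, ih]

theorem slope_adj (n : ℕ) (j : ℤ) : |slope n j - slope n (j + 1)| ≤ 2 := by
  induction n generalizing j with
  | zero => simp [slope]
  | succ n ih =>
    have h0 := slope_nonneg n (j / 4)
    have h0' := slope_nonneg n (j / 4 + 1)
    have ih' := ih (j / 4)
    rw [abs_le] at ih'
    by_cases h : j % 4 = 3
    · have h1 : (j + 1) / 4 = j / 4 + 1 := by omega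
      have h2 : (j + 1) % 4 = 0 := by omega
      simp only [slope, h1, h2, h]
      norm_num
      rw [abs_le]
      split_ifs <;> omega
    · have h1 : (j + 1) / 4 = j / 4 := by omega
      simp only [slope, h1]
      rw [abs_le]
      split_ifs <;> omega

theorem PP_step (n : ℕ) (x : ℝ) : |PP (n + 1) x - PP n x| ≤ 1 := by
  unfold PP
  have h := slope_step n ⌊(4 : ℝ) ^ (n + 1) * x⌋
  rw [floor_four] at h
  exact_mod_cast h

theorem PP_near (m : ℕ) (x y : ℝ) (h : (4 : ℝ) ^ m * |x - y| < 1) : |PP m x - PP m y| ≤ 2 := by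
  unfold PP
  have h1 := Int.floor_le ((4 : ℝ) ^ m * x)
  have h2 := Int.lt_floor_add_one ((4 : ℝ) ^ m * x)
  have h3 := Int.floor_le ((4 : ℝ) ^ m * y)
  have h4 := Int.lt_floor_add_one ((4 : ℝ) ^ m * y)
  have h5 : |(4 : ℝ) ^ m * x - 4 ^ m * y| < 1 := by
    rw [← mul_sub, abs_mul, abs_of_pos (by positivity)]; exact h
  rw [abs_lt] at h5
  set a := ⌊(4 : ℝ) ^ m * x⌋
  set b := ⌊(4 : ℝ) ^ m * y⌋
  have h6 : a < b + 2 := by
    have : (a : ℝ) < b + 2 := by linarith
    exact_mod_cast this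
  have h7 : b < a + 2 := by
    have : (b : ℝ) < a + 2 := by linarith
    exact_mod_cast this
  have h8 : |slope m a - slope m b| ≤ 2 := by
    have h9 : b = a ∨ b = a + 1 ∨ a = b + 1 := by omega
    rcases h9 with h9 | h9 | h9
    · rw [h9]; simp
    · rw [h9]; exact slope_adj m a
    · rw [h9, abs_sub_comm]; exact slope_adj m b
  exact_mod_cast h8

theorem PP_far (m d : ℕ) (x y : ℝ) (h : (4 : ℝ) ^ m * |x - y| < 1) :
    |PP (m + d) x - PP (m + d) y| ≤ 2 + 2 * d := by
  induction d with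
  | zero => simpa using PP_near m x y h
  | succ d ih =>
    have h1 := PP_step (m + d) x
    have h2 := PP_step (m + d) y
    rw [← add_assoc]
    rw [abs_le] at *
    push_cast
    constructor <;> linarith [h1.1, h1.2, h2.1, h2.2, ih.1, ih.2]

theorem PP_nonneg (n : ℕ) (x : ℝ) : 0 ≤ PP n x := by
  unfold PP; exact_mod_cast slope_nonneg n _

theorem PP_le (n : ℕ) (x : ℝ) : PP n x ≤ n + 1 := by
  unfold PP; exact_mod_cast slope_le n _

theorem two_pow_ge (d : ℕ) : (d : ℝ) ≤ 2 ^ d := by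
  exact_mod_cast (Nat.lt_two_pow_self (n := d)).le

theorem PP_grow (n : ℕ) (x y : ℝ) : |PP n x - PP n y| ≤ 2 + 4 * Real.sqrt (4 ^ n * |x - y|) := by
  by_cases h0 : |x - y| < 1
  · have hP : (4 : ℝ) ^ 0 * |x - y| < 1 := by simpa using h0
    classical
    set m := Nat.findGreatest (fun m => (4 : ℝ) ^ m * |x - y| < 1) n with hm
    have hm1 : (4 : ℝ) ^ m * |x - y| < 1 := by
      have := Nat.findGreatest_spec (P := fun m => (4 : ℝ) ^ m * |x - y| < 1) (Nat.zero_le n) hP
      exact this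
    have hmn : m ≤ n := Nat.findGreatest_le n
    obtain ⟨d, hd⟩ := Nat.exists_eq_add_of_le hmn
    rcases Nat.eq_zero_or_pos d with h | h
    · rw [h, add_zero] at hd
      rw [hd]
      have := PP_near m x y hm1
      have h2 := Real.sqrt_nonneg (4 ^ m * |x - y|)
      linarith
    · obtain ⟨e, rfl⟩ : ∃ e, d = e + 1 := ⟨d - 1, by omega⟩
      have h1 := PP_far m (e + 1) x y hm1
      rw [← hd] at h1
      have h2 : ¬ (4 : ℝ) ^ (m + 1) * |x - y| < 1 :=
        Nat.findGreatest_is_greatest (P := fun m => (4 : ℝ) ^ m * |x - y| < 1)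
          (show Nat.findGreatest (fun m => (4 : ℝ) ^ m * |x - y| < 1) n < m + 1 by omega)
          (by omega)
      have h3 : ((2 : ℝ) ^ e) ^ 2 ≤ 4 ^ n * |x - y| := by
        have e1 : (4 : ℝ) ^ n * |x - y| = 4 ^ e * (4 ^ (m + 1) * |x - y|) := by
          rw [hd]; ring
        have e2 : ((2 : ℝ) ^ e) ^ 2 = 4 ^ e := by
          rw [← pow_mul, mul_comm, pow_mul]; norm_num
        rw [e1, e2]
        exact le_mul_of_one_le_right (by positivity) (not_lt.1 h2)
      have h4 : (2 : ℝ) ^ e ≤ Real.sqrt (4 ^ n * |x - y|) := Real.le_sqrt_of_sq_le h3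
      have h5 := two_pow_ge (e + 1)
      rw [pow_succ] at h5
      linarith
  · have h1 : (1 : ℝ) ≤ |x - y| := not_lt.1 h0
    have h2 : ((2 : ℝ) ^ n) ^ 2 ≤ 4 ^ n * |x - y| := by
      have e2 : ((2 : ℝ) ^ n) ^ 2 = 4 ^ n := by
        rw [← pow_mul, mul_comm, pow_mul]; norm_num
      rw [e2]
      exact le_mul_of_one_le_right (by positivity) h1
    have h4 : (2 : ℝ) ^ n ≤ Real.sqrt (4 ^ n * |x - y|) := Real.le_sqrt_of_sq_le h2
    have h5 := two_pow_ge n
    have h6 := PP_nonneg n x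
    have h7 := PP_nonneg n y
    have h8 := PP_le n x
    have h9 := PP_le n y
    rw [abs_le]
    constructor <;> linarith

theorem sum_four (N : ℕ) (g : ℕ → ℝ) : ∑ j ∈ Finset.range (4 * N), g j =
    ∑ J ∈ Finset.range N, (g (4 * J) + g (4 * J + 1) + g (4 * J + 2) + g (4 * J + 3)) := by
  induction N with
  | zero => simp
  | succ N ih =>
    rw [Finset.sum_range_succ, ← ih, show 4 * (N + 1) = 4 * N + 1 + 1 + 1 + 1 by ring,
      Finset.sum_range_succ, Finset.sum_range_succ, Finset.sum_range_succ, Finset.sum_range_succ]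
    ring

/-- average of a function of the slope -/
noncomputable def av (n : ℕ) (φ : ℤ → ℝ) : ℝ :=
  (∑ j ∈ Finset.range (4 ^ n), φ (slope n (j : ℤ))) / 4 ^ n

/-- transition operator -/
noncomputable def TT (φ : ℤ → ℝ) (q : ℤ) : ℝ :=
  if q = 0 then φ 0 else (2 * φ q + φ (q + 1) + φ (q - 1)) / 4

theorem av_succ (n : ℕ) (φ : ℤ → ℝ) : av (n + 1) φ = av n (TT φ) := by
  unfold av
  rw [pow_succ' 4 n, sum_four]
  rw [div_eq_div_iff (by positivity) (by positivity), Finset.sum_mul, Finset.sum_mul]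
  refine Finset.sum_congr rfl fun J _ => ?_
  have e0 : slope (n + 1) ((4 * J : ℕ) : ℤ) = slope n J := by
    have h1 : ((4 * J : ℕ) : ℤ) / 4 = J := by omega
    have h2 : ((4 * J : ℕ) : ℤ) % 4 = 0 := by omega
    simp only [slope, h1, h2]
    norm_num
    intro h; exact h.symm
  have e1 : slope (n + 1) ((4 * J + 1 : ℕ) : ℤ) = if slope n J = 0 then 0 else slope n J + 1 := by
    have h1 : ((4 * J + 1 : ℕ) : ℤ) / 4 = J := by omega
    have h2 : ((4 * J + 1 : ℕ) : ℤ) % 4 = 1 := by omega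
    simp only [slope, h1, h2]
    norm_num
  have e2 : slope (n + 1) ((4 * J + 2 : ℕ) : ℤ) = if slope n J = 0 then 0 else slope n J - 1 := by
    have h1 : ((4 * J + 2 : ℕ) : ℤ) / 4 = J := by omega
    have h2 : ((4 * J + 2 : ℕ) : ℤ) % 4 = 2 := by omega
    simp only [slope, h1, h2]
    norm_num
  have e3 : slope (n + 1) ((4 * J + 3 : ℕ) : ℤ) = slope n J := by
    have h1 : ((4 * J + 3 : ℕ) : ℤ) / 4 = J := by omega
    have h2 : ((4 * J + 3 : ℕ) : ℤ) % 4 = 3 := by omega
    simp only [slope, h1, h2]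
    norm_num
    intro h; exact h.symm
  rw [e0, e1, e2, e3]
  unfold TT
  split_ifs with h
  · rw [h]; ring
  · ring

theorem av_mono (n : ℕ) {φ ψ : ℤ → ℝ} (h : ∀ q, 0 ≤ q → φ q ≤ ψ q) : av n φ ≤ av n ψ := by
  unfold av
  gcongr with j _
  exact h _ (slope_nonneg n _)

theorem av_congr (n : ℕ) {φ ψ : ℤ → ℝ} (h : ∀ q, 0 ≤ q → φ q = ψ q) : av n φ = av n ψ :=
  le_antisymm (av_mono n fun q hq => (h q hq).le) (av_mono n fun q hq => (h q hq).ge)

theorem av_add (n : ℕ) (φ ψ : ℤ → ℝ) : av n (fun q => φ q + ψ q) = av n φ + av n ψ := by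
  unfold av
  rw [Finset.sum_add_distrib, add_div]

theorem av_mul (n : ℕ) (c : ℝ) (φ : ℤ → ℝ) : av n (fun q => c * φ q) = c * av n φ := by
  unfold av
  rw [← Finset.mul_sum, mul_div_assoc]

theorem av_id (n : ℕ) : av n (fun q => (q : ℝ)) = 1 := by
  induction n with
  | zero => simp [av, slope]
  | succ n ih =>
    rw [av_succ, ← ih]
    apply av_congr
    intro q _
    unfold TT
    split_ifs with h
    · rw [h]
    · push_cast; ring

/-- Lyapunov function -/
noncomputable def ly (q : ℤ) : ℝ := q / (q + 1)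

/-- its decrement -/
noncomputable def dc (q : ℤ) : ℝ := if q = 0 then 0 else 1 / (2 * q * (q + 1) * (q + 2))

theorem dc_nonneg {q : ℤ} (hq : 0 ≤ q) : 0 ≤ dc q := by
  unfold dc
  have : (0 : ℝ) ≤ q := by exact_mod_cast hq
  split_ifs
  · exact le_rfl
  · positivity

theorem av_ly (n : ℕ) : av n ly = av (n + 1) ly + av n dc := by
  rw [av_succ, ← av_add]
  apply av_congr
  intro q hq
  unfold TT dc ly
  split_ifs with h
  · rw [h]; simp
  · have h1 : (0 : ℝ) < q := by exact_mod_cast (by omega : 0 < q)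
    push_cast
    have h2 : (q : ℝ) - 1 + 1 ≠ 0 := by
      rw [sub_add_cancel]; exact h1.ne'
    have h3 : (q : ℝ) + 1 + 1 = q + 2 := by ring
    rw [h3]
    field_simp
    ring

theorem av_nonneg (n : ℕ) {φ : ℤ → ℝ} (h : ∀ q, 0 ≤ q → 0 ≤ φ q) : 0 ≤ av n φ := by
  have h1 := av_mono n (φ := fun _ => 0) (ψ := φ) h
  have h2 : av n (fun _ => (0 : ℝ)) = 0 := by simp [av]
  rwa [h2] at h1

theorem ly_nonneg {q : ℤ} (hq : 0 ≤ q) : 0 ≤ ly q := by
  unfold ly
  have : (0 : ℝ) ≤ q := by exact_mod_cast hq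
  positivity

theorem sum_dc (N : ℕ) : ∑ n ∈ Finset.range N, av n dc ≤ av 0 ly := by
  have h1 : ∑ n ∈ Finset.range N, av n dc = av 0 ly - av N ly := by
    induction N with
    | zero => simp
    | succ N ih =>
      rw [Finset.sum_range_succ, ih]
      linarith [av_ly N]
  rw [h1]
  linarith [av_nonneg N (φ := ly) fun q hq => ly_nonneg hq]

theorem tendsto_dc : Tendsto (fun n => av n dc) atTop (𝓝 0) := by
  have hs : Summable (fun n => av n dc) := by
    refine summable_of_sum_range_le (c := av 0 ly) (fun n => av_nonneg n fun q hq => dc_nonneg hq)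
      sum_dc
  exact hs.tendsto_atTop_zero

/-- indicator of nonzero slope -/
noncomputable def nz (q : ℤ) : ℝ := if q = 0 then 0 else 1

theorem av_nz_le (n K : ℕ) (hK : 0 < K) :
    av n nz ≤ (2 * K * (K + 1) * (K + 2)) * av n dc + 1 / K := by
  have hK' : (0 : ℝ) < K := by exact_mod_cast hK
  have h1 : (1 : ℝ) / K = (1 / K) * av n (fun q => (q : ℝ)) := by rw [av_id, mul_one]
  rw [h1, ← av_mul, ← av_mul, ← av_add]
  apply av_mono
  intro q hq
  unfold nz
  split_ifs with h
  · have h2 := dc_nonneg hq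
    have h3 : (0 : ℝ) ≤ q := by exact_mod_cast hq
    positivity
  · have h3 : (0 : ℝ) < q := by exact_mod_cast (by omega : 0 < q)
    by_cases hqK : q ≤ K
    · have h4 : (q : ℝ) ≤ K := by exact_mod_cast hqK
      have h5 : (1 : ℝ) ≤ 2 * K * (K + 1) * (K + 2) * dc q := by
        unfold dc
        rw [if_neg h, mul_one_div, one_le_div (by positivity)]
        gcongr
      have : (0 : ℝ) ≤ 1 / K * q := by positivity
      linarith
    · have h4 : (K : ℝ) ≤ q := by exact_mod_cast (not_le.1 hqK).le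
      have h5 : (1 : ℝ) ≤ 1 / K * q := by
        rw [one_div, inv_mul_eq_div, one_le_div hK']; exact h4
      have h6 : 0 ≤ 2 * (K : ℝ) * (K + 1) * (K + 2) * dc q := by
        have := dc_nonneg hq
        positivity
      linarith

theorem tendsto_nz : Tendsto (fun n => av n nz) atTop (𝓝 0) := by
  rw [Metric.tendsto_atTop]
  intro ε hε
  obtain ⟨K, hK⟩ := exists_nat_gt (2 / ε)
  have hK0 : 0 < K := by
    have : (0 : ℝ) < K := lt_trans (by positivity) hK
    exact_mod_cast this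
  have hK' : (0 : ℝ) < K := by exact_mod_cast hK0
  have hKε : 1 / (K : ℝ) < ε / 2 := by
    rw [div_lt_iff₀ hε] at hK
    rw [div_lt_div_iff₀ hK' two_pos]
    linarith
  have h1 := (tendsto_dc.const_mul (2 * (K : ℝ) * (K + 1) * (K + 2)))
  rw [mul_zero] at h1
  obtain ⟨N, hN⟩ := (Metric.tendsto_atTop.1 h1) (ε / 2) (half_pos hε)
  refine ⟨N, fun n hn => ?_⟩
  have h2 := hN n hn
  rw [Real.dist_eq, sub_zero] at h2 ⊢
  have h3 := av_nz_le n K hK0
  have h4 : 0 ≤ av n nz := av_nonneg n fun q _ => by unfold nz; split_ifs <;> norm_num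
  rw [abs_of_nonneg h4]
  have := (le_abs_self _).trans_lt h2
  linarith

theorem vol_le (n : ℕ) : volume {x ∈ Ico (0 : ℝ) 1 | PP n x ≠ 0} ≤ ENNReal.ofReal (av n nz) := by
  have h4 : (0 : ℝ) < 4 ^ n := by positivity
  have hsub : {x ∈ Ico (0 : ℝ) 1 | PP n x ≠ 0} ⊆
      ⋃ j ∈ (Finset.range (4 ^ n)).filter (fun j : ℕ => slope n j ≠ 0),
        Ico ((j : ℝ) / 4 ^ n) ((j + 1) / 4 ^ n) := by
    rintro x ⟨⟨hx0, hx1⟩, hx⟩
    have h0 : 0 ≤ (4 : ℝ) ^ n * x := by positivity
    obtain ⟨j, hj⟩ : ∃ j : ℕ, ⌊(4 : ℝ) ^ n * x⌋ = j :=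
      ⟨⌊(4 : ℝ) ^ n * x⌋.toNat, (Int.toNat_of_nonneg (Int.floor_nonneg.2 h0)).symm⟩
    have h1 := Int.floor_le ((4 : ℝ) ^ n * x)
    have h2 := Int.lt_floor_add_one ((4 : ℝ) ^ n * x)
    rw [hj] at h1 h2
    push_cast at h1 h2
    simp only [mem_iUnion]
    refine ⟨j, ?_, ?_⟩
    · rw [Finset.mem_filter, Finset.mem_range]
      constructor
      · have : (j : ℝ) < 4 ^ n := by nlinarith
        exact_mod_cast this
      · intro h
        apply hx
        unfold PP
        rw [hj, h]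
        simp
    · constructor
      · rw [div_le_iff₀ h4]; linarith
      · rw [lt_div_iff₀ h4]; linarith
  refine (measure_mono hsub).trans ((measure_biUnion_finset_le _ _).trans ?_)
  have h5 : ∀ j : ℕ, volume (Ico ((j : ℝ) / 4 ^ n) ((j + 1) / 4 ^ n)) =
      ENNReal.ofReal (1 / 4 ^ n) := by
    intro j
    rw [Real.volume_Ico]
    congr 1
    ring
  simp only [h5]
  rw [Finset.sum_const, nsmul_eq_mul, ← ENNReal.ofReal_natCast, ← ENNReal.ofReal_mul (by positivity)]
  apply ENNReal.ofReal_le_ofReal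
  unfold av nz
  rw [mul_one_div]
  gcongr
  rw [Finset.card_filter]
  push_cast
  refine (Finset.sum_congr rfl fun j _ => ?_).le
  by_cases h : slope n j = 0 <;> simp [h]

theorem piece_integral (F : ℝ → ℝ) (a b c : ℝ) (hab : a ≤ b) (h : ∀ x, a ≤ x → x < b → F x = c) :
    IntervalIntegrable F volume a b ∧ ∫ x in a..b, F x = (b - a) * c := by
  have hae : ∀ᵐ x ∂volume, x ∈ Set.uIoc a b → c = F x := by
    have : ∀ᵐ x ∂(volume : Measure ℝ), x ≠ b := by
      rw [ae_iff]
      simp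
    filter_upwards [this] with x hx hx'
    rw [uIoc_of_le hab] at hx'
    exact (h x hx'.1.le (lt_of_le_of_ne hx'.2 hx)).symm
  constructor
  · have h1 : IntervalIntegrable (fun _ : ℝ => c) volume a b := intervalIntegrable_const
    refine h1.congr_ae ?_
    exact (ae_restrict_iff' measurableSet_uIoc).2 hae
  · rw [← intervalIntegral.integral_congr_ae hae, intervalIntegral.integral_const, smul_eq_mul]

theorem exists_slopeSys : ∃ P : ℕ → ℝ → ℝ, SlopeSys P := by
  refine ⟨PP, ⟨?_, ?_, ?_, PP_nonneg, PP_step, ?_, ?_, ?_, PP_grow, ?_, ?_⟩⟩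
  · intro n
    have h1 : Measurable (fun j : ℤ => (slope n j : ℝ)) := Measurable.of_discrete
    have h2 : Measurable (fun x : ℝ => ⌊(4 : ℝ) ^ n * x⌋) :=
      Int.measurable_floor.comp (measurable_const.mul measurable_id)
    exact h1.comp h2
  · intro n x
    unfold PP
    have h1 : ⌊(4 : ℝ) ^ n * (x + 1)⌋ = ⌊(4 : ℝ) ^ n * x⌋ + 4 ^ n := by
      have : (4 : ℝ) ^ n * (x + 1) = 4 ^ n * x + ((4 ^ n : ℤ) : ℝ) := by push_cast; ring
      rw [this, Int.floor_add_intCast]
    rw [h1, slope_per]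
  · intro x
    simp [PP, slope]
  · intro n x h
    unfold PP at h ⊢
    have h1 : slope n ⌊(4 : ℝ) ^ n * x⌋ = 0 := by exact_mod_cast h
    simp only [slope, floor_four, h1]
    simp
  · intro n x y h
    unfold PP
    rw [h]
  · intro n j
    have h4 : (0 : ℝ) < 4 ^ n := by positivity
    have h4' : (0 : ℝ) < 4 ^ (n + 1) := by positivity
    set a : ℕ → ℝ := fun i => ((4 * j + i : ℤ) : ℝ) / 4 ^ (n + 1) with ha
    have hmono : ∀ i, a i ≤ a (i + 1) := by
      intro i
      simp only [ha]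
      gcongr
      push_cast
      linarith
    have hval : ∀ i : ℕ, i < 4 → ∀ x, a i ≤ x → x < a (i + 1) →
        PP (n + 1) x - PP n x = ((slope (n + 1) (4 * j + i) : ℤ) : ℝ) - (slope n j : ℝ) := by
      intro i hi x hx1 hx2
      have h1 : ⌊(4 : ℝ) ^ (n + 1) * x⌋ = 4 * j + i := by
        rw [Int.floor_eq_iff]
        simp only [ha] at hx1 hx2
        rw [div_le_iff₀ h4'] at hx1
        rw [lt_div_iff₀ h4'] at hx2
        push_cast at hx1 hx2 ⊢
        constructor <;> linarith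
      have h2 : ⌊(4 : ℝ) ^ n * x⌋ = j := by
        rw [← floor_four, h1]; omega
      unfold PP
      rw [h1, h2]
    have hp : ∀ i : ℕ, i < 4 → IntervalIntegrable (fun x => PP (n + 1) x - PP n x) volume (a i)
        (a (i + 1)) ∧ ∫ x in (a i)..(a (i + 1)), (PP (n + 1) x - PP n x) =
        (1 / 4 ^ (n + 1)) * (((slope (n + 1) (4 * j + i) : ℤ) : ℝ) - (slope n j : ℝ)) := by
      intro i hi
      obtain ⟨h1, h2⟩ := piece_integral _ _ _ _ (hmono i) (hval i hi)
      refine ⟨h1, ?_⟩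
      rw [h2]
      congr 1
      simp only [ha]
      push_cast
      ring
    have hsum := intervalIntegral.sum_integral_adjacent_intervals (n := 4) (a := a)
      (μ := volume) (f := fun x => PP (n + 1) x - PP n x) (fun i hi => (hp i hi).1)
    have e0 : a 0 = (j : ℝ) / 4 ^ n := by
      simp only [ha]
      push_cast
      rw [pow_succ, div_eq_div_iff (by positivity) (by positivity)]
      ring
    have e4 : a 4 = ((j : ℝ) + 1) / 4 ^ n := by
      simp only [ha]
      push_cast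
      rw [pow_succ, div_eq_div_iff (by positivity) (by positivity)]
      ring
    rw [← e0, ← e4, ← hsum]
    rw [Finset.sum_range_succ, Finset.sum_range_succ, Finset.sum_range_succ,
      Finset.sum_range_succ, Finset.sum_range_zero, (hp 0 (by norm_num)).2,
      (hp 1 (by norm_num)).2, (hp 2 (by norm_num)).2, (hp 3 (by norm_num)).2]
    have s0 : (4 * j + ((0 : ℕ) : ℤ)) / 4 = j ∧ (4 * j + ((0 : ℕ) : ℤ)) % 4 = 0 := by
      push_cast; omega
    have s1 : (4 * j + ((1 : ℕ) : ℤ)) / 4 = j ∧ (4 * j + ((1 : ℕ) : ℤ)) % 4 = 1 := by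
      push_cast; omega
    have s2 : (4 * j + ((2 : ℕ) : ℤ)) / 4 = j ∧ (4 * j + ((2 : ℕ) : ℤ)) % 4 = 2 := by
      push_cast; omega
    have s3 : (4 * j + ((3 : ℕ) : ℤ)) / 4 = j ∧ (4 * j + ((3 : ℕ) : ℤ)) % 4 = 3 := by
      push_cast; omega
    simp only [slope, s0.1, s0.2, s1.1, s1.2, s2.1, s2.2, s3.1, s3.2]
    by_cases h : slope n j = 0
    · simp [h]
    · simp only [h, if_false]
      norm_num
  · refine tendsto_of_tendsto_of_tendsto_of_le_of_le tendsto_const_nhds ?_ (fun n => zero_le)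
      (fun n => vol_le n)
    have := (ENNReal.continuous_ofReal.tendsto 0).comp tendsto_nz
    simpa [Function.comp_def] using this
  · intro n x h
    unfold PP
    rw [h]
    have key : ∀ n : ℕ, ∃ k : ℤ, (4 : ℝ) ^ n = 3 * k + 1 ∧ slope n k = n + 1 := by
      intro n
      induction n with
      | zero => exact ⟨0, by simp, by simp [slope]⟩
      | succ n ih =>
        obtain ⟨k, hk1, hk2⟩ := ih
        refine ⟨4 * k + 1, ?_, ?_⟩
        · rw [pow_succ, hk1]; push_cast; ring
        · have h1 : (4 * k + 1) / 4 = k := by omega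
          have h2 : (4 * k + 1) % 4 = 1 := by omega
          simp only [slope, h1, h2, hk2]
          have h3 : ((n : ℤ) + 1) ≠ 0 := by omega
          simp only [h3, if_false, if_true]
          push_cast; ring
    obtain ⟨k, hk1, hk2⟩ := key n
    have h1 : ⌊(4 : ℝ) ^ n * (1 / 3)⌋ = k := by
      rw [Int.floor_eq_iff, hk1]
      constructor <;> linarith
    rw [h1, hk2]
    push_cast; ring

end Quad
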